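import Pool.Agent.Work.MP_70e905_nt.PK.Defs

/-!
# Block PK: basic facts on means
-/

set_option autoImplicit false

namespace Pool.Agent.Work.MP_70e905_nt.PK

open Finset

section

variable {X Y : Type*} [Fintype X] [Fintype Y]

theorem av_add (F H : X → ℝ) : av (fun x => F x + H x) = av F + av H := by
  unfold av
  rw [sum_add_distrib, add_div]

theorem av_sub (F H : X → ℝ) : av (fun x => F x - H x) = av F - av H := by
  unfold av
  rw [sum_sub_distrib, sub_div]

theorem av_neg (F : X → ℝ) : av (fun x => -F x) = -av F := by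
  unfold av
  rw [sum_neg_distrib, neg_div]

theorem av_mul_left (c : ℝ) (F : X → ℝ) : av (fun x => c * F x) = c * av F := by
  unfold av
  rw [← mul_sum, mul_div_assoc]

theorem av_mul_right (F : X → ℝ) (c : ℝ) : av (fun x => F x * c) = av F * c := by
  unfold av
  rw [← sum_mul, div_mul_eq_mul_div]

theorem av_nonneg {F : X → ℝ} (h : ∀ x, 0 ≤ F x) : 0 ≤ av F :=
  div_nonneg (sum_nonneg fun x _ => h x) (Nat.cast_nonneg _)

theorem av_mono {F H : X → ℝ} (h : ∀ x, F x ≤ H x) : av F ≤ av H :=
  div_le_div_of_nonneg_right (sum_le_sum fun x _ => h x) (Nat.cast_nonneg _)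

theorem av_const [Nonempty X] (c : ℝ) : av (fun _ : X => c) = c := by
  unfold av
  rw [sum_const, card_univ, nsmul_eq_mul, mul_comm, mul_div_assoc, div_self, mul_one]
  exact_mod_cast Fintype.card_ne_zero

theorem abs_av_le (F : X → ℝ) : |av F| ≤ av (fun x => |F x|) := by
  unfold av
  rw [abs_div, Nat.abs_cast]
  exact div_le_div_of_nonneg_right (abs_sum_le_sum_abs _ _) (Nat.cast_nonneg _)

theorem av_le_of_le [Nonempty X] {F : X → ℝ} {c : ℝ} (h : ∀ x, F x ≤ c) : av F ≤ c := by
  have := av_mono (H := fun _ => c) h
  rwa [av_const] at this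

theorem le_av_of_le [Nonempty X] {F : X → ℝ} {c : ℝ} (h : ∀ x, c ≤ F x) : c ≤ av F := by
  have := av_mono (F := fun _ => c) h
  rwa [av_const] at this

theorem abs_av_le_of_le [Nonempty X] {F : X → ℝ} {c : ℝ} (h : ∀ x, |F x| ≤ c) : |av F| ≤ c :=
  (abs_av_le F).trans (av_le_of_le h)

theorem av_sum {ι : Type*} (s : Finset ι) (F : ι → X → ℝ) :
    av (fun x => ∑ i ∈ s, F i x) = ∑ i ∈ s, av (F i) := by
  unfold av
  rw [sum_comm, sum_div]

/-- weighted Cauchy-Schwarz inequality -/
theorem av_cs_w {W F H : X → ℝ} (hW : ∀ x, 0 ≤ W x) :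
    av (fun x => W x * (F x * H x)) ^ 2 ≤
      av (fun x => W x * F x ^ 2) * av (fun x => W x * H x ^ 2) := by
  unfold av
  rw [div_pow, div_mul_div_comm, ← sq]
  refine div_le_div_of_nonneg_right ?_ (sq_nonneg _)
  have h := sum_mul_sq_le_sq_mul_sq univ (fun x => Real.sqrt (W x) * F x)
    (fun x => Real.sqrt (W x) * H x)
  have e1 : ∀ x, Real.sqrt (W x) * F x * (Real.sqrt (W x) * H x) = W x * (F x * H x) := by
    intro x
    have := Real.mul_self_sqrt (hW x)
    linear_combination (F x * H x) * this
  have e2 : ∀ (K : X → ℝ) x, (Real.sqrt (W x) * K x) ^ 2 = W x * K x ^ 2 := by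
    intro K x
    rw [mul_pow, Real.sq_sqrt (hW x)]
  simp only [e1, e2] at h
  exact h

/-- Cauchy-Schwarz inequality -/
theorem av_cs (F H : X → ℝ) :
    av (fun x => F x * H x) ^ 2 ≤ av (fun x => F x ^ 2) * av (fun x => H x ^ 2) := by
  have := av_cs_w (W := fun _ : X => (1 : ℝ)) (F := F) (H := H) (fun _ => zero_le_one)
  simpa only [one_mul] using this

theorem av_sq_le (F : X → ℝ) : av F ^ 2 ≤ av (fun x => F x ^ 2) := by
  rcases isEmpty_or_nonempty X with h | h
  · unfold av
    simp
  · have := av_cs F (fun _ => 1)
    simpa [av_const] using this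

theorem av_comp (σ : X ≃ Y) (F : Y → ℝ) : av (fun x => F (σ x)) = av F := by
  unfold av
  rw [Fintype.card_congr σ]
  congr 1
  exact σ.sum_comp F

theorem av_prod (F : X × Y → ℝ) : av F = av (fun x => av (fun y => F (x, y))) := by
  unfold av
  rw [Fintype.sum_prod_type, Fintype.card_prod, Nat.cast_mul, ← sum_div, div_div]
  rw [mul_comm]

theorem av_comm (F : X → Y → ℝ) : av (fun x => av (F x)) = av (fun y => av (fun x => F x y)) := by
  unfold av
  simp only [← sum_div]
  rw [sum_comm, div_div, div_div, mul_comm]

end

section upd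

variable {ι : Type*} [Fintype ι] [DecidableEq ι] {G : Type*} [Fintype G]

/-- averaging first over one coordinate -/
theorem av_update (c : ι) (F : (ι → G) → ℝ) :
    av (fun x => av (fun u => F (Function.update x c u))) = av F := by
  classical
  rcases isEmpty_or_nonempty G with h | h
  · have : IsEmpty (ι → G) := ⟨fun x => h.elim (x c)⟩
    unfold av
    simp
  · -- for each `u` the map `x ↦ update x c u` hits every `y` with `y c = u` exactly `|G|` times
    rw [av_comm]
    unfold av
    have key : ∀ u : G, ∑ x : ι → G, F (Function.update x c u) =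
        (Fintype.card G : ℝ) * ∑ y ∈ univ.filter (fun y : ι → G => y c = u), F y := by
      intro u
      rw [← sum_fiberwise_of_maps_to (s := univ) (t := univ.filter (fun y : ι → G => y c = u))
        (g := fun x => Function.update x c u) (fun x _ => by simp), mul_sum]
      refine sum_congr rfl fun y hy => ?_
      rw [mem_filter] at hy
      have h1 : ∀ x ∈ univ.filter (fun x : ι → G => Function.update x c u = y),
          F (Function.update x c u) = F y := by
        intro x hx
        rw [(mem_filter.1 hx).2]
      rw [sum_congr rfl h1, sum_const, nsmul_eq_mul]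
      congr 1
      have h2 : (univ.filter (fun x : ι → G => Function.update x c u = y)) =
          univ.image (fun v : G => Function.update y c v) := by
        ext x
        simp only [mem_filter, mem_univ, true_and, mem_image]
        constructor
        · intro hx
          refine ⟨x c, ?_⟩
          rw [← hx, Function.update_idem, Function.update_eq_self]
        · rintro ⟨v, rfl⟩
          rw [Function.update_idem, ← hy.2, Function.update_eq_self]
      rw [h2, card_image_of_injective _ (Function.update_injective y c), card_univ]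
    simp only [key]
    have hG : (Fintype.card G : ℝ) ≠ 0 := by exact_mod_cast Fintype.card_ne_zero
    have hsum : ∑ u : G, (Fintype.card G : ℝ) *
        (∑ y ∈ univ.filter (fun y : ι → G => y c = u), F y) / (Fintype.card (ι → G) : ℝ) =
        (Fintype.card G : ℝ) * ((∑ y, F y) / (Fintype.card (ι → G) : ℝ)) := by
      rw [← sum_div, ← mul_sum, sum_fiberwise univ (fun y : ι → G => y c) F, mul_div_assoc]
    rw [hsum, mul_comm, mul_div_assoc, div_self hG, mul_one]

end upd

end Pool.Agent.Work.MP_70e905_nt.PK
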