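import Pool.Agent.Work.MP_70e905_nt.PK.CutL

/-!
# PK/Base (size S): the counting lemma for bounded weights

PROOF. For `A ⊆ P` let `w A p = if p ∈ A then h p else g p`. By induction on `A` (`Finset.induction_on`) `|tK g - tK (w A)| ≤ A.card * ε` for `A ⊆ P`: for `e ∉ A`, `e ∈ P`:
`w (insert e A) = Function.update (w A) e (h e)` and `w A = Function.update (w A) e (g e)`, so by `tK_update` the difference is
`av (fun z => (g e z.1 z.2 - h e z.1 z.2) * cod e (w A) z)`, at most `ε` by `cut_cod`. For `A = P`: `tK (w P) = tK h` (only the values on `P` matter) and `P.card = 6` (`decide`/`rfl`).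
-/

set_option autoImplicit false

namespace Pool.Agent.Work.MP_70e905_nt.PK

open Finset

theorem base {G : Type} [Fintype G] [Nonempty G] {ε : ℝ} (g h : Fin 4 × Fin 4 → G → G → ℝ)
    (hg : ∀ p ∈ P, ∀ u v, 0 ≤ g p u v ∧ g p u v ≤ 1)
    (hh : ∀ p ∈ P, ∀ u v, 0 ≤ h p u v ∧ h p u v ≤ 1)
    (hcut : ∀ p ∈ P, Cut ε (fun u v => g p u v - h p u v)) : |tK g - tK h| ≤ 6 * ε := by
  have key : ∀ A : Finset (Fin 4 × Fin 4), A ⊆ P →
      |tK g - tK (fun p => if p ∈ A then h p else g p)| ≤ (A.card : ℝ) * ε := by
    intro A
    induction A using Finset.induction_on with
    | empty =>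
      intro _
      have e : (fun p : Fin 4 × Fin 4 => if p ∈ (∅ : Finset (Fin 4 × Fin 4)) then h p else g p) =
          g := by
        funext p
        simp
      rw [e, sub_self, abs_zero, card_empty, Nat.cast_zero, zero_mul]
    | @insert e A he ih =>
      intro hA
      have heP : e ∈ P := hA (mem_insert_self e A)
      have hAP : A ⊆ P := fun x hx => hA (mem_insert_of_mem hx)
      have h1 := ih hAP
      have hw : ∀ p ∈ P, ∀ u v, 0 ≤ (fun p => if p ∈ A then h p else g p) p u v ∧
          (fun p => if p ∈ A then h p else g p) p u v ≤ 1 := by
        intro p hp u v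
        beta_reduce
        split_ifs
        · exact hh p hp u v
        · exact hg p hp u v
      have h2 := cut_cod heP (hcut e heP) _ hw
      have e1 : (fun p => if p ∈ insert e A then h p else g p) =
          Function.update (fun p => if p ∈ A then h p else g p) e (h e) := by
        funext p
        by_cases hp : p = e
        · subst hp
          simp
        · rw [Function.update_of_ne hp]
          simp [mem_insert, hp]
      have e2 : (fun p => if p ∈ A then h p else g p) =
          Function.update (fun p => if p ∈ A then h p else g p) e (g e) := by
        funext p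
        by_cases hp : p = e
        · subst hp
          simp [he]
        · rw [Function.update_of_ne hp]
      have h3 := tK_update heP (fun p => if p ∈ A then h p else g p) (g e)
      have h4 := tK_update heP (fun p => if p ∈ A then h p else g p) (h e)
      rw [← e2] at h3
      rw [← e1] at h4
      have h6 : av (fun z : G × G => (g e z.1 z.2 - h e z.1 z.2) *
          cod e (fun p => if p ∈ A then h p else g p) z) =
          tK (fun p => if p ∈ A then h p else g p) -
            tK (fun p => if p ∈ insert e A then h p else g p) := by
        rw [h3, h4, ← av_sub]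
        congr 1
        funext z
        ring
      rw [h6] at h2
      rw [card_insert_of_notMem he]
      push_cast
      have h5 := abs_sub_le (tK g) (tK (fun p => if p ∈ A then h p else g p))
        (tK (fun p => if p ∈ insert e A then h p else g p))
      linarith
  have h1 := key P subset_rfl
  have h2 : tK (fun p => if p ∈ P then h p else g p) = tK h := by
    unfold tK
    refine congrArg av (funext fun x => prod_congr rfl fun p hp => ?_)
    show (if p ∈ P then h p else g p) (x p.1) (x p.2) = h p (x p.1) (x p.2)
    rw [if_pos hp]
  have h3 : P.card = 6 := by decide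
  rw [h2, h3] at h1
  exact_mod_cast h1

end Pool.Agent.Work.MP_70e905_nt.PK
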