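import Mathlib

/-!
# Block (E): complete `r`-partite `r`-uniform hypergraphs in dense hypergraphs (Erdős 1964)

`blowPow`, `blowFun`: the same with a power saving, `|H| ≥ |V| ^ (r - ε)`.
`blow`: for every `r`, `M` and `δ > 0` there is `N₀` such that every set `H` of functions
`Fin r → V` with `|V| ≥ N₀` and `|H| ≥ δ |V| ^ r` contains a box `A 0 × … × A (r - 1)` with all
`|A i| = M`.
-/

set_option autoImplicit false

namespace Pool.Agent.Work.MP_70e905_nt.PK

open Finset

universe u

/-- One step: a set `S` of `M` elements such that for many `y` all `Fin.cons s y`, `s ∈ S`, are in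
`H`. -/
private theorem step (r M : ℕ) (δ : ℝ) (hδ : 0 < δ) (V : Type u) [Fintype V] [DecidableEq V]
    (H : Finset (Fin (r + 1) → V)) (hN : 4 * (M + 1) / δ ≤ (Fintype.card V : ℝ))
    (hNM : M ≤ Fintype.card V)
    (hH : δ * (Fintype.card V : ℝ) ^ (r + 1) ≤ (H.card : ℝ)) :
    ∃ S : Finset V, S.card = M ∧
      δ / 2 * (δ / 4) ^ M * (Fintype.card V : ℝ) ^ r ≤
        ((univ.filter fun y : Fin r → V => ∀ s ∈ S, (Fin.cons s y : Fin (r + 1) → V) ∈ H).card : ℝ) := by
  classical
  set N : ℝ := (Fintype.card V : ℝ) with hNdef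
  have hN0 : 0 < N := lt_of_lt_of_le (by positivity) hN
  set nb : (Fin r → V) → Finset V :=
    fun y => univ.filter fun x => (Fin.cons x y : Fin (r + 1) → V) ∈ H with hnb
  -- the sum of the degrees
  have hsum : (∑ y : Fin r → V, ((nb y).card : ℝ)) = H.card := by
    have h1 : ∑ y : Fin r → V, (nb y).card = H.card := by
      rw [Finset.card_eq_sum_card_fiberwise (f := fun x : Fin (r + 1) → V => Fin.tail x)
        (t := (univ : Finset (Fin r → V))) (fun x _ => by simp)]
      refine Finset.sum_congr rfl fun y _ => ?_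
      refine Finset.card_bij (fun x _ => (Fin.cons x y : Fin (r + 1) → V)) ?_ ?_ ?_
      · intro x hx
        simp only [hnb, mem_filter, mem_univ, true_and] at hx
        simp [hx]
      · intro x _ x' _ h
        have := congrFun h 0
        simpa using this
      · intro z hz
        simp only [mem_filter] at hz
        refine ⟨z 0, ?_, ?_⟩
        · simp only [hnb, mem_filter, mem_univ, true_and]
          rw [← hz.2, Fin.cons_self_tail]
          exact hz.1
        · rw [← hz.2, Fin.cons_self_tail]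
    exact_mod_cast h1
  set good : Finset (Fin r → V) := univ.filter fun y => δ / 2 * N ≤ ((nb y).card : ℝ) with hgood
  have hcardfun : ((univ : Finset (Fin r → V)).card : ℝ) = N ^ r := by
    simp [hNdef]
  have hgc : δ / 2 * N ^ r ≤ (good.card : ℝ) := by
    have h1 : (∑ y : Fin r → V, ((nb y).card : ℝ)) ≤ good.card * N + N ^ r * (δ / 2 * N) := by
      have h2 : ∀ y : Fin r → V, ((nb y).card : ℝ) ≤
          (if y ∈ good then N else 0) + δ / 2 * N := by
        intro y
        by_cases hy : y ∈ good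
        · rw [if_pos hy]
          have : ((nb y).card : ℝ) ≤ N := by
            rw [hNdef]
            exact_mod_cast Finset.card_le_univ _
          have : 0 ≤ δ / 2 * N := by positivity
          linarith
        · rw [if_neg hy]
          simp only [hgood, mem_filter, mem_univ, true_and, not_le] at hy
          linarith
      calc (∑ y : Fin r → V, ((nb y).card : ℝ))
          ≤ ∑ y : Fin r → V, ((if y ∈ good then N else 0) + δ / 2 * N) :=
            Finset.sum_le_sum fun y _ => h2 y
        _ = good.card * N + N ^ r * (δ / 2 * N) := by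
            rw [Finset.sum_add_distrib, Finset.sum_ite_mem, Finset.univ_inter, Finset.sum_const,
              Finset.sum_const, nsmul_eq_mul, nsmul_eq_mul, hcardfun]
    rw [hsum] at h1
    have h3 : δ * N ^ (r + 1) ≤ good.card * N + N ^ r * (δ / 2 * N) := hH.trans h1
    have h4 : (δ / 2 * N ^ r) * N ≤ good.card * N := by
      have : δ * N ^ (r + 1) = (δ / 2 * N ^ r) * N + N ^ r * (δ / 2 * N) := by ring
      linarith
    exact le_of_mul_le_mul_right h4 hN0
  -- pigeonhole
  by_contra hcon
  push Not at hcon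
  have hdc : (∑ y ∈ good, (((nb y).powersetCard M).card : ℝ)) ≤
      ∑ S ∈ (univ : Finset V).powersetCard M,
        ((univ.filter fun y : Fin r → V => ∀ s ∈ S, (Fin.cons s y : Fin (r + 1) → V) ∈ H).card : ℝ) := by
    have h1 : ∑ y ∈ good, ((nb y).powersetCard M).card ≤
      ∑ S ∈ (univ : Finset V).powersetCard M,
        (univ.filter fun y : Fin r → V => ∀ s ∈ S, (Fin.cons s y : Fin (r + 1) → V) ∈ H).card := by
      have e1 : ∀ y : Fin r → V, ((nb y).powersetCard M).card =
          ∑ S ∈ (univ : Finset V).powersetCard M,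
            if (∀ s ∈ S, (Fin.cons s y : Fin (r + 1) → V) ∈ H) then 1 else 0 := by
        intro y
        rw [← Finset.card_filter]
        congr 1
        ext S
        simp only [mem_powersetCard, mem_filter, subset_univ, true_and]
        constructor
        · rintro ⟨h, h'⟩
          refine ⟨h', fun s hs => ?_⟩
          have := h hs
          simpa [hnb] using this
        · rintro ⟨h', h⟩
          refine ⟨fun s hs => ?_, h'⟩
          simpa [hnb] using h s hs
      calc ∑ y ∈ good, ((nb y).powersetCard M).card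
          ≤ ∑ y : Fin r → V, ((nb y).powersetCard M).card :=
            Finset.sum_le_sum_of_subset (Finset.subset_univ _)
        _ = ∑ y : Fin r → V, ∑ S ∈ (univ : Finset V).powersetCard M,
            (if (∀ s ∈ S, (Fin.cons s y : Fin (r + 1) → V) ∈ H) then 1 else 0) :=
            Finset.sum_congr rfl fun y _ => e1 y
        _ = ∑ S ∈ (univ : Finset V).powersetCard M, ∑ y : Fin r → V,
            (if (∀ s ∈ S, (Fin.cons s y : Fin (r + 1) → V) ∈ H) then 1 else 0) :=
            Finset.sum_comm
        _ = _ := by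
            refine Finset.sum_congr rfl fun S _ => ?_
            rw [Finset.card_filter]
    exact_mod_cast h1
  -- the lower bound
  have hlow : ∀ y ∈ good, (δ / 4 * N) ^ M / (M.factorial : ℝ) ≤
      (((nb y).powersetCard M).card : ℝ) := by
    intro y hy
    simp only [hgood, mem_filter, mem_univ, true_and] at hy
    rw [Finset.card_powersetCard]
    have h1 := Nat.pow_le_choose (α := ℝ) M (nb y).card
    refine le_trans ?_ h1
    gcongr
    have h2 : (M : ℝ) + 1 ≤ δ / 4 * N := by
      have h5 := (div_le_iff₀ hδ).1 hN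
      nlinarith
    have h3 : ((nb y).card : ℝ) - M ≤ (((nb y).card + 1 - M : ℕ) : ℝ) := by
      have : (nb y).card ≤ ((nb y).card + 1 - M) + M := by omega
      have : ((nb y).card : ℝ) ≤ (((nb y).card + 1 - M : ℕ) : ℝ) + M := by exact_mod_cast this
      linarith
    have h4 : δ / 4 * N ≤ ((nb y).card : ℝ) - M := by
      have : δ / 2 * N = δ / 4 * N + δ / 4 * N := by ring
      linarith
    linarith
  have hup : ((((univ : Finset V).powersetCard M).card : ℕ) : ℝ) ≤ N ^ M / (M.factorial : ℝ) := by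
    rw [Finset.card_powersetCard, Finset.card_univ]
    exact Nat.choose_le_pow_div M (Fintype.card V)
  have hne : ((univ : Finset V).powersetCard M).Nonempty := by
    rw [Finset.powersetCard_nonempty, Finset.card_univ]
    exact hNM
  have hlt : (∑ S ∈ (univ : Finset V).powersetCard M,
        ((univ.filter fun y : Fin r → V => ∀ s ∈ S, (Fin.cons s y : Fin (r + 1) → V) ∈ H).card : ℝ)) <
      ∑ S ∈ (univ : Finset V).powersetCard M, δ / 2 * (δ / 4) ^ M * N ^ r := by
    refine Finset.sum_lt_sum_of_nonempty hne fun S hS => ?_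
    exact hcon S (mem_powersetCard.1 hS).2
  have h1 : (good.card : ℝ) * ((δ / 4 * N) ^ M / (M.factorial : ℝ)) ≤
      ∑ y ∈ good, (((nb y).powersetCard M).card : ℝ) := by
    rw [← nsmul_eq_mul]
    exact Finset.card_nsmul_le_sum _ _ _ hlow
  have h2 : (∑ _S ∈ (univ : Finset V).powersetCard M, δ / 2 * (δ / 4) ^ M * N ^ r) ≤
      N ^ M / (M.factorial : ℝ) * (δ / 2 * (δ / 4) ^ M * N ^ r) := by
    rw [Finset.sum_const, nsmul_eq_mul]
    gcongr
  have h3 : δ / 2 * N ^ r * ((δ / 4 * N) ^ M / (M.factorial : ℝ)) ≤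
      (good.card : ℝ) * ((δ / 4 * N) ^ M / (M.factorial : ℝ)) := by
    gcongr
  have h4 : δ / 2 * N ^ r * ((δ / 4 * N) ^ M / (M.factorial : ℝ)) =
      N ^ M / (M.factorial : ℝ) * (δ / 2 * (δ / 4) ^ M * N ^ r) := by
    rw [mul_pow]; ring
  linarith

/-- Erdős: dense `r`-partite `r`-uniform hypergraphs contain complete ones with large parts. -/
theorem blow (r M : ℕ) : ∀ δ : ℝ, 0 < δ →
    ∃ N₀ : ℕ, ∀ (V : Type u) [Fintype V] (H : Finset (Fin r → V)),
      N₀ ≤ Fintype.card V → δ * (Fintype.card V : ℝ) ^ r ≤ (H.card : ℝ) →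
      ∃ A : Fin r → Finset V, (∀ i, (A i).card = M) ∧
        ∀ x : Fin r → V, (∀ i, x i ∈ A i) → x ∈ H := by
  classical
  induction r with
  | zero =>
    intro δ hδ
    refine ⟨0, fun V _ H _ hH => ⟨fun i => i.elim0, fun i => i.elim0, fun x _ => ?_⟩⟩
    have h1 : (0 : ℝ) < (H.card : ℝ) := by
      refine lt_of_lt_of_le ?_ hH
      simpa using hδ
    obtain ⟨z, hz⟩ := Finset.card_pos.1 (by exact_mod_cast h1 : 0 < H.card)
    rwa [Subsingleton.elim x z]
  | succ r ih =>
    intro δ hδ
    obtain ⟨N₁, hN₁⟩ := ih (δ / 2 * (δ / 4) ^ M) (by positivity)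
    refine ⟨max N₁ (max M ⌈4 * (M + 1) / δ⌉₊), fun V _ H hN hH => ?_⟩
    obtain ⟨S, hS, hS'⟩ := step r M δ hδ V H
      ((Nat.le_ceil _).trans (by exact_mod_cast ((le_max_right _ _).trans (le_max_right _ _)).trans hN))
      (((le_max_left _ _).trans (le_max_right _ _)).trans hN) hH
    obtain ⟨A, hA, hA'⟩ := hN₁ V _ ((le_max_left _ _).trans hN) hS'
    refine ⟨Fin.cons S A, ?_, ?_⟩
    · intro i
      refine Fin.cases ?_ (fun j => ?_) i
      · simpa using hS
      · simpa using hA j
    · intro x hx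
      have h1 := hA' (Fin.tail x) (fun j => by
        have := hx j.succ
        simpa [Fin.tail] using this)
      simp only [mem_filter, mem_univ, true_and] at h1
      have h2 := h1 (x 0) (by simpa using hx 0)
      rwa [Fin.cons_self_tail] at h2

/-- Erdős, with a power saving: `|H| ≥ |V| ^ (r - ε)` suffices. -/
theorem blowPow (r M : ℕ) : ∃ ε : ℝ, 0 < ε ∧
    ∃ N₀ : ℕ, ∀ (V : Type u) [Fintype V] (H : Finset (Fin r → V)),
      N₀ ≤ Fintype.card V → (Fintype.card V : ℝ) ^ ((r : ℝ) - ε) ≤ (H.card : ℝ) →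
      ∃ A : Fin r → Finset V, (∀ i, (A i).card = M) ∧
        ∀ x : Fin r → V, (∀ i, x i ∈ A i) → x ∈ H := by
  classical
  induction r with
  | zero =>
    refine ⟨1, one_pos, 1, fun V _ H hV hH => ⟨fun i => i.elim0, fun i => i.elim0, fun x _ => ?_⟩⟩
    have h1 : (0 : ℝ) < (H.card : ℝ) := by
      refine lt_of_lt_of_le ?_ hH
      exact Real.rpow_pos_of_pos (by exact_mod_cast hV) _
    obtain ⟨z, hz⟩ := Finset.card_pos.1 (by exact_mod_cast h1 : 0 < H.card)
    rwa [Subsingleton.elim x z]
  | succ r ih =>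
    obtain ⟨ε₁, hε₁, N₁, hN₁⟩ := ih
    set ε : ℝ := min (ε₁ / (M + 2)) (1 / 2) with hε
    have hε0 : 0 < ε := lt_min (by positivity) (by norm_num)
    have hε2 : ε ≤ 1 / 2 := min_le_right _ _
    have hεM : ε * (M + 2) ≤ ε₁ := by
      have := min_le_left (ε₁ / (M + 2)) (1 / 2 : ℝ)
      rw [← hε] at this
      exact (le_div_iff₀ (by positivity)).1 this
    obtain ⟨N₂, hN₂⟩ := Filter.eventually_atTop.1
      (((tendsto_rpow_atTop hε0).comp tendsto_natCast_atTop_atTop).eventually_ge_atTop
        (2 * 4 ^ M : ℝ))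
    obtain ⟨N₃, hN₃⟩ := Filter.eventually_atTop.1
      (((tendsto_rpow_atTop (show (0 : ℝ) < 1 / 2 by norm_num)).comp
        tendsto_natCast_atTop_atTop).eventually_ge_atTop (4 * (M + 1) : ℝ))
    refine ⟨ε, hε0, max (max N₁ N₂) (max (max N₃ M) 1), fun V _ H hN hH => ?_⟩
    have hN1 : 1 ≤ Fintype.card V := ((le_max_right _ _).trans (le_max_right _ _)).trans hN
    have hNM : M ≤ Fintype.card V :=
      (((le_max_right _ _).trans (le_max_left _ _)).trans (le_max_right _ _)).trans hN
    have h2 := hN₂ _ (((le_max_right N₁ N₂).trans (le_max_left _ _)).trans hN)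
    have h3 := hN₃ _ ((((le_max_left N₃ M).trans (le_max_left _ _)).trans
      (le_max_right _ _)).trans hN)
    simp only [Function.comp_apply] at h2 h3
    set N : ℝ := (Fintype.card V : ℝ) with hNdef
    have hN1' : (1 : ℝ) ≤ N := by rw [hNdef]; exact_mod_cast hN1
    have hN0 : 0 < N := by linarith
    have hδ : (0 : ℝ) < N ^ (-ε) := Real.rpow_pos_of_pos hN0 _
    have hcond : 4 * ((M : ℝ) + 1) / N ^ (-ε) ≤ N := by
      rw [div_le_iff₀ hδ, ← Real.rpow_one_add' hN0.le (by linarith)]
      exact h3.trans (Real.rpow_le_rpow_of_exponent_le hN1' (by linarith))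
    have hH' : N ^ (-ε) * N ^ (r + 1) ≤ (H.card : ℝ) := by
      refine le_trans (le_of_eq ?_) hH
      rw [← Real.rpow_natCast, ← Real.rpow_add hN0]
      congr 1
      push_cast
      ring
    obtain ⟨S, hS, hS'⟩ := step r M (N ^ (-ε)) hδ V H hcond hNM hH'
    obtain ⟨A, hA, hA'⟩ := hN₁ V _ (((le_max_left N₁ N₂).trans (le_max_left _ _)).trans hN)
      (le_trans (by
        have e1 : N ^ (-ε) / 2 * (N ^ (-ε) / 4) ^ M * N ^ r =
            (N ^ (-ε)) ^ (M + 1) * N ^ r / (2 * 4 ^ M) := by
          rw [div_pow, pow_succ]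
          field_simp
        rw [← hNdef, e1, le_div_iff₀ (by positivity)]
        have e2 : (N ^ (-ε)) ^ (M + 1) * N ^ r = N ^ ((r : ℝ) - ε * (M + 1)) := by
          rw [← Real.rpow_natCast, ← Real.rpow_natCast, ← Real.rpow_mul hN0.le,
            ← Real.rpow_add hN0]
          congr 1
          push_cast
          ring
        rw [e2]
        calc N ^ ((r : ℝ) - ε₁) * (2 * 4 ^ M) ≤ N ^ ((r : ℝ) - ε₁) * N ^ ε := by
              gcongr
          _ = N ^ ((r : ℝ) - ε₁ + ε) := by rw [← Real.rpow_add hN0]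
          _ ≤ N ^ ((r : ℝ) - ε * (M + 1)) := by
              refine Real.rpow_le_rpow_of_exponent_le hN1' ?_
              linarith) hS')
    refine ⟨Fin.cons S A, ?_, ?_⟩
    · intro i
      refine Fin.cases ?_ (fun j => ?_) i
      · simpa using hS
      · simpa using hA j
    · intro x hx
      have h1 := hA' (Fin.tail x) (fun j => by
        have := hx j.succ
        simpa [Fin.tail] using this)
      simp only [mem_filter, mem_univ, true_and] at h1
      have h2 := h1 (x 0) (by simpa using hx 0)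
      rwa [Fin.cons_self_tail] at h2

/-- The same with injective functions `A i : Fin M → V`. -/
theorem blowFun (r M : ℕ) : ∃ ε : ℝ, 0 < ε ∧
    ∃ N₀ : ℕ, ∀ (V : Type u) [Fintype V] (H : Finset (Fin r → V)),
      N₀ ≤ Fintype.card V → (Fintype.card V : ℝ) ^ ((r : ℝ) - ε) ≤ (H.card : ℝ) →
      ∃ A : Fin r → Fin M → V, (∀ i, Function.Injective (A i)) ∧
        ∀ t : Fin r → Fin M, (fun i => A i (t i)) ∈ H := by
  obtain ⟨ε, hε, N₀, h⟩ := blowPow r M
  refine ⟨ε, hε, N₀, fun V _ H hN hH => ?_⟩
  obtain ⟨A, hA, hA'⟩ := h V H hN hH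
  refine ⟨fun i j => ((A i).equivFinOfCardEq (hA i)).symm j, fun i => ?_, fun t => ?_⟩
  · exact Subtype.val_injective.comp (Equiv.injective _)
  · exact hA' _ fun i => Subtype.coe_prop _

end Pool.Agent.Work.MP_70e905_nt.PK
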