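import Pool.Agent.Work.MP_70e905_nt.PK.Defs

/-!
# PK/Bohr (size M): the size of Bohr sets

PROOF. `bohr_card`: let `M = ⌈2 / ρ⌉₊ ≥ 1`. Map `x` to the function `ξ ∈ Λ ↦ (⌊M * re (e (x ξ))⌋, ⌊M * im (e (x ξ))⌋)` (`e = stdAddChar`), both integers are in `[-M, M]` (`‖e‖ = 1`), so there are at most `((2 M + 1)^2)^|Λ|` values; some fibre `F` has at least `N / ((2M+1)^2)^|Λ|` elements (pigeonhole:
`Finset.exists_le_card_fiber_of_mul_le_card_of_maps_to` or a sum over fibres). Fix `x₀ ∈ F`; for `x ∈ F` and `ξ ∈ Λ`: `|re|, |im|` of `e (x ξ) - e (x₀ ξ)` are `≤ 1 / M`, so `‖e ((x - x₀) ξ) - 1‖ = ‖e (x ξ) - e (x₀ ξ)‖ ≤ 2 / M ≤ ρ`; the map `x ↦ x - x₀` is an injection of `F` into `bohr Λ ρ`.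
`bl r ρ = (1 / (2 M + 1)^2)^r`, so `bl |Λ| ρ * N ≤ |F|`. `bl_pos`: positivity. `bl_anti`: `0 < 1 / (..)² ≤ 1` (`pow_le_pow_of_le_one`).
-/

set_option autoImplicit false

namespace Pool.Agent.Work.MP_70e905_nt.PK

open Finset

theorem bl_pos (r : ℕ) (ρ : ℝ) : 0 < bl r ρ := by
  unfold bl
  positivity

private theorem base_le (ρ : ℝ) : 1 / (2 * (⌈2 / ρ⌉₊ : ℝ) + 1) ^ 2 ≤ 1 := by
  rw [div_le_one (by positivity)]
  have h : (0 : ℝ) ≤ (⌈2 / ρ⌉₊ : ℝ) := Nat.cast_nonneg _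
  nlinarith

theorem bl_le_one (r : ℕ) (ρ : ℝ) : bl r ρ ≤ 1 := by
  unfold bl
  exact pow_le_one₀ (by positivity) (base_le ρ)

theorem bl_anti {r r' : ℕ} (h : r ≤ r') (ρ : ℝ) : bl r' ρ ≤ bl r ρ := by
  unfold bl
  exact pow_le_pow_of_le_one (by positivity) (base_le ρ) h

private theorem char_diff {N : ℕ} [NeZero N] (x y ξ : ZMod N) :
    ‖(ZMod.stdAddChar ((x - y) * ξ) : ℂ) - 1‖ =
      ‖(ZMod.stdAddChar (x * ξ) : ℂ) - ZMod.stdAddChar (y * ξ)‖ := by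
  have h1 : (ZMod.stdAddChar (x * ξ) : ℂ) =
      ZMod.stdAddChar ((x - y) * ξ) * ZMod.stdAddChar (y * ξ) := by
    rw [← AddChar.map_add_eq_mul]
    congr 1
    ring
  have h2 : (ZMod.stdAddChar (x * ξ) : ℂ) - ZMod.stdAddChar (y * ξ) =
      ((ZMod.stdAddChar ((x - y) * ξ) : ℂ) - 1) * ZMod.stdAddChar (y * ξ) := by
    rw [h1]
    ring
  rw [h2, norm_mul, AddChar.norm_apply, mul_one]

theorem bohr_card {N : ℕ} [NeZero N] (Λ : Finset (ZMod N)) {ρ : ℝ} (hρ : 0 < ρ) :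
    bl Λ.card ρ * N ≤ ((bohr Λ ρ).card : ℝ) := by
  classical
  set M : ℕ := ⌈2 / ρ⌉₊ with hM
  have hM1 : (2 : ℝ) / ρ ≤ M := Nat.le_ceil _
  have hM0 : (0 : ℝ) < M := lt_of_lt_of_le (by positivity) hM1
  have hMρ : 2 / (M : ℝ) ≤ ρ := by
    rw [div_le_iff₀ hM0]
    rw [div_le_iff₀ hρ] at hM1
    linarith
  let t : Finset (Λ → ℤ × ℤ) :=
    Fintype.piFinset (fun _ : Λ => Icc (-(M : ℤ)) M ×ˢ Icc (-(M : ℤ)) M)
  let φ : ZMod N → (Λ → ℤ × ℤ) := fun x ξ =>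
    (⌊(M : ℝ) * (ZMod.stdAddChar (x * (ξ : ZMod N)) : ℂ).re⌋,
      ⌊(M : ℝ) * (ZMod.stdAddChar (x * (ξ : ZMod N)) : ℂ).im⌋)
  have hfl : ∀ r : ℝ, |r| ≤ 1 → ⌊(M : ℝ) * r⌋ ∈ Icc (-(M : ℤ)) M := by
    intro r hr
    rw [abs_le] at hr
    rw [mem_Icc]
    constructor
    · rw [Int.le_floor]
      push_cast
      nlinarith [hr.1]
    · have h1 : ⌊(M : ℝ) * r⌋ ≤ ⌊(M : ℝ)⌋ := Int.floor_le_floor (by nlinarith [hr.2])
      rwa [Int.floor_natCast] at h1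
  have hmaps : ∀ x ∈ (univ : Finset (ZMod N)), φ x ∈ t := by
    intro x _
    rw [Fintype.mem_piFinset]
    intro ξ
    rw [mem_product]
    have hn : ‖(ZMod.stdAddChar (x * (ξ : ZMod N)) : ℂ)‖ = 1 := AddChar.norm_apply _ _
    exact ⟨hfl _ ((Complex.abs_re_le_norm _).trans hn.le),
      hfl _ ((Complex.abs_im_le_norm _).trans hn.le)⟩
  have ht : (t.card : ℝ) = ((2 * (M : ℝ) + 1) ^ 2) ^ Λ.card := by
    have h1 : t.card = ((2 * M + 1) ^ 2) ^ Λ.card := by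
      rw [Fintype.card_piFinset, prod_const, card_product, Int.card_Icc, card_univ,
        Fintype.card_coe]
      congr 1
      have : (((M : ℤ) + 1 - -(M : ℤ)).toNat) = 2 * M + 1 := by omega
      rw [this, sq]
    rw [h1]
    push_cast
    ring
  have htpos : (0 : ℝ) < t.card := by rw [ht]; positivity
  have htne : t.Nonempty := card_pos.1 (by exact_mod_cast htpos)
  have hN : (0 : ℝ) < N := by exact_mod_cast Nat.pos_of_ne_zero (NeZero.ne N)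
  obtain ⟨y, _, hy⟩ := exists_le_card_fiber_of_nsmul_le_card_of_maps_to (M := ℝ)
    (b := (N : ℝ) / t.card) hmaps htne (by
      rw [nsmul_eq_mul, mul_div_cancel₀ _ htpos.ne', card_univ, ZMod.card])
  have hbl : bl Λ.card ρ * N = (N : ℝ) / t.card := by
    unfold bl
    rw [ht, ← hM, one_div, inv_pow, mul_comm, ← div_eq_mul_inv]
  rw [hbl]
  refine hy.trans ?_
  have hFpos : (0 : ℝ) < ((univ.filter (fun x => φ x = y)).card : ℝ) :=
    lt_of_lt_of_le (by positivity) hy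
  obtain ⟨x0, hx0⟩ := card_pos.1 (by exact_mod_cast hFpos : 0 < (univ.filter (fun x => φ x = y)).card)
  have hx0' : φ x0 = y := (mem_filter.1 hx0).2
  have hle : (univ.filter (fun x => φ x = y)).card ≤ (bohr Λ ρ).card := by
    refine card_le_card_of_injOn (fun x => x - x0) ?_ ?_
    · intro x hx
      have hx' : φ x = y := (mem_filter.1 (mem_coe.1 hx)).2
      have hxx : φ x = φ x0 := hx'.trans hx0'.symm
      rw [mem_coe]
      unfold bohr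
      rw [mem_filter]
      refine ⟨mem_univ _, fun ξ hξ => ?_⟩
      rw [char_diff]
      have h1 := congrFun hxx ⟨ξ, hξ⟩
      simp only [φ, Prod.mk.injEq] at h1
      have h2 := Int.abs_sub_lt_one_of_floor_eq_floor h1.1
      have h3 := Int.abs_sub_lt_one_of_floor_eq_floor h1.2
      rw [← mul_sub, abs_mul, abs_of_pos hM0] at h2 h3
      have h4 := Complex.norm_le_abs_re_add_abs_im
        ((ZMod.stdAddChar (x * ξ) : ℂ) - ZMod.stdAddChar (x0 * ξ))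
      rw [Complex.sub_re, Complex.sub_im] at h4
      refine h4.trans (le_trans ?_ hMρ)
      rw [le_div_iff₀ hM0]
      nlinarith
    · intro a _ b _ hab
      simpa using hab
  exact_mod_cast hle

theorem zero_mem_bohr {N : ℕ} [NeZero N] (Λ : Finset (ZMod N)) {ρ : ℝ} (hρ : 0 ≤ ρ) :
    (0 : ZMod N) ∈ bohr Λ ρ := by
  unfold bohr
  rw [mem_filter]
  refine ⟨mem_univ _, fun ξ _ => ?_⟩
  rw [zero_mul, AddChar.map_zero_eq_one, sub_self, norm_zero]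
  exact hρ

theorem neg_mem_bohr {N : ℕ} [NeZero N] {Λ : Finset (ZMod N)} {ρ : ℝ} {x : ZMod N}
    (hx : x ∈ bohr Λ ρ) : -x ∈ bohr Λ ρ := by
  unfold bohr at hx ⊢
  rw [mem_filter] at hx ⊢
  refine ⟨mem_univ _, fun ξ hξ => ?_⟩
  have h := hx.2 ξ hξ
  have h1 : (ZMod.stdAddChar (-x * ξ) : ℂ) - 1 =
      (starRingEnd ℂ) ((ZMod.stdAddChar (x * ξ) : ℂ) - 1) := by
    rw [neg_mul, AddChar.map_neg_eq_conj, map_sub, map_one]
  rw [h1, RCLike.norm_conj]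
  exact h

end Pool.Agent.Work.MP_70e905_nt.PK
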