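import Pool.Agent.Work.MP_70e905_nt.PK.Bas

/-!
# PK/Box (size S-M): the box norm of `ν e - 1` with weights

PROOF. Expand `∏ c, (A c - 1)` with `A c x = ν e (x (e.1, c.1)) (x (e.2, c.2))` over the subsets `t` of `univ : Finset (Bool × Bool)`
(`Finset.prod_add` for `A c + (-1)`): the product is `∑ t ∈ univ.powerset, (∏ c ∈ t, A c) * ∏ c ∈ univ \ t, (-1)`. Multiplied by the product over
`T` the term of `t` is `±` the product over the set `T ∪ t.image (fun c => (e, c)) ⊆ PD` (disjoint because of `hTe`; `e ∈ P` gives `⊆ PD`),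
whose mean is within `η` of `1` by `LF`. The signs have sum `∏ c, (1 + (-1)) = 0` (the same expansion with `A c = 1`). There are 16 terms.
-/

set_option autoImplicit false

namespace Pool.Agent.Work.MP_70e905_nt.PK

open Finset

theorem box {G : Type} [Fintype G] [Nonempty G] {η : ℝ} {ν : Fin 4 × Fin 4 → G → G → ℝ}
    (hLF : LF η ν) {e : Fin 4 × Fin 4} (he : e ∈ P) (T : Finset DE) (hT : T ⊆ PD)
    (hTe : ∀ s ∈ T, s.1 ≠ e) :
    |av (fun x : V → G => (∏ c : Bool × Bool, (ν e (x (e.1, c.1)) (x (e.2, c.2)) - 1)) *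
      ∏ s ∈ T, ν s.1 (x (src s)) (x (tgt s)))| ≤ 16 * η := by
  classical
  obtain ⟨σ, hσ⟩ : ∃ σ : Finset (Bool × Bool) → ℝ, ∀ t, σ t = ∏ _c ∈ univ \ t, (-1 : ℝ) :=
    ⟨_, fun _ => rfl⟩
  have hσ1 : ∀ t, |σ t| = 1 := by
    intro t
    rw [hσ, prod_const, abs_pow, abs_neg, abs_one, one_pow]
  have hσ0 : ∑ t ∈ (univ : Finset (Bool × Bool)).powerset, σ t = 0 := by
    have h := prod_add (fun _ : Bool × Bool => (1 : ℝ)) (fun _ => (-1 : ℝ)) univ
    have h0 : ∏ _i : Bool × Bool, ((1 : ℝ) + -1) = 0 := by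
      rw [prod_const, card_univ]
      norm_num
    rw [h0] at h
    rw [h]
    refine sum_congr rfl fun t _ => ?_
    rw [hσ, prod_const_one, one_mul]
  obtain ⟨F, hF⟩ : ∃ F : Finset (Bool × Bool) → (V → G) → ℝ, ∀ t x, F t x =
      ∏ s ∈ T ∪ t.image (fun c => (e, c)), ν s.1 (x (src s)) (x (tgt s)) := ⟨_, fun _ _ => rfl⟩
  have hinj : ∀ t : Finset (Bool × Bool), Set.InjOn (fun c : Bool × Bool => ((e, c) : DE)) t :=
    fun t a _ b _ h => congrArg Prod.snd h
  have hdis : ∀ t : Finset (Bool × Bool), Disjoint T (t.image (fun c => (e, c))) := by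
    intro t
    rw [disjoint_left]
    intro s hs hs'
    obtain ⟨c, -, rfl⟩ := mem_image.1 hs'
    exact hTe _ hs rfl
  have hexp : ∀ x : V → G, (∏ c : Bool × Bool, (ν e (x (e.1, c.1)) (x (e.2, c.2)) - 1)) *
      ∏ s ∈ T, ν s.1 (x (src s)) (x (tgt s)) =
      ∑ t ∈ (univ : Finset (Bool × Bool)).powerset, σ t * F t x := by
    intro x
    have h1 : ∏ c : Bool × Bool, (ν e (x (e.1, c.1)) (x (e.2, c.2)) - 1) =
        ∏ c : Bool × Bool, (ν e (x (e.1, c.1)) (x (e.2, c.2)) + -1) :=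
      prod_congr rfl fun c _ => sub_eq_add_neg _ _
    rw [h1, prod_add, sum_mul]
    refine sum_congr rfl fun t _ => ?_
    rw [hF, hσ, prod_union (hdis t), prod_image (hinj t)]
    have h2 : ∏ c ∈ t, ν ((e, c) : DE).1 (x (src (e, c))) (x (tgt (e, c))) =
        ∏ c ∈ t, ν e (x (e.1, c.1)) (x (e.2, c.2)) := rfl
    rw [h2]
    ring
  have havF : ∀ t, |av (F t) - 1| ≤ η := by
    intro t
    have h1 : T ∪ t.image (fun c => (e, c)) ⊆ PD := by
      refine union_subset hT fun s hs => ?_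
      obtain ⟨c, -, rfl⟩ := mem_image.1 hs
      have he' : e.1 < e.2 := by
        have := he
        rw [P, mem_filter] at this
        exact this.2
      rw [PD, mem_filter]
      exact ⟨mem_univ _, he'⟩
    have h2 := hLF _ h1
    have h3 : F t = fun x : V → G => ∏ s ∈ T ∪ t.image (fun c => (e, c)),
        ν s.1 (x (src s)) (x (tgt s)) := funext fun x => hF t x
    rw [h3]
    exact h2
  have hfin : av (fun x : V → G => (∏ c : Bool × Bool, (ν e (x (e.1, c.1)) (x (e.2, c.2)) - 1)) *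
      ∏ s ∈ T, ν s.1 (x (src s)) (x (tgt s))) =
      ∑ t ∈ (univ : Finset (Bool × Bool)).powerset, σ t * (av (F t) - 1) := by
    simp only [hexp]
    rw [av_sum (univ : Finset (Bool × Bool)).powerset (fun t x => σ t * F t x)]
    have h4 : ∀ t, σ t * (av (F t) - 1) = av (fun x => σ t * F t x) - σ t := by
      intro t
      rw [av_mul_left]
      ring
    rw [sum_congr rfl fun t _ => h4 t, sum_sub_distrib, hσ0, sub_zero]
  rw [hfin]
  refine (abs_sum_le_sum_abs _ _).trans ?_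
  have h5 : ∀ t ∈ (univ : Finset (Bool × Bool)).powerset, |σ t * (av (F t) - 1)| ≤ η := by
    intro t _
    rw [abs_mul, hσ1, one_mul]
    exact havF t
  refine (sum_le_card_nsmul _ _ _ h5).trans ?_
  rw [card_powerset, card_univ]
  norm_num

end Pool.Agent.Work.MP_70e905_nt.PK
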