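import Pool.Agent.Work.MP_70e905_nt.PK.CodT

/-!
# PK/CodD (size M): products of two codegrees on the half doubled `K₄`

PROOF. Let `F₁ z x`, `F₂ z x` be the products in `cod e w₁ z`, `cod e w₂ z`. Write `x : V → G` as the pair `x₀ k = x (k,false)`, `x₁ k = x (k,true)`
(the equivalence `(V → G) ≃ (Fin 4 → G) × (Fin 4 → G)`, for example from `Equiv.curry` / `Equiv.boolArrowEquivProd` or built by hand; `av_comp`, `av_prod`).
With `z = (x₀ e.1, x₀ e.2)`: `put_self` gives `∏ p ∈ P.erase e, w₁ p (x₀ p.1) (x₀ p.2) = F₁ z x₀`, and `x (hiV e k) = put e z x₁ k` for all `k` (`hiV e k = (k,true)` if `k ≠ e.1, e.2`,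
otherwise `(k,false)`), so the second product is `F₂ z x₁`. The right side is therefore `av (fun x₀ => A z * (F₁ z x₀ * cod e w₂ z))`; by `av_put` (with `put e z' x₀` in place of `x₀` the pair `z` becomes `z'`, and
`F₁ z' (put e z' x) = F₁ z' x` because `put e z' (put e z' x) = put e z' x`) it is `av (fun z' => A z' * (cod e w₁ z' * cod e w₂ z'))`.
-/

set_option autoImplicit false

namespace Pool.Agent.Work.MP_70e905_nt.PK

open Finset

/-- pairs of labellings -/
private def eqv {G : Type} : (Fin 4 → G) × (Fin 4 → G) ≃ (V → G) where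
  toFun := fun q v => bif v.2 then q.2 v.1 else q.1 v.1
  invFun := fun x => (fun k => x (k, false), fun k => x (k, true))
  left_inv := fun q => rfl
  right_inv := fun x => by
    funext v
    obtain ⟨k, b⟩ := v
    cases b <;> rfl

private theorem eqv_hiV {G : Type} [Fintype G] {e : Fin 4 × Fin 4} (he : e ∈ P)
    (x₀ x₁ : Fin 4 → G) (k : Fin 4) :
    eqv (x₀, x₁) (hiV e k) = put e (x₀ e.1, x₀ e.2) x₁ k := by
  by_cases h1 : k = e.1
  · subst h1
    rw [put_fst he]
    simp [hiV, eqv]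
  · by_cases h2 : k = e.2
    · subst h2
      rw [put_snd]
      simp [hiV, eqv]
    · rw [put_of_ne h1 h2]
      simp [hiV, eqv, h1, h2]

theorem cod_double {G : Type} [Fintype G] {e : Fin 4 × Fin 4} (he : e ∈ P) (A : G × G → ℝ)
    (w₁ w₂ : Fin 4 × Fin 4 → G → G → ℝ) :
    av (fun z : G × G => A z * (cod e w₁ z * cod e w₂ z)) =
      av (fun x : V → G => A (x (e.1, false), x (e.2, false)) *
        ((∏ p ∈ P.erase e, w₁ p (x (p.1, false)) (x (p.2, false))) *
          ∏ p ∈ P.erase e, w₂ p (x (hiV e p.1)) (x (hiV e p.2)))) := by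
  conv_rhs => rw [← av_comp (eqv (G := G)), av_prod]
  have h1 : ∀ x₀ : Fin 4 → G,
      av (fun x₁ : Fin 4 → G => A (eqv (x₀, x₁) (e.1, false), eqv (x₀, x₁) (e.2, false)) *
        ((∏ p ∈ P.erase e, w₁ p (eqv (x₀, x₁) (p.1, false)) (eqv (x₀, x₁) (p.2, false))) *
          ∏ p ∈ P.erase e, w₂ p (eqv (x₀, x₁) (hiV e p.1)) (eqv (x₀, x₁) (hiV e p.2)))) =
      A (x₀ e.1, x₀ e.2) * ((∏ p ∈ P.erase e, w₁ p (x₀ p.1) (x₀ p.2)) *
        cod e w₂ (x₀ e.1, x₀ e.2)) := by
    intro x₀
    unfold cod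
    rw [← av_mul_left, ← av_mul_left]
    refine congrArg av (funext fun x₁ => ?_)
    simp only [eqv_hiV he]
    rfl
  simp only [h1]
  rw [← av_put e]
  refine congrArg av (funext fun z => ?_)
  simp only [put_fst he, put_snd]
  rw [av_mul_left, av_mul_right]
  rfl

end Pool.Agent.Work.MP_70e905_nt.PK
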