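import Pool.Agent.Work.MP_70e905_nt.PK.CodD

/-!
# PK/CodLF (size S-M): the codegree of the majorant is near 1 in L2

PROOF. `cod_double` with `A = 1`, `w₁ = w₂ = ν`: `av (cod²)` is the mean of the product over the subset `S₀ ∪ S₁` of `PD` (see the header of Strong2: `S₀ = {(p, (false, false))}`,
`S₁ = {(p, ((hiV e p.1).2, (hiV e p.2).2))}`, `p ∈ P.erase e`, disjoint), so it is within `η` of `1`. `cod_double` with `A = 1`, `w₁ = ν`, `w₂ = 1` (`cod e 1 z = 1`): `av cod` is the mean of
the product over `S₀`, within `η` of `1`. `av ((cod - 1)²) = av (cod²) - 2 av cod + 1 ≤ (1 + η) - 2 (1 - η) + 1 = 3 η`.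
-/

set_option autoImplicit false

namespace Pool.Agent.Work.MP_70e905_nt.PK

open Finset

private def g0 (p : Fin 4 × Fin 4) : DE := (p, (false, false))

private def g1 (e p : Fin 4 × Fin 4) : DE := (p, ((hiV e p.1).2, (hiV e p.2).2))

private theorem g1_ne (e : Fin 4 × Fin 4) (he : e ∈ P) (p : Fin 4 × Fin 4) (hp : p ∈ P.erase e) :
    (g1 e p).2 ≠ (false, false) := by
  revert p
  revert e
  decide

theorem cod_lf {G : Type} [Fintype G] [Nonempty G] {η : ℝ} (hη0 : 0 ≤ η)
    {ν : Fin 4 × Fin 4 → G → G → ℝ} (hLF : LF η ν) {e : Fin 4 × Fin 4} (he : e ∈ P) :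
    av (fun z : G × G => (cod e ν z - 1) ^ 2) ≤ 4 * η ∧
      av (fun z : G × G => cod e ν z ^ 2) ≤ 1 + η := by
  have hP : ∀ p ∈ P.erase e, p.1 < p.2 := fun p hp => (mem_filter.1 (mem_of_mem_erase hp)).2
  have hinj0 : Function.Injective g0 := fun p q h => congrArg Prod.fst h
  have hinj1 : Function.Injective (g1 e) := fun p q h => congrArg Prod.fst h
  have hdisj : Disjoint ((P.erase e).image g0) ((P.erase e).image (g1 e)) := by
    rw [disjoint_left]
    intro s h h'
    obtain ⟨p, -, rfl⟩ := mem_image.1 h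
    obtain ⟨p', hp', h2⟩ := mem_image.1 h'
    exact g1_ne e he p' hp' (by rw [h2]; rfl)
  have hsub0 : (P.erase e).image g0 ⊆ PD := by
    intro s hs
    obtain ⟨p, hp, rfl⟩ := mem_image.1 hs
    exact mem_filter.2 ⟨mem_univ _, hP p hp⟩
  have hsub1 : (P.erase e).image (g1 e) ⊆ PD := by
    intro s hs
    obtain ⟨p, hp, rfl⟩ := mem_image.1 hs
    exact mem_filter.2 ⟨mem_univ _, hP p hp⟩
  -- the square
  have hsq : av (fun z : G × G => cod e ν z ^ 2) =
      av (fun x : V → G => ∏ s ∈ (P.erase e).image g0 ∪ (P.erase e).image (g1 e),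
        ν s.1 (x (src s)) (x (tgt s))) := by
    have h1 := cod_double he (fun _ : G × G => (1 : ℝ)) ν ν
    simp only [one_mul] at h1
    have h2 : (fun z : G × G => cod e ν z ^ 2) = fun z => cod e ν z * cod e ν z :=
      funext fun z => sq _
    rw [h2, h1]
    refine congrArg av (funext fun x => ?_)
    rw [prod_union hdisj, prod_image fun p _ q _ h => hinj0 h, prod_image fun p _ q _ h => hinj1 h]
    rfl
  have hone : av (fun z : G × G => cod e ν z) =
      av (fun x : V → G => ∏ s ∈ (P.erase e).image g0, ν s.1 (x (src s)) (x (tgt s))) := by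
    have h1 := cod_double he (fun _ : G × G => (1 : ℝ)) ν (fun _ _ _ => 1)
    have h2 : ∀ z : G × G, cod e (fun _ _ _ => (1 : ℝ)) z = 1 := by
      intro z
      unfold cod
      simp only [prod_const_one]
      exact av_const 1
    simp only [one_mul, h2, mul_one, prod_const_one] at h1
    rw [h1]
    refine congrArg av (funext fun x => ?_)
    rw [prod_image fun p _ q _ h => hinj0 h]
    rfl
  have h3 := abs_le.1 (hLF _ (union_subset hsub0 hsub1))
  have h4 := abs_le.1 (hLF _ hsub0)
  rw [← hsq] at h3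
  rw [← hone] at h4
  refine ⟨?_, by linarith [h3.2]⟩
  have h5 : av (fun z : G × G => (cod e ν z - 1) ^ 2) =
      av (fun z : G × G => cod e ν z ^ 2) - 2 * av (fun z : G × G => cod e ν z) + 1 := by
    have h6 : (fun z : G × G => (cod e ν z - 1) ^ 2) =
        fun z => (cod e ν z ^ 2 - 2 * cod e ν z) + 1 := funext fun z => by ring
    rw [h6, av_add, av_sub, av_mul_left, av_const]
  rw [h5]
  linarith [h3.2, h4.1]

end Pool.Agent.Work.MP_70e905_nt.PK
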