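import Pool.Agent.Work.MP_70e905_nt.PK.Bas

/-!
# PK/CodT (size S): codegrees and the density of `K₄`

PROOF. `av_put`: `av_prod` and `av_update` twice (`put e z x = update (update x e.1 z.1) e.2 z.2`). `put_self`: `Function.update_eq_self`.
`tK_update`: `av_put` for `F x = ∏ p ∈ P, (update w e q) p (x p.1) (x p.2)`, `Finset.mul_prod_erase` (the factor of `e` is `q z.1 z.2`, since
`put e z x e.1 = z.1` (`e.1 ≠ e.2`) and `put e z x e.2 = z.2`; for `p ≠ e` the weight is `w p`), `av_mul_left`.
`tK_eq` is `tK_update` with `q = w e`.
-/

set_option autoImplicit false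

namespace Pool.Agent.Work.MP_70e905_nt.PK

open Finset

variable {G : Type} [Fintype G]

theorem av_put (e : Fin 4 × Fin 4) (F : (Fin 4 → G) → ℝ) :
    av (fun z : G × G => av (fun x => F (put e z x))) = av F := by
  calc av (fun z : G × G => av (fun x => F (put e z x)))
      = av (fun a : G => av (fun b : G => av (fun x : Fin 4 → G =>
          F (Function.update (Function.update x e.1 a) e.2 b)))) := av_prod _
    _ = av (fun a : G => av (fun x : Fin 4 → G => av (fun b : G =>
          F (Function.update (Function.update x e.1 a) e.2 b)))) :=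
        congrArg av (funext fun a => av_comm _)
    _ = av (fun x : Fin 4 → G => av (fun a : G => av (fun b : G =>
          F (Function.update (Function.update x e.1 a) e.2 b)))) := av_comm _
    _ = av (fun x : Fin 4 → G => av (fun b : G => F (Function.update x e.2 b))) :=
        av_update e.1 (fun x => av (fun b => F (Function.update x e.2 b)))
    _ = av F := av_update e.2 F

theorem put_fst {e : Fin 4 × Fin 4} (he : e ∈ P) (z : G × G) (x : Fin 4 → G) :
    put e z x e.1 = z.1 := by
  have h : e.1 < e.2 := (mem_filter.1 he).2
  unfold put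
  rw [Function.update_of_ne h.ne, Function.update_self]

theorem put_snd (e : Fin 4 × Fin 4) (z : G × G) (x : Fin 4 → G) : put e z x e.2 = z.2 := by
  unfold put
  rw [Function.update_self]

theorem put_of_ne {e : Fin 4 × Fin 4} {k : Fin 4} (h1 : k ≠ e.1) (h2 : k ≠ e.2) (z : G × G)
    (x : Fin 4 → G) : put e z x k = x k := by
  unfold put
  rw [Function.update_of_ne h2, Function.update_of_ne h1]

theorem put_self (e : Fin 4 × Fin 4) (x : Fin 4 → G) : put e (x e.1, x e.2) x = x := by
  unfold put
  rw [Function.update_eq_self, Function.update_eq_self]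

theorem tK_update {e : Fin 4 × Fin 4} (he : e ∈ P) (w : Fin 4 × Fin 4 → G → G → ℝ)
    (q : G → G → ℝ) :
    tK (Function.update w e q) = av (fun z : G × G => q z.1 z.2 * cod e w z) := by
  unfold tK
  rw [← av_put e]
  refine congrArg av (funext fun z => ?_)
  unfold cod
  rw [← av_mul_left]
  refine congrArg av (funext fun x => ?_)
  rw [← mul_prod_erase P _ he, Function.update_self, put_fst he, put_snd]
  congr 1
  refine prod_congr rfl fun p hp => ?_
  rw [Function.update_of_ne (ne_of_mem_erase hp)]

theorem tK_eq {e : Fin 4 × Fin 4} (he : e ∈ P) (w : Fin 4 × Fin 4 → G → G → ℝ) :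
    tK w = av (fun z : G × G => w e z.1 z.2 * cod e w z) := by
  rw [← tK_update he, Function.update_eq_self]

end Pool.Agent.Work.MP_70e905_nt.PK
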