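import Pool.Agent.Work.MP_70e905_nt.PK.Step
import Pool.Agent.Work.MP_70e905_nt.PK.Base

/-!
# PK/Count (size M): the relative counting lemma for `K₄`

PROOF. By induction on `k` prove: for every `ε > 0` there is `η ∈ (0, 1]` such that the conclusion holds if in addition there is a set `U ⊆ P` with at most `k` elements and `ν p u v = 1` for all `p ∈ P \ U`, `u`, `v`.
`k = 0`: `g p ≤ ν p = 1` on `P`, `base` with `η = min 1 (ε / 6)`. Step `k → k + 1`: given `ε`, choose `a = min 1 (ε^2 / 80)`, `ε₁ = ε^2 / 32`, `η₁` from the induction hypothesis for `ε₁`, `η = min (min 1 (ε / 2)) (min (a^4 / 128) η₁)`.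
If `U` is empty use the case `k` (make `η ≤` that one for `ε` too: take the minimum with the `η` of the induction hypothesis for `ε`). Otherwise take `e ∈ U` and apply `step`: for `q` with values in `[0,1]` the hypothesis for `k` applies
to `update g e q`, `update h e q`, `update ν e (fun _ _ => 1)`, `U.erase e`. `LF` for `update ν e 1`: the product over `S` is the product of `ν` over `S.filter (fun s => s.1 ≠ e)`. `Cut` for `e`: `q - q = 0`.
Then `|tK g - tK h| ≤ ε / 2 + sqrt (2 * (5 a + 2 ε₁)) ≤ ε / 2 + sqrt (ε^2 / 4) = ε`. At the end `k = 6`, `U = P` (`P.card = 6`). (`Cut` and `LF` are monotone in the parameter.)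
-/

set_option autoImplicit false

namespace Pool.Agent.Work.MP_70e905_nt.PK

open Finset

private theorem LF_mono {G : Type} [Fintype G] {η η' : ℝ} (h : η ≤ η')
    {ν : Fin 4 × Fin 4 → G → G → ℝ} (hL : LF η ν) : LF η' ν :=
  fun S hS => (hL S hS).trans h

private theorem Cut_mono {G : Type} [Fintype G] {η η' : ℝ} (h : η ≤ η') {f : G → G → ℝ}
    (hC : Cut η f) : Cut η' f :=
  fun a b ha hb => (hC a b ha hb).trans h

private theorem LF_update {G : Type} [Fintype G] {η : ℝ} {ν : Fin 4 × Fin 4 → G → G → ℝ}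
    (hL : LF η ν) (e : Fin 4 × Fin 4) : LF η (Function.update ν e (fun _ _ => 1)) := by
  intro S hS
  have h1 := hL (S.filter (fun s => s.1 ≠ e)) ((filter_subset _ _).trans hS)
  have h2 : ∀ x : V → G, ∏ s ∈ S, Function.update ν e (fun _ _ => (1 : ℝ)) s.1 (x (src s)) (x (tgt s)) =
      ∏ s ∈ S.filter (fun s => s.1 ≠ e), ν s.1 (x (src s)) (x (tgt s)) := by
    intro x
    rw [prod_filter]
    refine prod_congr rfl fun s _ => ?_
    by_cases hs : s.1 = e
    · rw [hs, Function.update_self, if_neg (by simp)]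
    · rw [Function.update_of_ne hs, if_pos hs]
  simp only [h2]
  exact h1

private theorem aux (k : ℕ) : ∀ ε : ℝ, 0 < ε → ∃ η : ℝ, 0 < η ∧ η ≤ 1 ∧
    ∀ (G : Type) [Fintype G] [Nonempty G] (ν g h : Fin 4 × Fin 4 → G → G → ℝ),
      (∀ p u v, 0 ≤ ν p u v) → (∀ p ∈ P, ∀ u v, 0 ≤ g p u v ∧ g p u v ≤ ν p u v) →
      (∀ p ∈ P, ∀ u v, 0 ≤ h p u v ∧ h p u v ≤ 1) → LF η ν →
      (∀ p ∈ P, Cut η (fun u v => g p u v - h p u v)) →
      (∃ U ⊆ P, U.card ≤ k ∧ ∀ p ∈ P, p ∉ U → ∀ u v, ν p u v = 1) → |tK g - tK h| ≤ ε := by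
  induction k with
  | zero =>
    intro ε hε
    refine ⟨min 1 (ε / 6), by positivity, min_le_left _ _, ?_⟩
    rintro G _ _ ν g h hν hg hh hL hC ⟨U, hU, hUc, hU1⟩
    have hUe : U = ∅ := card_eq_zero.1 (Nat.le_zero.1 hUc)
    have h1 := base g h (fun p hp u v => ⟨(hg p hp u v).1, (hg p hp u v).2.trans_eq
      (hU1 p hp (by rw [hUe]; exact notMem_empty p) u v)⟩) hh hC
    have h2 : min 1 (ε / 6) ≤ ε / 6 := min_le_right _ _
    linarith
  | succ k ih =>
    intro ε hε
    obtain ⟨η₁, hη₁, hη₁1, H₁⟩ := ih (ε ^ 2 / 32) (by positivity)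
    obtain ⟨η₀, hη₀, hη₀1, H₀⟩ := ih ε hε
    obtain ⟨a, ha⟩ : ∃ a : ℝ, a = min 1 (ε ^ 2 / 80) := ⟨_, rfl⟩
    have ha0 : 0 < a := by rw [ha]; positivity
    have ha1 : a ≤ 1 := by rw [ha]; exact min_le_left _ _
    have ha2 : a ≤ ε ^ 2 / 80 := by rw [ha]; exact min_le_right _ _
    obtain ⟨η, hη⟩ : ∃ η : ℝ, η = min (min 1 (ε / 2)) (min (a ^ 4 / 128) (min η₁ η₀)) := ⟨_, rfl⟩
    have hη0 : 0 < η := by rw [hη]; positivity
    have hη1 : η ≤ 1 := by rw [hη]; exact (min_le_left _ _).trans (min_le_left _ _)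
    have hη2 : η ≤ ε / 2 := by rw [hη]; exact (min_le_left _ _).trans (min_le_right _ _)
    have hη3 : η ≤ a ^ 4 / 128 := by rw [hη]; exact (min_le_right _ _).trans (min_le_left _ _)
    have hη4 : η ≤ η₁ := by
      rw [hη]; exact (min_le_right _ _).trans ((min_le_right _ _).trans (min_le_left _ _))
    have hη5 : η ≤ η₀ := by
      rw [hη]; exact (min_le_right _ _).trans ((min_le_right _ _).trans (min_le_right _ _))
    refine ⟨η, hη0, hη1, ?_⟩
    rintro G _ _ ν g h hν hg hh hL hC ⟨U, hU, hUc, hU1⟩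
    by_cases hk : U.card ≤ k
    · exact H₀ G ν g h hν hg hh (LF_mono hη5 hL) (fun p hp => Cut_mono hη5 (hC p hp))
        ⟨U, hU, hk, hU1⟩
    · have hne : U.Nonempty := by
        rw [← card_pos]
        omega
      obtain ⟨e, he⟩ := hne
      have hind : ∀ q : G → G → ℝ, (∀ u v, 0 ≤ q u v ∧ q u v ≤ 1) →
          |tK (Function.update g e q) - tK (Function.update h e q)| ≤ ε ^ 2 / 32 := by
        intro q hq
        refine H₁ G (Function.update ν e (fun _ _ => 1)) _ _ ?_ ?_ ?_
          (LF_update (LF_mono hη4 hL) e) ?_ ⟨U.erase e, (erase_subset _ _).trans hU, ?_, ?_⟩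
        · intro p u v
          by_cases hp : p = e
          · rw [hp, Function.update_self]
            exact zero_le_one
          · rw [Function.update_of_ne hp]
            exact hν p u v
        · intro p hpP u v
          by_cases hp : p = e
          · rw [hp, Function.update_self, Function.update_self]
            exact hq u v
          · rw [Function.update_of_ne hp, Function.update_of_ne hp]
            exact hg p hpP u v
        · intro p hpP u v
          by_cases hp : p = e
          · rw [hp, Function.update_self]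
            exact hq u v
          · rw [Function.update_of_ne hp]
            exact hh p hpP u v
        · intro p hpP
          by_cases hp : p = e
          · rw [hp, Function.update_self, Function.update_self]
            intro b c _ _
            have h0 : (fun z : G × G => (q z.1 z.2 - q z.1 z.2) * (b z.1 * c z.2)) =
                fun _ => (0 : ℝ) := by
              funext z
              rw [sub_self, zero_mul]
            rw [h0, av_const, abs_zero]
            exact hη₁.le
          · rw [Function.update_of_ne hp, Function.update_of_ne hp]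
            exact Cut_mono hη4 (hC p hpP)
        · rw [card_erase_of_mem he]
          omega
        · intro p hpP hpU u v
          by_cases hp : p = e
          · rw [hp, Function.update_self]
          · rw [Function.update_of_ne hp]
            exact hU1 p hpP (fun h => hpU (mem_erase.2 ⟨hp, h⟩)) u v
      have hst := step hη0.le hη1 ha0.le ha1 (by linarith) (by positivity) hν hg hh hL (hU he)
        (hC e (hU he)) hind
      have hsq : Real.sqrt (2 * (5 * a + 2 * (ε ^ 2 / 32))) ≤ ε / 2 := by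
        rw [Real.sqrt_le_left (by positivity)]
        have : (ε / 2) ^ 2 = ε ^ 2 / 4 := by ring
        rw [this]
        linarith
      linarith

theorem rel_count (ε : ℝ) (hε : 0 < ε) : ∃ η : ℝ, 0 < η ∧ η ≤ 1 ∧
    ∀ (G : Type) [Fintype G] [Nonempty G] (ν g h : Fin 4 × Fin 4 → G → G → ℝ),
      (∀ p u v, 0 ≤ ν p u v) → (∀ p ∈ P, ∀ u v, 0 ≤ g p u v ∧ g p u v ≤ ν p u v) →
      (∀ p ∈ P, ∀ u v, 0 ≤ h p u v ∧ h p u v ≤ 1) → LF η ν →
      (∀ p ∈ P, Cut η (fun u v => g p u v - h p u v)) → |tK g - tK h| ≤ ε := by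
  obtain ⟨η, hη0, hη1, H⟩ := aux 6 ε hε
  refine ⟨η, hη0, hη1, fun G _ _ ν g h hν hg hh hL hC => ?_⟩
  refine H G ν g h hν hg hh hL hC ⟨P, Subset.refl P, ?_, fun p hp hp' => absurd hp hp'⟩
  decide

end Pool.Agent.Work.MP_70e905_nt.PK
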