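import Pool.Agent.Work.MP_70e905_nt.PK.Bas

/-!
# PK/Cs1 (size S): doubling a coordinate by the Cauchy-Schwarz inequality

PROOF. Let `k x = av (fun u => K (update x c u))`. By `av_update c` (and `hH`) `av (H K) = av (H k)`, and
`|av (H k)| ≤ av (Hb |k|)`, so `av_cs_w` with `W = Hb`, `F = 1`, `H = |k|` gives `(..)^2 ≤ av Hb * av (Hb k^2)`.
It remains to see `av (Hb x * (K x * K (update x c (x c')))) = av (Hb k^2)`: by `av_update c` (`c ≠ c'`, so
`(update x c u) c' = x c'`, and `Function.update_idem`) the left side is `av (Hb x * (k x * K (update x c (x c'))))`;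
by `av_update c'` (here `Hb`, `k` do not change, and `K (update (update x c' v) c v) = K (update x c v)` by
`Function.update_comm` and `hK`) it is `av (Hb x * (k x * k x))`.
-/

set_option autoImplicit false

namespace Pool.Agent.Work.MP_70e905_nt.PK

open Finset

theorem cs1 {ι : Type*} [Fintype ι] [DecidableEq ι] {G : Type*} [Fintype G] (c c' : ι)
    (hcc : c ≠ c') (H Hb K : (ι → G) → ℝ) (h1 : ∀ x, |H x| ≤ Hb x)
    (hH : ∀ x u, H (Function.update x c u) = H x)
    (hHb : ∀ x u, Hb (Function.update x c u) = Hb x)
    (hHb' : ∀ x u, Hb (Function.update x c' u) = Hb x)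
    (hK : ∀ x u, K (Function.update x c' u) = K x) :
    av (fun x => H x * K x) ^ 2 ≤
      av Hb * av (fun x => Hb x * (K x * K (Function.update x c (x c')))) := by
  obtain ⟨k, hk⟩ : ∃ k : (ι → G) → ℝ, ∀ x, k x = av (fun u => K (Function.update x c u)) :=
    ⟨_, fun _ => rfl⟩
  have hcomm : ∀ (x : ι → G) (u v : G), K (Function.update (Function.update x c' v) c u) =
      K (Function.update x c u) := by
    intro x u v
    rw [← Function.update_comm hcc, hK]
  have hk' : ∀ x v, k (Function.update x c' v) = k x := by
    intro x v
    rw [hk, hk]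
    congr 1
    funext u
    exact hcomm x u v
  have hHb0 : ∀ x, 0 ≤ Hb x := fun x => (abs_nonneg _).trans (h1 x)
  have e1 : av (fun x => H x * K x) = av (fun x => H x * k x) := by
    rw [← av_update c]
    congr 1
    funext x
    simp only [hH]
    rw [av_mul_left, hk]
  have e2 : av (fun x => Hb x * (K x * K (Function.update x c (x c')))) =
      av (fun x => Hb x * (k x * k x)) := by
    rw [← av_update c]
    have e3 : (fun x : ι → G => av (fun u => Hb (Function.update x c u) *
        (K (Function.update x c u) *
          K (Function.update (Function.update x c u) c (Function.update x c u c'))))) =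
        fun x => Hb x * (k x * K (Function.update x c (x c'))) := by
      funext x
      simp only [hHb, Function.update_idem, Function.update_of_ne hcc.symm]
      rw [av_mul_left, av_mul_right, ← hk]
    rw [e3, ← av_update c']
    congr 1
    funext x
    simp only [hHb', hk', Function.update_self]
    rw [av_mul_left, av_mul_left]
    simp only [hcomm]
    rw [← hk]
  have e4 : |av (fun x => H x * k x)| ≤ av (fun x => Hb x * (1 * |k x|)) := by
    refine (abs_av_le _).trans (av_mono fun x => ?_)
    rw [abs_mul, one_mul]
    exact mul_le_mul_of_nonneg_right (h1 x) (abs_nonneg _)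
  have e5 := av_cs_w (W := Hb) (F := fun _ => (1 : ℝ)) (H := fun x => |k x|) hHb0
  rw [e1, e2]
  calc av (fun x => H x * k x) ^ 2 = |av (fun x => H x * k x)| ^ 2 := (sq_abs _).symm
    _ ≤ av (fun x => Hb x * (1 * |k x|)) ^ 2 := pow_le_pow_left₀ (abs_nonneg _) e4 2
    _ ≤ _ := e5
    _ = av Hb * av (fun x => Hb x * (k x * k x)) := by
      congr 2
      · funext x
        ring
      · funext x
        rw [sq_abs, sq]

end Pool.Agent.Work.MP_70e905_nt.PK
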