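import Pool.Agent.Work.MP_70e905_nt.PK.Ft

/-!
# PK/CutF (size S-M): the cut norm of a Cayley type weight

PROOF. Insert `ft_inv` for `f ((v - u) * d)`: the mean over `z = (u, v)` of `f ((v - u) * d) * (a u * b v)` is `∑ ξ, ft f ξ * A ξ * B ξ` with
`A ξ = (1/N) ∑ a u * stdAddChar (-(u * (d * ξ))) = ft a (d * ξ)` and `B ξ = ft b (-(d * ξ))`. So it is at most `ε * ∑ ξ, ‖ft a (d ξ)‖ * ‖ft b (-(d ξ))‖ ≤ ε * sqrt (∑ ‖ft a‖²) * sqrt (∑ ‖ft b‖²) ≤ ε` by Cauchy-Schwarz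
(`ξ ↦ d * ξ` is a bijection of the field `ZMod N`), `ft_parseval` and `a² ≤ 1`, `b² ≤ 1`.
-/

set_option autoImplicit false

namespace Pool.Agent.Work.MP_70e905_nt.PK

open Finset

private theorem cut_identity {N : ℕ} [NeZero N] (f a b : ZMod N → ℝ) (d : ZMod N) :
    ((av (fun z : ZMod N × ZMod N => f ((z.2 - z.1) * d) * (a z.1 * b z.2)) : ℝ) : ℂ) =
      ∑ ξ, ft f ξ * (ft a (d * ξ) * ft b (-(d * ξ))) := by
  have hN : (N : ℂ) ≠ 0 := by exact_mod_cast NeZero.ne N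
  have hchar : ∀ u v ξ : ZMod N, (ZMod.stdAddChar ((v - u) * d * ξ) : ℂ) =
      ZMod.stdAddChar (-(u * (d * ξ))) * ZMod.stdAddChar (-(v * (-(d * ξ)))) := by
    intro u v ξ
    rw [← AddChar.map_add_eq_mul]
    congr 1
    ring
  have h1 : ((av (fun z : ZMod N × ZMod N => f ((z.2 - z.1) * d) * (a z.1 * b z.2)) : ℝ) : ℂ) =
      (∑ u, ∑ v, (f ((v - u) * d) : ℂ) * ((a u : ℂ) * (b v : ℂ))) / ((N : ℂ) * (N : ℂ)) := by
    unfold av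
    rw [Fintype.sum_prod_type, Fintype.card_prod, ZMod.card]
    push_cast
    rfl
  rw [h1]
  have h2 : ∑ u, ∑ v, (f ((v - u) * d) : ℂ) * ((a u : ℂ) * (b v : ℂ)) =
      ∑ ξ, ft f ξ * ((∑ u, (a u : ℂ) * ZMod.stdAddChar (-(u * (d * ξ)))) *
        (∑ v, (b v : ℂ) * ZMod.stdAddChar (-(v * (-(d * ξ)))))) := by
    have e1 : ∀ u v, (f ((v - u) * d) : ℂ) * ((a u : ℂ) * (b v : ℂ)) =
        ∑ ξ, ft f ξ * (((a u : ℂ) * ZMod.stdAddChar (-(u * (d * ξ)))) *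
          ((b v : ℂ) * ZMod.stdAddChar (-(v * (-(d * ξ)))))) := by
      intro u v
      rw [ft_inv f, sum_mul]
      refine sum_congr rfl fun ξ _ => ?_
      rw [hchar]
      ring
    simp only [e1]
    rw [sum_congr rfl fun u _ => sum_comm, sum_comm]
    refine sum_congr rfl fun ξ _ => ?_
    rw [sum_mul_sum, mul_sum]
    refine sum_congr rfl fun u _ => ?_
    rw [mul_sum]
  rw [h2, sum_div]
  refine sum_congr rfl fun ξ _ => ?_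
  unfold ft
  field_simp

theorem cut_of_ft {N : ℕ} [NeZero N] [Fact N.Prime] {f : ZMod N → ℝ} {ε : ℝ}
    (hf : ∀ ξ, ‖ft f ξ‖ ≤ ε) {d : ZMod N} (hd : d ≠ 0) : Cut ε (fun u v => f ((v - u) * d)) := by
  intro a b ha hb
  have hε : 0 ≤ ε := (norm_nonneg _).trans (hf 0)
  have hsq : ∀ g : ZMod N → ℝ, (∀ u, 0 ≤ g u ∧ g u ≤ 1) → ∑ ξ, ‖ft g ξ‖ ^ 2 ≤ 1 := by
    intro g hg
    rw [ft_parseval]
    refine av_le_of_le fun x => ?_
    exact pow_le_one₀ (hg x).1 (hg x).2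
  have hA : ∑ ξ, ‖ft a (d * ξ)‖ ^ 2 ≤ 1 := by
    refine le_trans (le_of_eq ?_) (hsq a ha)
    exact Equiv.sum_comp (Equiv.mulLeft₀ d hd) (fun η => ‖ft a η‖ ^ 2)
  have hB : ∑ ξ, ‖ft b (-(d * ξ))‖ ^ 2 ≤ 1 := by
    refine le_trans (le_of_eq ?_) (hsq b hb)
    exact Equiv.sum_comp ((Equiv.mulLeft₀ d hd).trans (Equiv.neg (ZMod N)))
      (fun η => ‖ft b η‖ ^ 2)
  have hid := cut_identity f a b d
  have hnorm : |av (fun z : ZMod N × ZMod N => f ((z.2 - z.1) * d) * (a z.1 * b z.2))| =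
      ‖∑ ξ, ft f ξ * (ft a (d * ξ) * ft b (-(d * ξ)))‖ := by
    rw [← hid, Complex.norm_real, Real.norm_eq_abs]
  change |av (fun z : ZMod N × ZMod N => f ((z.2 - z.1) * d) * (a z.1 * b z.2))| ≤ ε
  rw [hnorm]
  calc ‖∑ ξ, ft f ξ * (ft a (d * ξ) * ft b (-(d * ξ)))‖
      ≤ ∑ ξ, ‖ft f ξ * (ft a (d * ξ) * ft b (-(d * ξ)))‖ := norm_sum_le _ _
    _ ≤ ∑ ξ, ε * ((‖ft a (d * ξ)‖ ^ 2 + ‖ft b (-(d * ξ))‖ ^ 2) / 2) := by
        refine sum_le_sum fun ξ _ => ?_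
        rw [norm_mul, norm_mul]
        refine mul_le_mul (hf ξ) ?_ (by positivity) hε
        nlinarith [sq_nonneg (‖ft a (d * ξ)‖ - ‖ft b (-(d * ξ))‖)]
    _ = ε * ((∑ ξ, ‖ft a (d * ξ)‖ ^ 2 + ∑ ξ, ‖ft b (-(d * ξ))‖ ^ 2) / 2) := by
        rw [← mul_sum, ← sum_div, sum_add_distrib]
    _ ≤ ε * 1 := mul_le_mul_of_nonneg_left (by linarith) hε
    _ = ε := mul_one ε

end Pool.Agent.Work.MP_70e905_nt.PK
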