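import Pool.Agent.Work.MP_70e905_nt.PK.CodT

/-!
# PK/CutL (size S-M): the cut norm and a bounded codegree

PROOF. `av_comm`: the mean is `av (fun x => av (fun z => h z.1 z.2 * ∏ p ∈ P.erase e, q p (put e z x p.1) (put e z x p.2)))`, so it is enough to bound the inner mean for fixed `x` (`abs_av_le_of_le`).
Split `P.erase e` in the `p` that do not contain `e.2` as an end (their factor depends only on `z.1`: `put e z x k` does not depend on `z.2` for `k ≠ e.2`) and those with `e.2` as an end
(they do not contain `e.1`, otherwise `p = e` because both are increasing pairs; their factor depends only on `z.2`). So the product is `a z.1 * b z.2` with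
`a u = ∏ p ∈ (P.erase e).filter (fun p => p.1 ≠ e.2 ∧ p.2 ≠ e.2), q p (put e (u, u) x p.1) (put e (u, u) x p.2)` and similarly `b`; both have values in `[0,1]` (`Finset.prod_nonneg`, `Finset.prod_le_one`). Apply `Cut`.
`G` nonempty: if `G` is empty all means are `0` and `0 ≤ ε` because of `Cut` with `a = b = 0`.. (we assume `Nonempty G`).
-/

set_option autoImplicit false

namespace Pool.Agent.Work.MP_70e905_nt.PK

open Finset

private theorem put_indep2 {G : Type} [Fintype G] {e : Fin 4 × Fin 4} (z z' : G × G)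
    (hz : z.1 = z'.1) (x : Fin 4 → G) {k : Fin 4} (hk : k ≠ e.2) : put e z x k = put e z' x k := by
  unfold put
  rw [Function.update_of_ne hk, Function.update_of_ne hk, hz]

private theorem put_indep1 {G : Type} [Fintype G] {e : Fin 4 × Fin 4} (z z' : G × G)
    (hz : z.2 = z'.2) (x : Fin 4 → G) {k : Fin 4} (hk : k ≠ e.1) : put e z x k = put e z' x k := by
  unfold put
  by_cases h : k = e.2
  · subst h
    rw [Function.update_self, Function.update_self, hz]
  · rw [Function.update_of_ne h, Function.update_of_ne h, Function.update_of_ne hk,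
      Function.update_of_ne hk]

theorem cut_cod {G : Type} [Fintype G] [Nonempty G] {ε : ℝ} {e : Fin 4 × Fin 4} (he : e ∈ P)
    {h : G → G → ℝ} (hh : Cut ε h) (q : Fin 4 × Fin 4 → G → G → ℝ)
    (hq : ∀ p ∈ P, ∀ u v, 0 ≤ q p u v ∧ q p u v ≤ 1) :
    |av (fun z : G × G => h z.1 z.2 * cod e q z)| ≤ ε := by
  have h1 : av (fun z : G × G => h z.1 z.2 * cod e q z) =
      av (fun x : Fin 4 → G => av (fun z : G × G => h z.1 z.2 *
        ∏ p ∈ P.erase e, q p (put e z x p.1) (put e z x p.2))) := by
    rw [av_comm]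
    refine congrArg av (funext fun z => ?_)
    unfold cod
    rw [av_mul_left]
  rw [h1]
  refine abs_av_le_of_le fun x => ?_
  set A : Finset (Fin 4 × Fin 4) := (P.erase e).filter (fun p => p.1 ≠ e.2 ∧ p.2 ≠ e.2) with hA
  set B : Finset (Fin 4 × Fin 4) := (P.erase e).filter (fun p => ¬ (p.1 ≠ e.2 ∧ p.2 ≠ e.2))
    with hB
  have h2 : ∀ z : G × G, ∏ p ∈ P.erase e, q p (put e z x p.1) (put e z x p.2) =
      (∏ p ∈ A, q p (put e (z.1, z.1) x p.1) (put e (z.1, z.1) x p.2)) *
        ∏ p ∈ B, q p (put e (z.2, z.2) x p.1) (put e (z.2, z.2) x p.2) := by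
    intro z
    rw [← prod_filter_mul_prod_filter_not (P.erase e) (fun p => p.1 ≠ e.2 ∧ p.2 ≠ e.2)]
    congr 1
    · refine prod_congr rfl fun p hp => ?_
      have hp2 := (mem_filter.1 hp).2
      rw [put_indep2 z (z.1, z.1) rfl x hp2.1, put_indep2 z (z.1, z.1) rfl x hp2.2]
    · refine prod_congr rfl fun p hp => ?_
      have hp1 := mem_erase.1 (mem_filter.1 hp).1
      have hp2 := (mem_filter.1 hp).2
      have hpP : p.1 < p.2 := (mem_filter.1 hp1.2).2
      have heP : e.1 < e.2 := (mem_filter.1 he).2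
      have h3 : p.1 = e.2 ∨ p.2 = e.2 := by
        by_contra hcon
        push Not at hcon
        exact hp2 hcon
      have h4 : p.1 ≠ e.1 := by
        intro h5
        rcases h3 with h6 | h6
        · rw [h6] at h5
          exact heP.ne' h5
        · exact hp1.1 (Prod.ext h5 h6)
      have h5 : p.2 ≠ e.1 := by
        intro h5
        rcases h3 with h6 | h6
        · rw [h5, h6] at hpP
          exact absurd hpP (not_lt.2 heP.le)
        · rw [h6] at h5
          exact heP.ne' h5
      rw [put_indep1 z (z.2, z.2) rfl x h4, put_indep1 z (z.2, z.2) rfl x h5]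
  have h3 : av (fun z : G × G => h z.1 z.2 *
        ∏ p ∈ P.erase e, q p (put e z x p.1) (put e z x p.2)) =
      av (fun z : G × G => h z.1 z.2 *
        ((fun u => ∏ p ∈ A, q p (put e (u, u) x p.1) (put e (u, u) x p.2)) z.1 *
        (fun u => ∏ p ∈ B, q p (put e (u, u) x p.1) (put e (u, u) x p.2)) z.2)) :=
    congrArg av (funext fun z => by rw [h2 z])
  rw [h3]
  refine hh (fun u => ∏ p ∈ A, q p (put e (u, u) x p.1) (put e (u, u) x p.2))
    (fun u => ∏ p ∈ B, q p (put e (u, u) x p.1) (put e (u, u) x p.2)) ?_ ?_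
  · intro u
    have h4 : ∀ p ∈ A, 0 ≤ q p (put e (u, u) x p.1) (put e (u, u) x p.2) ∧
        q p (put e (u, u) x p.1) (put e (u, u) x p.2) ≤ 1 := fun p hp =>
      hq p (mem_of_mem_erase (mem_filter.1 hp).1) _ _
    exact ⟨prod_nonneg fun p hp => (h4 p hp).1,
      prod_le_one (fun p hp => (h4 p hp).1) fun p hp => (h4 p hp).2⟩
  · intro u
    have h4 : ∀ p ∈ B, 0 ≤ q p (put e (u, u) x p.1) (put e (u, u) x p.2) ∧
        q p (put e (u, u) x p.1) (put e (u, u) x p.2) ≤ 1 := fun p hp =>
      hq p (mem_of_mem_erase (mem_filter.1 hp).1) _ _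
    exact ⟨prod_nonneg fun p hp => (h4 p hp).1,
      prod_le_one (fun p hp => (h4 p hp).1) fun p hp => (h4 p hp).2⟩

end Pool.Agent.Work.MP_70e905_nt.PK
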