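import Pool.Agent.Work.MP_70e905_nt.PK.Ft

/-!
# PK/Spec (size M): the large spectrum of a function below a pseudorandom majorant

PROOF. Suppose that the spectrum has more than `4 / ε²` elements, let `S` be a subset of it with `K` elements. Choose `c ξ` with `‖c ξ‖ = 1` and `c ξ * ft f ξ = ‖ft f ξ‖`. With `g x = ∑ ξ ∈ S, c ξ * stdAddChar (-(x * ξ))`:
`K ε ≤ ∑ ξ ∈ S, ‖ft f ξ‖ = (1/N) ∑ x, f x * g x ≤ av (fun x => ν x * ‖g x‖)`, so by `av_cs_w` (`W = ν`, `F = 1`, `H = ‖g‖`) `K² ε² ≤ av ν * av (fun x => ν x * ‖g x‖^2)`. `av ν ≤ 1 + η` (`ft_zero`, `ξ = 0`).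
`‖g x‖^2 = ∑ ξ ξ' ∈ S, c ξ * conj (c ξ') * stdAddChar (-(x * (ξ - ξ')))`, so `av (‖g‖^2) = K` (orthogonality) and `av ((ν - 1) ‖g‖^2) = ∑ c ξ conj (c ξ') ft (ν - 1) (ξ - ξ')` is at most `K² η`. So `K² ε² ≤ (1 + η) (K + K² η)`, `K ε² ≤ (1 + η) + (1 + η) K η ≤ 2 + K ε² / 2`
(`η ≤ 1`, `η ≤ ε² / 4`), `K ≤ 4 / ε²`. Apply this to the whole spectrum.
-/

set_option autoImplicit false

namespace Pool.Agent.Work.MP_70e905_nt.PK

open Finset

private theorem ft_one {N : ℕ} [NeZero N] (ζ : ZMod N) :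
    ft (fun _ : ZMod N => (1 : ℝ)) ζ = if ζ = 0 then 1 else 0 := by
  classical
  unfold ft
  have h1 : ∀ x : ZMod N, (((1 : ℝ) : ℂ) * ZMod.stdAddChar (-(x * ζ)) : ℂ) =
      ZMod.stdAddChar (x * (-ζ)) := by
    intro x
    rw [Complex.ofReal_one, one_mul, mul_neg]
  rw [sum_congr rfl fun x _ => h1 x, AddChar.sum_mulShift (-ζ) (ZMod.isPrimitive_stdAddChar N)]
  have hN : (N : ℂ) ≠ 0 := by exact_mod_cast NeZero.ne N
  by_cases h : ζ = 0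
  · simp [h, hN]
  · simp [h]

private theorem norm_ft_nu {N : ℕ} [NeZero N] {ν : ZMod N → ℝ} {η : ℝ}
    (hν : ∀ ξ, ‖ft (fun x => ν x - 1) ξ‖ ≤ η) (ζ : ZMod N) :
    ‖ft ν ζ‖ ≤ η + if ζ = 0 then 1 else 0 := by
  have h1 : ft ν ζ = ft (fun x => ν x - 1) ζ + ft (fun _ => (1 : ℝ)) ζ := by
    rw [ft_sub]
    ring
  rw [h1]
  refine (norm_add_le _ _).trans (add_le_add (hν ζ) ?_)
  rw [ft_one]
  split_ifs <;> simp

private noncomputable def gg {N : ℕ} [NeZero N] (S : Finset (ZMod N)) (c : ZMod N → ℂ)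
    (x : ZMod N) : ℂ := ∑ ξ ∈ S, c ξ * ZMod.stdAddChar (-(x * ξ))

private theorem gg_pair {N : ℕ} [NeZero N] (S : Finset (ZMod N)) (c : ZMod N → ℂ)
    (f : ZMod N → ℝ) :
    (∑ x, (f x : ℂ) * gg S c x) / (N : ℂ) = ∑ ξ ∈ S, c ξ * ft f ξ := by
  unfold gg ft
  simp only [mul_sum, mul_div_assoc']
  rw [sum_comm, sum_div]
  refine sum_congr rfl fun ξ _ => ?_
  congr 1
  refine sum_congr rfl fun x _ => ?_
  ring

private theorem gg_sq {N : ℕ} [NeZero N] (S : Finset (ZMod N)) (c : ZMod N → ℂ)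
    (x : ZMod N) :
    ((‖gg S c x‖ ^ 2 : ℝ) : ℂ) = ∑ ξ ∈ S, ∑ ξ' ∈ S, c ξ * (starRingEnd ℂ) (c ξ') *
      ZMod.stdAddChar (-(x * (ξ - ξ'))) := by
  have h1 : ((‖gg S c x‖ ^ 2 : ℝ) : ℂ) = gg S c x * (starRingEnd ℂ) (gg S c x) := by
    rw [Complex.mul_conj, Complex.normSq_eq_norm_sq]
  rw [h1]
  unfold gg
  rw [map_sum, sum_mul_sum]
  refine sum_congr rfl fun ξ _ => sum_congr rfl fun ξ' _ => ?_
  rw [map_mul, ← AddChar.map_neg_eq_conj, neg_neg]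
  have h2 : -(x * (ξ - ξ')) = -(x * ξ) + x * ξ' := by ring
  rw [h2, AddChar.map_add_eq_mul]
  ring

private theorem gg_av {N : ℕ} [NeZero N] (S : Finset (ZMod N)) (c : ZMod N → ℂ)
    (ν : ZMod N → ℝ) :
    ((av (fun x => ν x * ‖gg S c x‖ ^ 2) : ℝ) : ℂ) = ∑ ξ ∈ S, ∑ ξ' ∈ S,
      c ξ * (starRingEnd ℂ) (c ξ') * ft ν (ξ - ξ') := by
  unfold av ft
  rw [ZMod.card]
  push_cast
  have h1 : ∀ x, (ν x : ℂ) * (‖gg S c x‖ : ℂ) ^ 2 = ∑ ξ ∈ S, ∑ ξ' ∈ S,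
      c ξ * (starRingEnd ℂ) (c ξ') * ((ν x : ℂ) * ZMod.stdAddChar (-(x * (ξ - ξ')))) := by
    intro x
    have := gg_sq S c x
    push_cast at this
    rw [this, mul_sum]
    refine sum_congr rfl fun ξ _ => ?_
    rw [mul_sum]
    refine sum_congr rfl fun ξ' _ => ?_
    ring
  rw [sum_congr rfl fun x _ => h1 x, sum_comm, sum_div]
  refine sum_congr rfl fun ξ _ => ?_
  rw [sum_comm, sum_div]
  refine sum_congr rfl fun ξ' _ => ?_
  rw [← mul_sum, mul_div_assoc]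

theorem card_spec {N : ℕ} [NeZero N] {f ν : ZMod N → ℝ} {ε η : ℝ} (hε : 0 < ε) (hη0 : 0 ≤ η)
    (hη1 : η ≤ 1) (hηε : η ≤ ε ^ 2 / 4) (hf : ∀ x, 0 ≤ f x ∧ f x ≤ ν x)
    (hν : ∀ ξ, ‖ft (fun x => ν x - 1) ξ‖ ≤ η) : ((spec ε f).card : ℝ) ≤ 4 / ε ^ 2 := by
  classical
  set S := spec ε f with hS
  set K : ℝ := (S.card : ℝ) with hK
  let c : ZMod N → ℂ := fun ξ => (starRingEnd ℂ) (ft f ξ) / (‖ft f ξ‖ : ℂ)
  have hc1 : ∀ ξ, ‖c ξ‖ ≤ 1 := by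
    intro ξ
    simp only [c, norm_div, RCLike.norm_conj, Complex.norm_real, norm_norm]
    exact div_self_le_one _
  have hc2 : ∀ ξ, c ξ * ft f ξ = ((‖ft f ξ‖ : ℝ) : ℂ) := by
    intro ξ
    simp only [c]
    by_cases h0 : ft f ξ = 0
    · simp [h0]
    · have h1 : (‖ft f ξ‖ : ℂ) ≠ 0 := by
        exact_mod_cast norm_ne_zero_iff.2 h0
      rw [div_mul_eq_mul_div, mul_comm, Complex.mul_conj, Complex.normSq_eq_norm_sq]
      push_cast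
      field_simp
  have hν0 : ∀ x, 0 ≤ ν x := fun x => (hf x).1.trans (hf x).2
  -- lower bound
  have h1 : K * ε ≤ ∑ ξ ∈ S, ‖ft f ξ‖ := by
    rw [hK, ← nsmul_eq_mul, ← sum_const]
    refine sum_le_sum fun ξ hξ => ?_
    rw [hS, spec, mem_filter] at hξ
    exact hξ.2
  have h2 : ∑ ξ ∈ S, ‖ft f ξ‖ ≤ av (fun x => ν x * (1 * ‖gg S c x‖)) := by
    have e1 : ((∑ ξ ∈ S, ‖ft f ξ‖ : ℝ) : ℂ) = (∑ x, (f x : ℂ) * gg S c x) / (N : ℂ) := by
      rw [gg_pair]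
      push_cast
      exact sum_congr rfl fun ξ _ => (hc2 ξ).symm
    have e2 : ∑ ξ ∈ S, ‖ft f ξ‖ = ‖((∑ ξ ∈ S, ‖ft f ξ‖ : ℝ) : ℂ)‖ := by
      rw [Complex.norm_real, Real.norm_of_nonneg (sum_nonneg fun ξ _ => norm_nonneg _)]
    rw [e2, e1, norm_div, Complex.norm_natCast]
    unfold av
    rw [ZMod.card]
    refine div_le_div_of_nonneg_right ?_ (Nat.cast_nonneg _)
    refine (norm_sum_le _ _).trans (sum_le_sum fun x _ => ?_)
    rw [norm_mul, Complex.norm_real, Real.norm_of_nonneg (hf x).1, one_mul]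
    exact mul_le_mul_of_nonneg_right (hf x).2 (norm_nonneg _)
  have h3 := av_cs_w (W := ν) (F := fun _ => (1 : ℝ)) (H := fun x => ‖gg S c x‖) hν0
  have h4 : av (fun x => ν x * (1 : ℝ) ^ 2) ≤ 1 + η := by
    have e1 : (fun x => ν x * (1 : ℝ) ^ 2) = ν := by
      funext x
      ring
    rw [e1]
    have e2 := hν 0
    rw [ft_zero, Complex.norm_real, Real.norm_eq_abs, av_sub, av_const] at e2
    have := (abs_le.1 e2).2
    linarith
  have h5 : av (fun x => ν x * ‖gg S c x‖ ^ 2) ≤ K + K ^ 2 * η := by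
    have e0 : 0 ≤ av (fun x => ν x * ‖gg S c x‖ ^ 2) :=
      av_nonneg fun x => mul_nonneg (hν0 x) (sq_nonneg _)
    have e1 : av (fun x => ν x * ‖gg S c x‖ ^ 2) =
        ‖((av (fun x => ν x * ‖gg S c x‖ ^ 2) : ℝ) : ℂ)‖ := by
      rw [Complex.norm_real, Real.norm_of_nonneg e0]
    rw [e1, gg_av]
    have e2 : ∀ ξ ∈ S, ‖∑ ξ' ∈ S, c ξ * (starRingEnd ℂ) (c ξ') * ft ν (ξ - ξ')‖ ≤
        1 + K * η := by
      intro ξ hξ
      refine (norm_sum_le _ _).trans ?_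
      have e3 : ∀ ξ' ∈ S, ‖c ξ * (starRingEnd ℂ) (c ξ') * ft ν (ξ - ξ')‖ ≤
          η + if ξ = ξ' then 1 else 0 := by
        intro ξ' _
        rw [norm_mul, norm_mul, RCLike.norm_conj]
        have e4 := norm_ft_nu hν (ξ - ξ')
        simp only [sub_eq_zero] at e4
        refine le_trans ?_ e4
        have e5 : ‖c ξ‖ * ‖c ξ'‖ ≤ 1 := mul_le_one₀ (hc1 ξ) (norm_nonneg _) (hc1 ξ')
        exact mul_le_of_le_one_left (norm_nonneg _) e5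
      refine (sum_le_sum e3).trans ?_
      rw [sum_add_distrib, sum_const, nsmul_eq_mul, sum_ite_eq, if_pos hξ, ← hK]
      linarith
    refine (norm_sum_le _ _).trans ((sum_le_sum e2).trans ?_)
    rw [sum_const, nsmul_eq_mul, ← hK]
    apply le_of_eq
    ring
  have hK0 : 0 ≤ K := Nat.cast_nonneg _
  have h6 : (K * ε) ^ 2 ≤ (1 + η) * (K + K ^ 2 * η) := by
    have e1 : (K * ε) ^ 2 ≤ (av (fun x => ν x * (1 * ‖gg S c x‖))) ^ 2 :=
      pow_le_pow_left₀ (mul_nonneg hK0 hε.le) (h1.trans h2) 2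
    refine e1.trans (h3.trans ?_)
    refine mul_le_mul h4 h5 (av_nonneg fun x => mul_nonneg (hν0 x) (sq_nonneg _)) (by linarith)
  rw [le_div_iff₀ (by positivity)]
  rcases hK0.eq_or_lt with h0 | h0
  · rw [← h0]
    norm_num
  have h7 : K * ε ^ 2 ≤ (1 + η) * (1 + K * η) := by
    have : K * (K * ε ^ 2) ≤ K * ((1 + η) * (1 + K * η)) := by
      calc K * (K * ε ^ 2) = (K * ε) ^ 2 := by ring
        _ ≤ (1 + η) * (K + K ^ 2 * η) := h6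
        _ = K * ((1 + η) * (1 + K * η)) := by ring
    exact le_of_mul_le_mul_left this h0
  have h8 : (1 + η) * (1 + K * η) ≤ 2 * (1 + K * η) :=
    mul_le_mul_of_nonneg_right (by linarith) (by positivity)
  have h9 : K * η ≤ K * (ε ^ 2 / 4) := mul_le_mul_of_nonneg_left hηε hK0
  linarith

/-- the spectrum of an arbitrary function, from Parseval's formula -/
theorem card_spec_sq {N : ℕ} [NeZero N] (f : ZMod N → ℝ) {ε : ℝ} (hε : 0 < ε) :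
    ((spec ε f).card : ℝ) ≤ av (fun x => f x ^ 2) / ε ^ 2 := by
  rw [le_div_iff₀ (by positivity), ← ft_parseval, ← nsmul_eq_mul, ← sum_const]
  calc ∑ _ξ ∈ spec ε f, ε ^ 2 ≤ ∑ ξ ∈ spec ε f, ‖ft f ξ‖ ^ 2 := by
        refine sum_le_sum fun ξ hξ => ?_
        rw [spec, mem_filter] at hξ
        exact pow_le_pow_left₀ hε.le hξ.2 2
    _ ≤ ∑ ξ, ‖ft f ξ‖ ^ 2 :=
        sum_le_sum_of_subset_of_nonneg (subset_univ _) fun ξ _ _ => sq_nonneg _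

end Pool.Agent.Work.MP_70e905_nt.PK
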