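import Pool.Agent.Work.MP_70e905_nt.PK.Sm
import Pool.Agent.Work.MP_70e905_nt.PK.Spec

/-!
# PK/DMod (size S-M): the dense model

PROOF. Let `ε = κ / 2` (`κ ≤ 1`, otherwise replace it by `min κ 1`), `r = ⌈4 / ε²⌉₊`, `ρ = κ / 8`, and `η = min (min 1 (ε² / 4)) (κ / 2 * bl r ρ)`. For `f ≤ ν` let `Λ = spec ε f` (`card_spec`: at most `r` elements), `F = sm Λ ρ f`, `h = min F 1`. `0 ≤ h ≤ 1` (`sm_nonneg`).
`F ≤ 1 + η / bl Λ.card ρ ≤ 1 + κ / 2` (`sm_le`, `bl_anti`), so `|F - h| ≤ κ / 2` and `‖ft (F - h) ξ‖ ≤ κ / 2` (`norm_ft_le`, `av_le_of_le`). `ft (f - F) ξ = ft f ξ * (1 - bs²)` (`ft_sm`, `ft_sub`): for `ξ ∉ Λ` the norm is `≤ ε * 1` (`0 ≤ bs² ≤ 1`), for `ξ ∈ Λ`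
`|1 - bs²| ≤ 2 |1 - bs| ≤ 2 ρ = κ / 4` and `‖ft f ξ‖ ≤ av f ≤ av ν ≤ 1 + η ≤ 2`, product `≤ κ / 2`. Sum: `≤ κ`.
-/

set_option autoImplicit false

namespace Pool.Agent.Work.MP_70e905_nt.PK

open Finset

theorem dense_model (κ : ℝ) (hκ : 0 < κ) : ∃ η : ℝ, 0 < η ∧
    ∀ (N : ℕ) [NeZero N] (f ν : ZMod N → ℝ), (∀ x, 0 ≤ f x ∧ f x ≤ ν x) →
      (∀ ξ, ‖ft (fun x => ν x - 1) ξ‖ ≤ η) →
      ∃ h : ZMod N → ℝ, (∀ x, 0 ≤ h x ∧ h x ≤ 1) ∧ ∀ ξ, ‖ft (fun x => f x - h x) ξ‖ ≤ κ := by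
  obtain ⟨ε, hε⟩ : ∃ ε : ℝ, ε = κ / 2 := ⟨_, rfl⟩
  obtain ⟨r, hr⟩ : ∃ r : ℕ, r = ⌈4 / ε ^ 2⌉₊ := ⟨_, rfl⟩
  obtain ⟨ρ, hρ⟩ : ∃ ρ : ℝ, ρ = κ / 8 := ⟨_, rfl⟩
  have hε0 : 0 < ε := by rw [hε]; positivity
  have hρ0 : 0 < ρ := by rw [hρ]; positivity
  have hbl : 0 < bl r ρ := bl_pos r ρ
  refine ⟨min (min 1 (ε ^ 2 / 4)) (κ / 2 * bl r ρ), by positivity, ?_⟩
  obtain ⟨η, hη⟩ : ∃ η : ℝ, η = min (min 1 (ε ^ 2 / 4)) (κ / 2 * bl r ρ) := ⟨_, rfl⟩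
  rw [← hη]
  have hη0 : 0 ≤ η := by rw [hη]; positivity
  have hη1 : η ≤ 1 := by
    rw [hη]
    exact (min_le_left _ _).trans (min_le_left _ _)
  have hη2 : η ≤ ε ^ 2 / 4 := by
    rw [hη]
    exact (min_le_left _ _).trans (min_le_right _ _)
  have hη3 : η ≤ κ / 2 * bl r ρ := by
    rw [hη]
    exact min_le_right _ _
  intro N _ f ν hf hν
  obtain ⟨Λ, hΛ⟩ : ∃ Λ : Finset (ZMod N), Λ = spec ε f := ⟨_, rfl⟩
  have hcard : Λ.card ≤ r := by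
    have h1 := card_spec hε0 hη0 hη1 hη2 hf hν
    rw [hr, hΛ]
    exact_mod_cast h1.trans (Nat.le_ceil _)
  obtain ⟨F, hF⟩ : ∃ F : ZMod N → ℝ, F = sm Λ ρ f := ⟨_, rfl⟩
  have hF0 : ∀ x, 0 ≤ F x := fun x => by
    rw [hF]
    exact sm_nonneg (fun x => (hf x).1) x
  have hF1 : ∀ x, F x ≤ 1 + κ / 2 := fun x => by
    have h1 := sm_le (Λ := Λ) hρ0 hη0 (fun x => (hf x).2) hν x
    rw [← hF] at h1
    have h2 : 0 < bl Λ.card ρ := bl_pos _ _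
    have h3 : η / bl Λ.card ρ ≤ κ / 2 := by
      rw [div_le_iff₀ h2]
      exact hη3.trans (mul_le_mul_of_nonneg_left (bl_anti hcard ρ) (by positivity))
    linarith
  refine ⟨fun x => min (F x) 1, fun x => ⟨le_min (hF0 x) zero_le_one, min_le_right _ _⟩,
    fun ξ => ?_⟩
  have e1 : ft (fun x => f x - min (F x) 1) ξ =
      ft (fun x => f x - F x) ξ + ft (fun x => F x - min (F x) 1) ξ := by
    rw [ft_sub, ft_sub, ft_sub F]
    ring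
  have h2 : ‖ft (fun x => F x - min (F x) 1) ξ‖ ≤ κ / 2 := by
    refine (norm_ft_le _ _).trans (av_le_of_le fun x => ?_)
    rcases le_total (F x) 1 with h | h
    · rw [min_eq_left h, sub_self, abs_zero]
      positivity
    · rw [min_eq_right h, abs_of_nonneg (by linarith)]
      linarith [hF1 x]
  have e3 : ft (fun x => f x - F x) ξ = ft f ξ * ((1 - bs Λ ρ ξ ^ 2 : ℝ) : ℂ) := by
    rw [ft_sub, hF, ft_sm hρ0.le]
    push_cast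
    ring
  have habs := abs_bs (Λ := Λ) hρ0.le ξ
  have h3 : ‖ft (fun x => f x - F x) ξ‖ ≤ κ / 2 := by
    rw [e3, norm_mul, Complex.norm_real, Real.norm_eq_abs]
    by_cases hξ : ξ ∈ Λ
    · have h4 := bs_near hρ0.le hξ
      have h5 : |1 - bs Λ ρ ξ ^ 2| ≤ ρ * 2 := by
        have : 1 - bs Λ ρ ξ ^ 2 = (bs Λ ρ ξ - 1) * (-(bs Λ ρ ξ + 1)) := by ring
        rw [this, abs_mul, abs_neg]
        have h6 : |bs Λ ρ ξ + 1| ≤ 2 := (abs_add_le _ _).trans (by rw [abs_one]; linarith)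
        exact mul_le_mul h4 h6 (abs_nonneg _) hρ0.le
      have h6 : ‖ft f ξ‖ ≤ 2 := by
        have h7 : av f ≤ av ν := av_mono fun x => (hf x).2
        have h8 : av ν - 1 ≤ η := by
          have h9 := hν 0
          rw [ft_zero, Complex.norm_real, Real.norm_eq_abs, av_sub, av_const] at h9
          exact (le_abs_self _).trans h9
        have h10 := norm_ft_le f ξ
        have h11 : (fun x => |f x|) = f := funext fun x => abs_of_nonneg (hf x).1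
        rw [h11] at h10
        linarith
      calc ‖ft f ξ‖ * |1 - bs Λ ρ ξ ^ 2| ≤ 2 * (ρ * 2) :=
            mul_le_mul h6 h5 (abs_nonneg _) (by norm_num)
        _ = κ / 2 := by rw [hρ]; ring
    · have h4 : ‖ft f ξ‖ ≤ ε := by
        by_contra hcon
        push Not at hcon
        apply hξ
        rw [hΛ]
        exact mem_filter.2 ⟨mem_univ _, hcon.le⟩
      have h5 : |1 - bs Λ ρ ξ ^ 2| ≤ 1 := by
        have h6 : bs Λ ρ ξ ^ 2 ≤ 1 := by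
          rw [← sq_abs]
          exact pow_le_one₀ (abs_nonneg _) habs
        rw [abs_le]
        constructor <;> nlinarith [sq_nonneg (bs Λ ρ ξ)]
      calc ‖ft f ξ‖ * |1 - bs Λ ρ ξ ^ 2| ≤ ε * 1 :=
            mul_le_mul h4 h5 (abs_nonneg _) hε0.le
        _ = κ / 2 := by rw [hε, mul_one]
  rw [e1]
  refine (norm_add_le _ _).trans ?_
  linarith

end Pool.Agent.Work.MP_70e905_nt.PK
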