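import Mathlib

/-!
# Block PK: relative counting lemma for `K₄` and its dense side (definitions, fixed, do not change)

`G` is a finite type (later `ZMod N`). Vertices of `K₄`: `Fin 4`; edges: the pairs `p` with
`p.1 < p.2` (`P`). The doubled `K₄` has the vertices `V = Fin 4 × Bool` and the edges
`s = ((i, j), (a, b))` from `(i, a)` to `(j, b)`, `i < j` (`PD`). A weight system is a function
`w : Fin 4 × Fin 4 → G → G → ℝ`; only its values at the elements of `P` matter.
-/

set_option autoImplicit false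

namespace Pool.Agent.Work.MP_70e905_nt.PK

open Finset

/-- mean over a finite type -/
noncomputable def av {X : Type*} [Fintype X] (F : X → ℝ) : ℝ := (∑ x, F x) / (Fintype.card X : ℝ)

/-- the edges of `K₄` -/
def P : Finset (Fin 4 × Fin 4) := univ.filter (fun p => p.1 < p.2)

/-- coordinates: the vertices of the doubled `K₄` -/
abbrev V : Type := Fin 4 × Bool

/-- doubled edges `((i, j), (a, b))`, from `(i, a)` to `(j, b)` -/
abbrev DE : Type := (Fin 4 × Fin 4) × (Bool × Bool)

/-- first end of a doubled edge -/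
def src (s : DE) : V := (s.1.1, s.2.1)

/-- second end of a doubled edge -/
def tgt (s : DE) : V := (s.1.2, s.2.2)

/-- the doubled edges of `K₄` -/
def PD : Finset DE := univ.filter (fun s => s.1.1 < s.1.2)

section graph

variable {G : Type} [Fintype G]

/-- weighted density of `K₄` -/
noncomputable def tK (w : Fin 4 × Fin 4 → G → G → ℝ) : ℝ :=
  av (fun x : Fin 4 → G => ∏ p ∈ P, w p (x p.1) (x p.2))

/-- linear forms condition: every subproduct of the doubled `K₄` has mean within `η` of `1` -/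
def LF (η : ℝ) (ν : Fin 4 × Fin 4 → G → G → ℝ) : Prop :=
  ∀ S : Finset DE, S ⊆ PD →
    |av (fun x : V → G => ∏ s ∈ S, ν s.1 (x (src s)) (x (tgt s))) - 1| ≤ η

/-- cut norm at most `ε` -/
def Cut (ε : ℝ) (h : G → G → ℝ) : Prop :=
  ∀ a b : G → ℝ, (∀ u, 0 ≤ a u ∧ a u ≤ 1) → (∀ u, 0 ≤ b u ∧ b u ≤ 1) →
    |av (fun z : G × G => h z.1 z.2 * (a z.1 * b z.2))| ≤ ε

/-- put `z.1`, `z.2` at the ends of `e` -/
def put (e : Fin 4 × Fin 4) (z : G × G) (x : Fin 4 → G) : Fin 4 → G :=
  Function.update (Function.update x e.1 z.1) e.2 z.2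

/-- codegree of `z` for the edge `e`: mean of the product of the other five weights -/
noncomputable def cod (e : Fin 4 × Fin 4) (w : Fin 4 × Fin 4 → G → G → ℝ) (z : G × G) : ℝ :=
  av (fun x : Fin 4 → G => ∏ p ∈ P.erase e, w p (put e z x p.1) (put e z x p.2))

/-- the vertex of the second copy of the half doubled `K₄`: the ends of `e` are not doubled -/
def hiV (e : Fin 4 × Fin 4) (k : Fin 4) : V := (k, decide (k ≠ e.1 ∧ k ≠ e.2))

end graph

section cyc

variable {N : ℕ} [NeZero N]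

/-- normalised Fourier coefficient of a real function on `ZMod N` -/
noncomputable def ft (f : ZMod N → ℝ) (ξ : ZMod N) : ℂ :=
  (∑ x, (f x : ℂ) * ZMod.stdAddChar (-(x * ξ))) / (N : ℂ)

/-- normalised convolution -/
noncomputable def cv (f g : ZMod N → ℝ) (x : ZMod N) : ℝ := av (fun y => f y * g (x - y))

/-- Bohr set -/
noncomputable def bohr (Λ : Finset (ZMod N)) (ρ : ℝ) : Finset (ZMod N) :=
  univ.filter (fun x => ∀ ξ ∈ Λ, ‖(ZMod.stdAddChar (x * ξ) : ℂ) - 1‖ ≤ ρ)

/-- lower bound for the density of a Bohr set with `r` frequencies and radius `ρ` -/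
noncomputable def bl (r : ℕ) (ρ : ℝ) : ℝ := (1 / (2 * (⌈2 / ρ⌉₊ : ℝ) + 1) ^ 2) ^ r

/-- normalised indicator function of a Bohr set -/
noncomputable def bt (Λ : Finset (ZMod N)) (ρ : ℝ) (x : ZMod N) : ℝ :=
  if x ∈ bohr Λ ρ then (N : ℝ) / ((bohr Λ ρ).card : ℝ) else 0

/-- smoothed function -/
noncomputable def sm (Λ : Finset (ZMod N)) (ρ : ℝ) (f : ZMod N → ℝ) : ZMod N → ℝ :=
  cv f (cv (bt Λ ρ) (bt Λ ρ))

/-- the large spectrum -/
noncomputable def spec (ε : ℝ) (f : ZMod N → ℝ) : Finset (ZMod N) :=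
  univ.filter (fun ξ => ε ≤ ‖ft f ξ‖)

/-- the inverse of `e j - e i` modulo `N` -/
noncomputable def dv (N : ℕ) [NeZero N] (e : Fin 4 → ℤ) (p : Fin 4 × Fin 4) : ZMod N :=
  ((e p.2 - e p.1 : ℤ) : ZMod N)⁻¹

/-- the Cayley type weight system `(u, v) ↦ f ((v - u) / (e j - e i))` -/
noncomputable def cay (e : Fin 4 → ℤ) (f : ZMod N → ℝ) (p : Fin 4 × Fin 4) (u v : ZMod N) : ℝ :=
  f ((v - u) * dv N e p)

end cyc

end Pool.Agent.Work.MP_70e905_nt.PK
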