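import Pool.Agent.Work.MP_70e905_nt.PK.Ft
import Pool.Agent.Work.MP_70e905_nt.PK.Box

/-!
# PK/FtNu (size M): the Fourier coefficients of the majorant

PROOF. Let `e₀ = (0, 1) ∈ P`, `d = dv N e e₀ ≠ 0`, `f x = ν x - 1`. `box` for `T = ∅` gives `|av (fun x : V → ZMod N => ∏ c, f ((x (1, c.2) - x (0, c.1)) * d))| ≤ 16 η`. The mean of a function of the four coordinates `(0,false)`, `(0,true)`, `(1,false)`, `(1,true)`
is the mean over `ZMod N ^ 4` (`av_update` for the four other coordinates, or a change of variables), and by `ft_inv` for the four factors and orthogonality it is `∑ ξ, ‖ft f ξ‖ ^ 4` (`f` real: `ft f (-ξ) = conj (ft f ξ)`). Alternatively avoid the exact formula: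
for fixed `ξ`, `ft f ξ = (1/N²) ∑_{u,v} f ((v - u) * d) * stdAddChar (-(v - u) * d * ξ)` and two Cauchy-Schwarz inequalities (first in `u`, then in `v`; the characters have modulus 1) give `‖ft f ξ‖ ^ 4 ≤` the mean of the four factors.
-/

set_option autoImplicit false

namespace Pool.Agent.Work.MP_70e905_nt.PK

open Finset

private theorem av_four {N : ℕ} [NeZero N] (Φ : ZMod N → ZMod N → ZMod N → ZMod N → ℝ) :
    av (fun x : V → ZMod N => Φ (x (1, false)) (x (1, true)) (x (0, false)) (x (0, true))) =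
      av (fun v => av (fun v' => av (fun u => av (fun u' => Φ v v' u u')))) := by
  have h1 := av_update ((0, true) : V)
    (fun x : V → ZMod N => Φ (x (1, false)) (x (1, true)) (x (0, false)) (x (0, true)))
  have h2 := av_update ((0, false) : V) (fun x : V → ZMod N => av (fun u' =>
    (fun x : V → ZMod N => Φ (x (1, false)) (x (1, true)) (x (0, false)) (x (0, true)))
      (Function.update x (0, true) u')))
  have h3 := av_update ((1, true) : V) (fun x : V → ZMod N => av (fun u =>
    (fun x : V → ZMod N => av (fun u' =>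
    (fun x : V → ZMod N => Φ (x (1, false)) (x (1, true)) (x (0, false)) (x (0, true)))
      (Function.update x (0, true) u'))) (Function.update x (0, false) u)))
  have h4 := av_update ((1, false) : V) (fun x : V → ZMod N => av (fun v' =>
    (fun x : V → ZMod N => av (fun u => (fun x : V → ZMod N => av (fun u' =>
    (fun x : V → ZMod N => Φ (x (1, false)) (x (1, true)) (x (0, false)) (x (0, true)))
      (Function.update x (0, true) u'))) (Function.update x (0, false) u)))
      (Function.update x (1, true) v')))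
  rw [← h1, ← h2, ← h3, ← h4]
  have key : ∀ (x : V → ZMod N) (v v' u u' : ZMod N),
      Φ ((Function.update (Function.update (Function.update (Function.update x (1, false) v)
        (1, true) v') (0, false) u) (0, true) u') (1, false))
        ((Function.update (Function.update (Function.update (Function.update x (1, false) v)
        (1, true) v') (0, false) u) (0, true) u') (1, true))
        ((Function.update (Function.update (Function.update (Function.update x (1, false) v)
        (1, true) v') (0, false) u) (0, true) u') (0, false))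
        ((Function.update (Function.update (Function.update (Function.update x (1, false) v)
        (1, true) v') (0, false) u) (0, true) u') (0, true)) = Φ v v' u u' := by
    intro x v v' u u'
    congr 1 <;> simp [Function.update_apply]
  simp only [key]
  exact av_const _

private theorem norm_sum_sq {N : ℕ} [NeZero N] (F : ZMod N → ℝ) (χ : ZMod N → ℂ) :
    ‖(∑ v, (F v : ℂ) * χ v) / (N : ℂ)‖ ^ 2 =
      av (fun z : ZMod N × ZMod N => (χ z.1 * (starRingEnd ℂ) (χ z.2)).re * (F z.1 * F z.2)) := by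
  have hN : (Fintype.card (ZMod N × ZMod N) : ℝ) = (N : ℝ) ^ 2 := by
    rw [Fintype.card_prod, ZMod.card]
    push_cast
    ring
  rw [norm_div, div_pow, Complex.norm_natCast, av, hN]
  congr 1
  have h1 : ((‖∑ v, (F v : ℂ) * χ v‖ ^ 2 : ℝ) : ℂ) =
      (∑ v, (F v : ℂ) * χ v) * (starRingEnd ℂ) (∑ v, (F v : ℂ) * χ v) := by
    rw [Complex.mul_conj, Complex.normSq_eq_norm_sq]
  have h2 := congrArg Complex.re h1
  rw [Complex.ofReal_re] at h2
  rw [h2, map_sum, sum_mul_sum, Complex.re_sum, Fintype.sum_prod_type]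
  refine sum_congr rfl fun v _ => ?_
  rw [Complex.re_sum]
  refine sum_congr rfl fun v' _ => ?_
  rw [map_mul, Complex.conj_ofReal]
  have e : (F v : ℂ) * χ v * ((F v' : ℂ) * (starRingEnd ℂ) (χ v')) =
      ((F v * F v' : ℝ) : ℂ) * (χ v * (starRingEnd ℂ) (χ v')) := by
    push_cast
    ring
  rw [e, Complex.re_ofReal_mul]
  ring

theorem ft_nu {N : ℕ} [NeZero N] [Fact N.Prime] {e : Fin 4 → ℤ}
    (he : ((e 1 - e 0 : ℤ) : ZMod N) ≠ 0) {η : ℝ} {ν : ZMod N → ℝ} (hLF : LF η (cay e ν))
    (ξ : ZMod N) : ‖ft (fun x => ν x - 1) ξ‖ ^ 4 ≤ 16 * η := by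
  obtain ⟨f, hf⟩ : ∃ f : ZMod N → ℝ, f = fun x => ν x - 1 := ⟨_, rfl⟩
  obtain ⟨d, hd⟩ : ∃ d : ZMod N, d = dv N e (0, 1) := ⟨_, rfl⟩
  have hd0 : d ≠ 0 := by
    rw [hd]
    exact inv_ne_zero he
  obtain ⟨χ, hχ⟩ : ∃ χ : ZMod N → ℂ, χ = fun v => ZMod.stdAddChar (-(v * d * ξ)) := ⟨_, rfl⟩
  have hχ1 : ∀ v, ‖χ v‖ = 1 := fun v => by
    rw [hχ]
    exact AddChar.norm_apply _ _
  obtain ⟨g, hg⟩ : ∃ g : ZMod N × ZMod N → ℝ, g = fun z =>
      (χ z.1 * (starRingEnd ℂ) (χ z.2)).re := ⟨_, rfl⟩
  have hg1 : ∀ z, g z ^ 2 ≤ 1 := fun z => by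
    have h1 : |g z| ≤ 1 := by
      rw [hg]
      refine (Complex.abs_re_le_norm _).trans ?_
      rw [norm_mul, RCLike.norm_conj, hχ1, hχ1, mul_one]
    rw [← sq_abs]
    exact pow_le_one₀ (abs_nonneg _) h1
  have h1 : ∀ u, ‖ft f ξ‖ ^ 2 =
      av (fun z : ZMod N × ZMod N => g z * (f ((z.1 - u) * d) * f ((z.2 - u) * d))) := by
    intro u
    have h2 := norm_sum_sq (fun v => f ((v - u) * d)) χ
    rw [hg]
    rw [← h2]
    have h3 : ft f ξ = ZMod.stdAddChar (u * d * ξ) *
        ((∑ v, (f ((v - u) * d) : ℂ) * χ v) / (N : ℂ)) := by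
      unfold ft
      rw [← mul_div_assoc, mul_sum]
      congr 1
      rw [← Equiv.sum_comp ((Equiv.subRight u).trans (Equiv.mulRight₀ d hd0))]
      refine sum_congr rfl fun v _ => ?_
      have e1 : ((Equiv.subRight u).trans (Equiv.mulRight₀ d hd0)) v = (v - u) * d := rfl
      rw [e1, hχ]
      have e2 : (ZMod.stdAddChar (-((v - u) * d * ξ)) : ℂ) =
          ZMod.stdAddChar (u * d * ξ) * ZMod.stdAddChar (-(v * d * ξ)) := by
        rw [← AddChar.map_add_eq_mul]
        congr 1
        ring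
      rw [e2]
      ring
    rw [h3, norm_mul, AddChar.norm_apply, one_mul]
  obtain ⟨K, hK⟩ : ∃ K : ZMod N × ZMod N → ℝ, K = fun z =>
      av (fun u => f ((z.1 - u) * d) * f ((z.2 - u) * d)) := ⟨_, rfl⟩
  have h2 : ‖ft f ξ‖ ^ 2 = av (fun z => g z * K z) := by
    have h3 : ‖ft f ξ‖ ^ 2 = av (fun _ : ZMod N => ‖ft f ξ‖ ^ 2) := (av_const _).symm
    rw [h3]
    have h4 : (fun _ : ZMod N => ‖ft f ξ‖ ^ 2) = fun u =>
        av (fun z : ZMod N × ZMod N => g z * (f ((z.1 - u) * d) * f ((z.2 - u) * d))) :=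
      funext fun u => h1 u
    rw [h4, av_comm, hK]
    congr 1
    funext z
    exact av_mul_left _ _
  have h3 : ‖ft f ξ‖ ^ 4 ≤ av (fun z => K z ^ 2) := by
    have h4 := av_cs g K
    rw [← h2] at h4
    have h5 : av (fun z => g z ^ 2) ≤ 1 := av_le_of_le hg1
    have h6 : 0 ≤ av (fun z => K z ^ 2) := av_nonneg fun z => sq_nonneg _
    calc ‖ft f ξ‖ ^ 4 = (‖ft f ξ‖ ^ 2) ^ 2 := by ring
      _ ≤ av (fun z => g z ^ 2) * av (fun z => K z ^ 2) := h4
      _ ≤ 1 * av (fun z => K z ^ 2) := mul_le_mul_of_nonneg_right h5 h6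
      _ = av (fun z => K z ^ 2) := one_mul _
  have h4 : av (fun z => K z ^ 2) = av (fun x : V → ZMod N =>
      (f ((x (1, false) - x (0, false)) * d) * f ((x (1, true) - x (0, false)) * d)) *
        (f ((x (1, false) - x (0, true)) * d) * f ((x (1, true) - x (0, true)) * d))) := by
    have h5 := av_four (fun v v' u u' : ZMod N => (f ((v - u) * d) * f ((v' - u) * d)) *
      (f ((v - u') * d) * f ((v' - u') * d)))
    rw [h5, av_prod]
    congr 1
    funext v
    congr 1
    funext v'
    rw [hK, sq, ← av_mul_right]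
    congr 1
    funext u
    rw [← av_mul_left]
  have h5 := box hLF (e := (0, 1)) (by decide) ∅ (empty_subset _) (fun s hs => absurd hs
    (notMem_empty s))
  have h6 : ∀ x : V → ZMod N, (∏ c : Bool × Bool, (cay e ν (0, 1) (x ((0, 1).1, c.1))
      (x ((0, 1).2, c.2)) - 1)) * ∏ s ∈ (∅ : Finset DE), cay e ν s.1 (x (src s)) (x (tgt s)) =
      (f ((x (1, false) - x (0, false)) * d) * f ((x (1, true) - x (0, false)) * d)) *
        (f ((x (1, false) - x (0, true)) * d) * f ((x (1, true) - x (0, true)) * d)) := by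
    intro x
    rw [prod_empty, mul_one, Fintype.prod_prod_type, Fintype.prod_bool, Fintype.prod_bool,
      Fintype.prod_bool, hf]
    unfold cay
    rw [← hd]
    ring
  simp only [h6] at h5
  rw [← h4] at h5
  rw [← hf]
  exact h3.trans ((le_abs_self _).trans h5)

end Pool.Agent.Work.MP_70e905_nt.PK
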