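import Pool.Agent.Work.MP_70e905_nt.PK.RMain
import Pool.Agent.Work.MP_70e905_nt.PK.DMod
import Pool.Agent.Work.MP_70e905_nt.PK.FtNu
import Pool.Agent.Work.MP_70e905_nt.PK.Count

/-!
# PK/Main (size S-M): the relative theorem for the pattern `K₄`

PROOF. `dense` for `δ / 2` gives `c₀`; `rel_count` for `c₀ / 2` gives `η₁`; `κ = min (δ / 2) η₁`; `dense_model` for `κ` gives `η₂`; `c = c₀ / 2`, `η = min η₁ (η₂^4 / 16)`. Given `ν`, `f`: `ft_nu` and `16 η ≤ η₂^4` give `‖ft (ν - 1) ξ‖ ≤ η₂`, `dense_model` gives `h`;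
`av h ≥ av f - κ ≥ δ / 2` (`ft_zero` for `f - h`), so `c₀ ≤ tK (cay e h)`; `rel_count` for `cay e ν`, `cay e f`, `cay e h` (`cut_of_ft` for `f - h`, `dv ≠ 0`; `LF` is monotone in `η`) gives `tK (cay e f) ≥ c₀ - c₀ / 2`. (`(0, 1) ∈ P` for the hypothesis of `ft_nu`.)
-/

set_option autoImplicit false

namespace Pool.Agent.Work.MP_70e905_nt.PK

open Finset

/-- **Relative theorem.** If `0 ≤ f ≤ ν`, the mean of `f` is at least `δ` and `ν` satisfies the linear forms condition for the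
doubled `K₄`, then `f` has density at least `c(δ)` of the patterns `(x₁, .., x₄)` with all six
`(x_j - x_i) / (e_j - e_i)` weighted by `f`. -/
theorem relative (δ : ℝ) (hδ : 0 < δ) : ∃ η c : ℝ, 0 < η ∧ 0 < c ∧ ∀ (N : ℕ) [NeZero N]
    [Fact N.Prime] (e : Fin 4 → ℤ), (∀ p ∈ P, ((e p.2 - e p.1 : ℤ) : ZMod N) ≠ 0) →
    ∀ f ν : ZMod N → ℝ, (∀ x, 0 ≤ f x ∧ f x ≤ ν x) → LF η (cay e ν) → δ ≤ av f →
      c ≤ tK (cay e f) := by
  obtain ⟨c₀, hc₀, hdense⟩ := dense (δ / 2) (half_pos hδ)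
  obtain ⟨η₁, hη₁, -, hcount⟩ := rel_count (c₀ / 2) (half_pos hc₀)
  obtain ⟨κ, hκd⟩ : ∃ κ, κ = min (δ / 2) η₁ := ⟨_, rfl⟩
  have hκ : 0 < κ := by rw [hκd]; exact lt_min (half_pos hδ) hη₁
  have hκδ : κ ≤ δ / 2 := by rw [hκd]; exact min_le_left _ _
  have hκη : κ ≤ η₁ := by rw [hκd]; exact min_le_right _ _
  obtain ⟨η₂, hη₂, hmodel⟩ := dense_model κ hκ
  refine ⟨min η₁ (η₂ ^ 4 / 16), c₀ / 2, lt_min hη₁ (by positivity), half_pos hc₀, ?_⟩
  intro N _ _ e he f ν hf hLF hav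
  have hLF1 : LF η₁ (cay e ν) := fun S hS => (hLF S hS).trans (min_le_left _ _)
  have hft : ∀ ξ, ‖ft (fun x => ν x - 1) ξ‖ ≤ η₂ := by
    intro ξ
    have h1 := ft_nu (he (0, 1) (by decide)) hLF ξ
    have h2 : 16 * min η₁ (η₂ ^ 4 / 16) ≤ η₂ ^ 4 := by
      have := min_le_right η₁ (η₂ ^ 4 / 16)
      linarith
    exact le_of_pow_le_pow_left₀ (by norm_num) hη₂.le (h1.trans h2)
  obtain ⟨h, hh, hfh⟩ := hmodel N f ν hf hft
  have hfh1 : ∀ ξ, ‖ft (fun x => f x - h x) ξ‖ ≤ η₁ := fun ξ => (hfh ξ).trans hκη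
  have havh : δ / 2 ≤ av h := by
    have h1 := hfh 0
    rw [ft_zero, av_sub, Complex.norm_real, Real.norm_eq_abs] at h1
    have h2 := (abs_le.1 h1).2
    linarith
  have hd := hdense N e he h hh havh
  have hdv : ∀ p ∈ P, dv N e p ≠ 0 := fun p hp => inv_ne_zero (he p hp)
  have hc := hcount (ZMod N) (cay e ν) (cay e f) (cay e h)
    (fun p u v => ((hf _).1.trans (hf _).2)) (fun p _ u v => hf _) (fun p _ u v => hh _) hLF1
    (fun p hp => cut_of_ft hfh1 (hdv p hp))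
  have := (abs_le.1 hc).1
  linarith

end Pool.Agent.Work.MP_70e905_nt.PK
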