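import Pool.Agent.Work.MP_70e905_nt.PK.Bas

/-!
# PK/Ft (size M): Fourier analysis on `ZMod N`

PROOF. Orthogonality: `∑ x : ZMod N, stdAddChar (x * a) = if a = 0 then N else 0` (`AddChar.sum_mulShift` with `ZMod.isPrimitive_stdAddChar`, or `AddChar.sum_eq_ite`); `stdAddChar (a + b) = stdAddChar a * stdAddChar b`
(`AddChar.map_add_eq_mul`), `‖stdAddChar a‖ = 1` (`AddChar.norm_apply`), `conj (stdAddChar a) = stdAddChar (-a)` (`AddChar.map_neg_eq_conj`). Inversion: exchange the sums. Plancherel `av_mul`: insert the inversion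
formula for `g` in `(1/N) ∑ f x * g x` (`g` real, so `g x = conj (g x)`). Convolution: substitute `x = y + z`. The rest is routine.
-/

set_option autoImplicit false

namespace Pool.Agent.Work.MP_70e905_nt.PK

open Finset

variable {N : ℕ} [NeZero N]

private theorem orth (b : ZMod N) :
    ∑ ξ : ZMod N, (ZMod.stdAddChar (ξ * b) : ℂ) = if b = 0 then (N : ℂ) else 0 := by
  rw [AddChar.sum_mulShift b (ZMod.isPrimitive_stdAddChar N), ZMod.card]
  split_ifs <;> simp

private theorem N_ne : (N : ℂ) ≠ 0 := by exact_mod_cast NeZero.ne N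

theorem ft_inv (f : ZMod N → ℝ) (x : ZMod N) :
    (f x : ℂ) = ∑ ξ, ft f ξ * ZMod.stdAddChar (x * ξ) := by
  have h1 : ∀ ξ : ZMod N, ft f ξ * ZMod.stdAddChar (x * ξ) =
      ∑ y, (f y : ℂ) / N * ZMod.stdAddChar (ξ * (x - y)) := by
    intro ξ
    unfold ft
    rw [div_mul_eq_mul_div, sum_mul, sum_div]
    refine sum_congr rfl fun y _ => ?_
    have e : ξ * (x - y) = -(y * ξ) + x * ξ := by ring
    rw [e, AddChar.map_add_eq_mul]
    ring
  rw [sum_congr rfl fun ξ _ => h1 ξ, sum_comm]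
  have h2 : ∀ y : ZMod N, ∑ ξ : ZMod N, (f y : ℂ) / N * ZMod.stdAddChar (ξ * (x - y)) =
      if x = y then (f y : ℂ) else 0 := by
    intro y
    rw [← mul_sum, orth]
    by_cases h : x = y
    · rw [if_pos (sub_eq_zero.2 h), if_pos h, div_mul_cancel₀ _ N_ne]
    · rw [if_neg (fun h' => h (sub_eq_zero.1 h')), if_neg h, mul_zero]
  rw [sum_congr rfl fun y _ => h2 y, sum_ite_eq univ x, if_pos (mem_univ x)]

theorem ft_av (f g : ZMod N → ℝ) :
    ((av (fun x => f x * g x) : ℝ) : ℂ) = ∑ ξ, ft f ξ * (starRingEnd ℂ) (ft g ξ) := by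
  have h1 : ∀ x : ZMod N, (g x : ℂ) =
      ∑ ξ, (starRingEnd ℂ) (ft g ξ) * ZMod.stdAddChar (-(x * ξ)) := by
    intro x
    have h2 := congrArg (starRingEnd ℂ) (ft_inv g x)
    rw [Complex.conj_ofReal, map_sum] at h2
    rw [h2]
    refine sum_congr rfl fun ξ _ => ?_
    rw [map_mul, AddChar.map_neg_eq_conj]
  unfold av
  rw [ZMod.card]
  push_cast
  have h3 : ∀ x : ZMod N, (f x : ℂ) * (g x : ℂ) =
      ∑ ξ, (f x : ℂ) * ((starRingEnd ℂ) (ft g ξ) * ZMod.stdAddChar (-(x * ξ))) := by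
    intro x
    rw [h1 x, mul_sum]
  rw [sum_congr rfl fun x _ => h3 x, sum_comm, sum_div]
  refine sum_congr rfl fun ξ _ => ?_
  unfold ft
  rw [div_mul_eq_mul_div, sum_mul]
  congr 1
  refine sum_congr rfl fun x _ => ?_
  ring

theorem ft_parseval (f : ZMod N → ℝ) : ∑ ξ, ‖ft f ξ‖ ^ 2 = av (fun x => f x ^ 2) := by
  have h1 := ft_av f f
  have h2 : ∀ ξ : ZMod N, ft f ξ * (starRingEnd ℂ) (ft f ξ) = ((‖ft f ξ‖ ^ 2 : ℝ) : ℂ) := by
    intro ξ
    rw [Complex.mul_conj, Complex.normSq_eq_norm_sq]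
  rw [sum_congr rfl fun ξ _ => h2 ξ, ← Complex.ofReal_sum] at h1
  have h3 := Complex.ofReal_injective h1
  rw [← h3]
  refine congrArg av (funext fun x => ?_)
  ring

theorem ft_cv (f g : ZMod N → ℝ) (ξ : ZMod N) : ft (cv f g) ξ = ft f ξ * ft g ξ := by
  unfold ft cv av
  rw [ZMod.card, div_mul_div_comm, ← div_div]
  congr 1
  rw [sum_mul_sum, sum_div]
  have h1 : ∀ x : ZMod N, (((∑ y, f y * g (x - y)) / (N : ℝ) : ℝ) : ℂ) *
      ZMod.stdAddChar (-(x * ξ)) =
      ∑ y, (f y : ℂ) * (g (x - y) : ℂ) * ZMod.stdAddChar (-(x * ξ)) / N := by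
    intro x
    push_cast
    rw [div_mul_eq_mul_div, sum_mul, sum_div]
  rw [sum_congr rfl fun x _ => h1 x, sum_comm]
  refine sum_congr rfl fun y _ => ?_
  rw [sum_div]
  refine Fintype.sum_equiv (Equiv.subRight y) _ _ fun x => ?_
  have e : -(x * ξ) = -(y * ξ) + -((x - y) * ξ) := by ring
  rw [Equiv.subRight_apply, e, AddChar.map_add_eq_mul]
  ring

theorem ft_zero (f : ZMod N → ℝ) : ft f 0 = ((av f : ℝ) : ℂ) := by
  unfold ft av
  rw [ZMod.card]
  push_cast
  congr 1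
  refine sum_congr rfl fun x _ => ?_
  rw [mul_zero, neg_zero, AddChar.map_zero_eq_one, mul_one]

theorem ft_sub (f g : ZMod N → ℝ) (ξ : ZMod N) :
    ft (fun x => f x - g x) ξ = ft f ξ - ft g ξ := by
  unfold ft
  rw [← sub_div, ← sum_sub_distrib]
  congr 1
  refine sum_congr rfl fun x _ => ?_
  push_cast
  ring

theorem ft_shift (f : ZMod N → ℝ) (b ξ : ZMod N) :
    ft (fun x => f (x + b)) ξ = ft f ξ * ZMod.stdAddChar (b * ξ) := by
  unfold ft
  rw [div_mul_eq_mul_div, sum_mul]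
  congr 1
  refine Fintype.sum_equiv (Equiv.addRight b) _ _ fun x => ?_
  have e : -(x * ξ) = -((x + b) * ξ) + b * ξ := by ring
  rw [Equiv.coe_addRight, e, AddChar.map_add_eq_mul, mul_assoc]

theorem norm_ft_le (f : ZMod N → ℝ) (ξ : ZMod N) : ‖ft f ξ‖ ≤ av (fun x => |f x|) := by
  unfold ft av
  rw [ZMod.card, norm_div, Complex.norm_natCast]
  refine div_le_div_of_nonneg_right ((norm_sum_le _ _).trans (sum_le_sum fun x _ => ?_))
    (Nat.cast_nonneg _)
  rw [norm_mul, AddChar.norm_apply, mul_one, Complex.norm_real, Real.norm_eq_abs]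

theorem av_cv (f g : ZMod N → ℝ) : av (cv f g) = av f * av g := by
  have h := ft_cv f g 0
  rw [ft_zero, ft_zero, ft_zero, ← Complex.ofReal_mul] at h
  exact Complex.ofReal_injective h

end Pool.Agent.Work.MP_70e905_nt.PK
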