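import Pool.Agent.Work.MP_70e905_nt.PK.Bas

/-!
# PK/Near (size M): near diagonal copies of the pattern

PROOF. Substitute `x j = y j + e j * n` for a fixed `n : ZMod N`: `tK (cay e h) = av_y (∏ p ∈ P, h (n + (y p.2 - y p.1) * dv N e p))` for every `n` (bijection `y ↦ y + e n` of `Fin 4 → ZMod N`; `((y j + e j n) - (y i + e i n)) * (e j - e i)⁻¹ = n + (y j - y i) (e j - e i)⁻¹` because `e j - e i ≠ 0` in the field `ZMod N`),
so `tK (cay e h) = av_y av_n (...)` (`av_const` over `n`, `av_comm`). The terms are nonnegative; keep the `y` with all coordinates in `Y` (they are `|Y|^4` of `N^4`: `Fintype.piFinset`, `Fintype.card_piFinset`). For such `y` with `b p = (y p.2 - y p.1) * dv N e p`: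
`|∏ p, h (n + b p) - ∏ p, g n| ≤ ∑ p ∈ P, |h (n + b p) - g n|` (values in `[0,1]`; induction over `P`), so the mean over `n` is at least `av (g^6) - 6 ε ≥ (av g)^6 - 6 ε` (`P.card = 6`; Jensen: `inner_le_nnorm_mul_nnorm`/`Finset` power mean inequality `inner`.. or `av_sq_le` and
`(av g)^6 ≤ (av (g^3))^2`, `(av g)^3 ≤ av (g^3)` from `g^3 ≥ 3 m^2 g - 2 m^3` with `m = av g`; directly: `t^6 ≥ m^6 + 6 m^5 (t - m)` for `t, m ≥ 0`).
-/

set_option autoImplicit false

namespace Pool.Agent.Work.MP_70e905_nt.PK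

open Finset

private theorem prod_diff {ι : Type*} (s : Finset ι) (a b : ι → ℝ)
    (ha : ∀ i, 0 ≤ a i ∧ a i ≤ 1) (hb : ∀ i, 0 ≤ b i ∧ b i ≤ 1) :
    |∏ i ∈ s, a i - ∏ i ∈ s, b i| ≤ ∑ i ∈ s, |a i - b i| := by
  classical
  induction s using Finset.induction_on with
  | empty => simp
  | insert i s hi ih =>
    rw [prod_insert hi, prod_insert hi, sum_insert hi]
    have h1 : a i * ∏ j ∈ s, a j - b i * ∏ j ∈ s, b j =
        (a i - b i) * ∏ j ∈ s, a j + b i * (∏ j ∈ s, a j - ∏ j ∈ s, b j) := by ring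
    rw [h1]
    refine (abs_add_le _ _).trans (add_le_add ?_ ?_)
    · rw [abs_mul]
      refine mul_le_of_le_one_right (abs_nonneg _) ?_
      rw [abs_of_nonneg (prod_nonneg fun j _ => (ha j).1)]
      exact prod_le_one (fun j _ => (ha j).1) fun j _ => (ha j).2
    · rw [abs_mul, abs_of_nonneg (hb i).1]
      exact (mul_le_of_le_one_left (abs_nonneg _) (hb i).2).trans ih

private theorem pow_six {X : Type*} [Fintype X] [Nonempty X] {g : X → ℝ} (hg : ∀ x, 0 ≤ g x) :
    av g ^ 6 ≤ av (fun x => g x ^ 6) := by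
  have hm : 0 ≤ av g := av_nonneg hg
  set m := av g with hmd
  have h1 : av (fun x => m ^ 6 + (6 * m ^ 5 * g x - 6 * m ^ 5 * m)) ≤ av (fun x => g x ^ 6) := by
    refine av_mono fun x => ?_
    have h2 : g x ^ 6 - (m ^ 6 + (6 * m ^ 5 * g x - 6 * m ^ 5 * m)) =
        (g x - m) ^ 2 * (g x ^ 4 + 2 * g x ^ 3 * m + 3 * g x ^ 2 * m ^ 2 + 4 * g x * m ^ 3 +
          5 * m ^ 4) := by ring
    have hx := hg x
    have h3 : 0 ≤ (g x - m) ^ 2 * (g x ^ 4 + 2 * g x ^ 3 * m + 3 * g x ^ 2 * m ^ 2 +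
        4 * g x * m ^ 3 + 5 * m ^ 4) := by positivity
    linarith
  rw [av_add, av_sub, av_const, av_const, av_mul_left, ← hmd] at h1
  linarith

private theorem card_P : P.card = 6 := by decide

theorem near_diag {N : ℕ} [NeZero N] [Fact N.Prime] {e : Fin 4 → ℤ}
    (he : ∀ p ∈ P, ((e p.2 - e p.1 : ℤ) : ZMod N) ≠ 0) {g h : ZMod N → ℝ}
    (hg : ∀ x, 0 ≤ g x ∧ g x ≤ 1) (hh : ∀ x, 0 ≤ h x ∧ h x ≤ 1) (Y : Finset (ZMod N)) {ε : ℝ}
    (hY : ∀ p ∈ P, ∀ y ∈ Y, ∀ y' ∈ Y, av (fun n => |h (n + (y' - y) * dv N e p) - g n|) ≤ ε) :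
    ((Y.card : ℝ) / N) ^ 4 * (av g ^ 6 - 6 * ε) ≤ tK (cay e h) := by
  classical
  have hn6 : ∀ y : Fin 4 → ZMod N, (∀ j, y j ∈ Y) →
      av g ^ 6 - 6 * ε ≤ av (fun n => ∏ p ∈ P, h (n + (y p.2 - y p.1) * dv N e p)) := by
    intro y hy
    have h1 : av (fun n => g n ^ 6 - ∑ p ∈ P, |h (n + (y p.2 - y p.1) * dv N e p) - g n|) ≤
        av (fun n => ∏ p ∈ P, h (n + (y p.2 - y p.1) * dv N e p)) := by
      refine av_mono fun n => ?_
      have h2 := prod_diff P (fun p => h (n + (y p.2 - y p.1) * dv N e p)) (fun _ => g n)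
        (fun p => hh _) (fun _ => hg n)
      rw [prod_const, card_P] at h2
      have h3 := (abs_le.1 h2).1
      linarith
    refine le_trans ?_ h1
    rw [av_sub, av_sum]
    have h4 := pow_six (g := g) fun x => (hg x).1
    have h5 : ∑ p ∈ P, av (fun n => |h (n + (y p.2 - y p.1) * dv N e p) - g n|) ≤ 6 * ε := by
      refine (sum_le_sum fun p hp => hY p hp _ (hy p.1) _ (hy p.2)).trans ?_
      rw [sum_const, card_P, nsmul_eq_mul]
      norm_num
    linarith
  have hpos : ∀ y : Fin 4 → ZMod N,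
      0 ≤ av (fun n => ∏ p ∈ P, h (n + (y p.2 - y p.1) * dv N e p)) :=
    fun y => av_nonneg fun n => prod_nonneg fun p _ => (hh _).1
  have htK : tK (cay e h) = av (fun y : Fin 4 → ZMod N =>
      av (fun n => ∏ p ∈ P, h (n + (y p.2 - y p.1) * dv N e p))) := by
    have h1 : ∀ n : ZMod N, tK (cay e h) = av (fun y : Fin 4 → ZMod N =>
        ∏ p ∈ P, h (n + (y p.2 - y p.1) * dv N e p)) := by
      intro n
      unfold tK
      rw [← av_comp (Equiv.addRight (fun j : Fin 4 => (e j : ZMod N) * n))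
        (fun x : Fin 4 → ZMod N => ∏ p ∈ P, cay e h p (x p.1) (x p.2))]
      congr 1
      funext y
      refine prod_congr rfl fun p hp => ?_
      simp only [cay, Equiv.coe_addRight, Pi.add_apply]
      congr 1
      have h2 := he p hp
      have h3 : ((e p.2 - e p.1 : ℤ) : ZMod N) * dv N e p = 1 := mul_inv_cancel₀ h2
      push_cast at h3
      linear_combination n * h3
    rw [← av_comm]
    have h2 : (fun n : ZMod N => av (fun y : Fin 4 → ZMod N =>
        ∏ p ∈ P, h (n + (y p.2 - y p.1) * dv N e p))) = fun _ => tK (cay e h) := by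
      funext n
      exact (h1 n).symm
    rw [h2, av_const]
  rw [htK]
  have hlow : av (fun y : Fin 4 → ZMod N =>
      if y ∈ Fintype.piFinset (fun _ : Fin 4 => Y) then av g ^ 6 - 6 * ε else 0) ≤
      av (fun y : Fin 4 → ZMod N =>
        av (fun n => ∏ p ∈ P, h (n + (y p.2 - y p.1) * dv N e p))) := by
    refine av_mono fun y => ?_
    split_ifs with hy
    · exact hn6 y (Fintype.mem_piFinset.1 hy)
    · exact hpos y
  refine le_trans (le_of_eq ?_) hlow
  unfold av
  rw [sum_ite_mem, univ_inter, sum_const, nsmul_eq_mul, Fintype.card_piFinset]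
  simp only [prod_const, card_univ, Fintype.card_fin, Fintype.card_fun, ZMod.card, Nat.cast_pow,
    div_pow]
  ring

end Pool.Agent.Work.MP_70e905_nt.PK
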