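import Pool.Agent.Work.MP_70e905_nt.PK.Defs

/-!
# PK/Pig (size S-M): the energy pigeonhole

PROOF. For every `i : ι`: `∑ k ∈ range K, (b k i ^ 2 - b (k+1) i ^ 2)^2 ≤ 4 ε² K + 2`. Indeed let `k₀` be the least `k` with `ε ≤ |b k i|` (if there is none `≤ K`, all terms are `≤ ε⁴ ≤ 4 ε²` since `0 ≤ b² < ε²`, `ε ≤ 1`). For `k + 1 < k₀` the term is `≤ ε⁴ ≤ 4 ε²`; for `k > k₀` both
`b k i` and `b (k+1) i` are in `[1 - ε, 1]` by `hb2`, their squares are in `[1 - 2ε, 1]`, the term is `≤ 4 ε²`; the terms `k = k₀ - 1` and `k = k₀` are `≤ 1`. Multiply by `a i`, sum over `i` and exchange: `∑ k ∈ range K, ∑ i, a i * (..)^2 ≤ 4 ε² K + 2`, so some `k < K` has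
`∑ i, a i * (..)^2 ≤ 4 ε² + 2 / K` (`Finset.exists_le_of_sum_le`).
-/

set_option autoImplicit false

namespace Pool.Agent.Work.MP_70e905_nt.PK

open Finset

private theorem one_line {ε : ℝ} (hε0 : 0 < ε) (hε1 : ε ≤ 1) (c : ℕ → ℝ) (hb1 : ∀ k, |c k| ≤ 1)
    (hb2 : ∀ k m, k < m → ε ≤ |c k| → |c m - 1| ≤ ε) (K : ℕ) :
    ∑ k ∈ range K, (c k ^ 2 - c (k + 1) ^ 2) ^ 2 ≤ 4 * ε ^ 2 * K + 2 := by
  classical
  have hsmall : ∀ k, |c k| < ε → |c (k + 1)| < ε → (c k ^ 2 - c (k + 1) ^ 2) ^ 2 ≤ 4 * ε ^ 2 := by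
    intro k h1 h2
    have h3 : c k ^ 2 ≤ ε ^ 2 := by
      rw [← sq_abs]
      exact pow_le_pow_left₀ (abs_nonneg _) h1.le 2
    have h4 : c (k + 1) ^ 2 ≤ ε ^ 2 := by
      rw [← sq_abs]
      exact pow_le_pow_left₀ (abs_nonneg _) h2.le 2
    have h5 := sq_nonneg (c k)
    have h6 := sq_nonneg (c (k + 1))
    have h7 : ε ^ 2 ≤ 1 := by nlinarith
    have h8 : |c k ^ 2 - c (k + 1) ^ 2| ≤ ε ^ 2 := by
      rw [abs_le]
      constructor <;> linarith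
    have h9 : (c k ^ 2 - c (k + 1) ^ 2) ^ 2 ≤ (ε ^ 2) ^ 2 := by
      rw [← sq_abs (c k ^ 2 - c (k + 1) ^ 2)]
      exact pow_le_pow_left₀ (abs_nonneg _) h8 2
    nlinarith [sq_nonneg ε]
  have hone : ∀ k, (c k ^ 2 - c (k + 1) ^ 2) ^ 2 ≤ 1 := by
    intro k
    have h3 : c k ^ 2 ≤ 1 := by
      rw [← sq_abs]
      exact pow_le_one₀ (abs_nonneg _) (hb1 k)
    have h4 : c (k + 1) ^ 2 ≤ 1 := by
      rw [← sq_abs]
      exact pow_le_one₀ (abs_nonneg _) (hb1 (k + 1))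
    have h5 := sq_nonneg (c k)
    have h6 := sq_nonneg (c (k + 1))
    have h8 : |c k ^ 2 - c (k + 1) ^ 2| ≤ 1 := by
      rw [abs_le]
      constructor <;> linarith
    rw [← sq_abs (c k ^ 2 - c (k + 1) ^ 2)]
    exact pow_le_one₀ (abs_nonneg _) h8
  by_cases hex : ∃ k, ε ≤ |c k|
  · obtain ⟨k₀, hk₀, hmin⟩ : ∃ k₀, ε ≤ |c k₀| ∧ ∀ k < k₀, |c k| < ε :=
      ⟨Nat.find hex, Nat.find_spec hex, fun k hk => not_le.1 (Nat.find_min hex hk)⟩
    have hterm : ∀ k, (c k ^ 2 - c (k + 1) ^ 2) ^ 2 ≤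
        4 * ε ^ 2 + ((if k = k₀ - 1 then 1 else 0) + (if k = k₀ then 1 else 0)) := by
      intro k
      have hn : (0 : ℝ) ≤ 4 * ε ^ 2 := by positivity
      by_cases h1 : k + 1 < k₀
      · have := hsmall k (hmin k (by omega)) (hmin (k + 1) h1)
        rw [if_neg (by omega), if_neg (by omega)]
        linarith
      by_cases h2 : k₀ < k
      · have h3 := hb2 k₀ k h2 hk₀
        have h4 := hb2 k₀ (k + 1) (by omega) hk₀
        have h5 := hb1 k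
        have h6 := hb1 (k + 1)
        rw [abs_le] at h3 h4 h5 h6
        rw [if_neg (by omega), if_neg (by omega)]
        have h7 : |c k ^ 2 - c (k + 1) ^ 2| ≤ 2 * ε := by
          rw [abs_le]
          constructor <;> nlinarith
        have h8 : (c k ^ 2 - c (k + 1) ^ 2) ^ 2 ≤ (2 * ε) ^ 2 := by
          rw [← sq_abs (c k ^ 2 - c (k + 1) ^ 2)]
          exact pow_le_pow_left₀ (abs_nonneg _) h7 2
        nlinarith
      · have h3 := hone k
        rcases (by omega : k = k₀ - 1 ∨ k = k₀) with h4 | h4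
        · rw [if_pos h4]
          split_ifs <;> linarith
        · rw [if_pos h4]
          split_ifs <;> linarith
    refine (Finset.sum_le_sum fun k _ => hterm k).trans ?_
    rw [Finset.sum_add_distrib, Finset.sum_const, card_range, nsmul_eq_mul,
      Finset.sum_add_distrib, Finset.sum_ite_eq', Finset.sum_ite_eq']
    split_ifs <;> linarith
  · push Not at hex
    refine (Finset.sum_le_sum fun k _ => hsmall k (hex k) (hex (k + 1))).trans ?_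
    rw [Finset.sum_const, card_range, nsmul_eq_mul]
    linarith

theorem pigeon {ι : Type*} [Fintype ι] {ε : ℝ} (hε0 : 0 < ε) (hε1 : ε ≤ 1) (a : ι → ℝ)
    (ha : ∀ i, 0 ≤ a i) (ha1 : ∑ i, a i ≤ 1) (b : ℕ → ι → ℝ) (hb1 : ∀ k i, |b k i| ≤ 1)
    (hb2 : ∀ k m i, k < m → ε ≤ |b k i| → |b m i - 1| ≤ ε) {K : ℕ} (hK : 0 < K) :
    ∃ k < K, ∑ i, a i * (b k i ^ 2 - b (k + 1) i ^ 2) ^ 2 ≤ 4 * ε ^ 2 + 2 / K := by
  have hK' : (0 : ℝ) < K := by exact_mod_cast hK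
  have h1 : ∑ k ∈ range K, ∑ i, a i * (b k i ^ 2 - b (k + 1) i ^ 2) ^ 2 ≤
      ∑ _k ∈ range K, (4 * ε ^ 2 + 2 / K : ℝ) := by
    rw [Finset.sum_comm, Finset.sum_const, card_range, nsmul_eq_mul]
    have h2 : ∀ i, ∑ k ∈ range K, a i * (b k i ^ 2 - b (k + 1) i ^ 2) ^ 2 ≤
        a i * (4 * ε ^ 2 * K + 2) := by
      intro i
      rw [← Finset.mul_sum]
      exact mul_le_mul_of_nonneg_left (one_line hε0 hε1 (fun k => b k i) (fun k => hb1 k i)
        (fun k m h => hb2 k m i h) K) (ha i)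
    refine (Finset.sum_le_sum fun i _ => h2 i).trans ?_
    rw [← Finset.sum_mul]
    have h3 : (0 : ℝ) ≤ 4 * ε ^ 2 * K + 2 := by positivity
    calc (∑ i, a i) * (4 * ε ^ 2 * K + 2) ≤ 1 * (4 * ε ^ 2 * K + 2) :=
          mul_le_mul_of_nonneg_right ha1 h3
      _ = K * (4 * ε ^ 2 + 2 / K) := by
          field_simp
  obtain ⟨k, hk, h⟩ := Finset.exists_le_of_sum_le (nonempty_range_iff.2 hK.ne') h1
  exact ⟨k, mem_range.1 hk, h⟩

end Pool.Agent.Work.MP_70e905_nt.PK
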