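import Pool.Agent.Work.MP_70e905_nt.PK.RStep
import Pool.Agent.Work.MP_70e905_nt.PK.Pig

/-!
# PK/RMain (size S-M): the dense theorem

PROOF. We may take `δ ≤ 1` (replace it by `min δ 1`). `ε = δ^6 / 100`, `K = ⌈1 / ε²⌉₊` (positive), `c = min` over `k < K` of `dn ε (par δ ε k) ^ 4 * δ^6 / 2` (positive; `Finset.exists_min_image` on `range K`, or `Finset.inf'`). For `N`, `g` apply `pigeon` with `ι = ZMod N`, `a ξ = ‖ft g ξ‖ ^ 2` (sum `= av (g²) ≤ 1`, `ft_parseval`),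
`b k ξ = bs (lam δ ε g k) (par δ ε k).2 ξ`: `|b k ξ| ≤ 1` (`abs_bs`, `par_pos`), and if `ε ≤ |b k ξ|` then `ξ ∈ spec ε (bt ..) ⊆ lam (k+1) ⊆ lam m`, so `|b m ξ - 1| ≤ (par δ ε m).2 ≤ ε` (`bs_near`, `par_le`, `par_anti`). We get `k < K` with the sum `≤ 4 ε² + 2 / K ≤ 6 ε² ≤ (3 ε)^2`; `r_step`.
-/

set_option autoImplicit false

namespace Pool.Agent.Work.MP_70e905_nt.PK

open Finset

theorem dense (δ : ℝ) (hδ : 0 < δ) : ∃ c : ℝ, 0 < c ∧ ∀ (N : ℕ) [NeZero N] [Fact N.Prime]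
    (e : Fin 4 → ℤ), (∀ p ∈ P, ((e p.2 - e p.1 : ℤ) : ZMod N) ≠ 0) →
    ∀ g : ZMod N → ℝ, (∀ x, 0 ≤ g x ∧ g x ≤ 1) → δ ≤ av g → c ≤ tK (cay e g) := by
  obtain ⟨d, hd⟩ : ∃ d, d = min δ 1 := ⟨_, rfl⟩
  have hd0 : 0 < d := by rw [hd]; exact lt_min hδ one_pos
  have hd1 : d ≤ 1 := by rw [hd]; exact min_le_right _ _
  have hdδ : d ≤ δ := by rw [hd]; exact min_le_left _ _
  obtain ⟨ε, hε⟩ : ∃ ε, ε = d ^ 6 / 100 := ⟨_, rfl⟩
  have hε0 : 0 < ε := by rw [hε]; positivity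
  have hε1 : ε ≤ 1 := by
    have : d ^ 6 ≤ 1 := pow_le_one₀ hd0.le hd1
    rw [hε]; linarith
  obtain ⟨K, hK⟩ : ∃ K, K = ⌈1 / ε ^ 2⌉₊ := ⟨_, rfl⟩
  have hKpos : 0 < K := by rw [hK]; exact Nat.ceil_pos.2 (by positivity)
  have hne : (range K).Nonempty := nonempty_range_iff.2 hKpos.ne'
  obtain ⟨k₀, -, hmin⟩ := exists_min_image (range K)
    (fun k => dn ε (par d ε k) ^ 4 * d ^ 6 / 2) hne
  refine ⟨dn ε (par d ε k₀) ^ 4 * d ^ 6 / 2, ?_, ?_⟩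
  · have := dn_pos (ε := ε) (par d ε k₀)
    positivity
  intro N _ _ e he g hg hav
  have hpos : ∀ k, 0 < (par d ε k).2 := fun k => par_pos hd0 hε0 k
  have ha1 : ∑ ξ, ‖ft g ξ‖ ^ 2 ≤ 1 := by
    rw [ft_parseval]
    refine av_le_of_le fun x => ?_
    exact pow_le_one₀ (hg x).1 (hg x).2
  have hb2 : ∀ k m (ξ : ZMod N), k < m → ε ≤ |bs (lam d ε g k) (par d ε k).2 ξ| →
      |bs (lam d ε g m) (par d ε m).2 ξ - 1| ≤ ε := by
    intro k m ξ hkm hξ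
    have h1 : ξ ∈ spec ε (bt (lam d ε g k) (par d ε k).2) := by
      unfold spec
      rw [mem_filter]
      refine ⟨mem_univ _, ?_⟩
      rw [ft_bt (hpos k).le, Complex.norm_real, Real.norm_eq_abs]
      exact hξ
    have h2 : ξ ∈ lam d ε g (k + 1) := by
      unfold lam
      rw [mem_union, mem_union]
      exact Or.inl (Or.inr h1)
    have h3 : ξ ∈ lam d ε g m := lam_mono hkm h2
    exact ((bs_near (hpos m).le h3).trans (par_anti hkm)).trans par_le.1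
  obtain ⟨k, hkK, hk⟩ := pigeon hε0 hε1 (fun ξ : ZMod N => ‖ft g ξ‖ ^ 2)
    (fun ξ => sq_nonneg _) ha1 (fun k ξ => bs (lam d ε g k) (par d ε k).2 ξ)
    (fun k ξ => abs_bs (hpos k).le ξ) hb2 hKpos
  refine (hmin k (mem_range.2 hkK)).trans ?_
  refine r_step hd0 hd1 hε0 hε.le he hg (hdδ.trans hav) k (hk.trans ?_)
  have hKr : 1 / ε ^ 2 ≤ (K : ℝ) := by rw [hK]; exact Nat.le_ceil _
  have hKp : (0 : ℝ) < K := by exact_mod_cast hKpos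
  have h2 : 2 / (K : ℝ) ≤ 2 * ε ^ 2 := by
    rw [div_le_iff₀ hKp]
    have h3 : 1 ≤ (K : ℝ) * ε ^ 2 := by
      rwa [div_le_iff₀ (by positivity)] at hKr
    nlinarith
  nlinarith [sq_nonneg ε]

end Pool.Agent.Work.MP_70e905_nt.PK
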