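import Pool.Agent.Work.MP_70e905_nt.PK.Sm
import Pool.Agent.Work.MP_70e905_nt.PK.Spec

/-!
# PK/RPar (size S-M): the sequence of Bohr sets

`par δ ε k = (r, ρ)`: bound for the number of frequencies and radius of the `k`-th Bohr set; `dn δ ε k` = lower bound for the density of the set `Y` of the `k`-th step; `tt δ ε k` = the Fourier precision of the `k`-th step. `lam` = the frequencies for a function `g`.

PROOF. `par_pos`, `tt_pos`: induction, `bl_pos`. `card_lam`: induction; `card_spec_sq` for `bt` with `av (bt²) = ∑ bs² ≤ 1 / bl` (`ft_parseval`, `ft_bt`, `sum_bs`, `bl_anti`), so `(spec ε (bt ..)).card ≤ 1 / (bl r ρ * ε²) ≤ ⌈..⌉₊`; `card_spec_sq` for `g` with `av (g²) ≤ 1`.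
`card_spec_bt` is the first bound. `lam_mono`, `rad_anti`: clear. `sub_lam`: `spec ε (bt (lam k) (ρ k)) ⊆ lam (k+1) ⊆ lam m`, `spec (tt k) g ⊆ lam (k+1)`.
-/

set_option autoImplicit false

namespace Pool.Agent.Work.MP_70e905_nt.PK

open Finset

/-- number of frequencies of a large spectrum of the normalised Bohr set -/
noncomputable def mm (ε : ℝ) (q : ℕ × ℝ) : ℕ := ⌈1 / (bl q.1 q.2 * ε ^ 2)⌉₊

/-- density of the near diagonal set -/
noncomputable def dn (ε : ℝ) (q : ℕ × ℝ) : ℝ := bl (6 * mm ε q) (ε / 2)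

/-- Fourier precision -/
noncomputable def tt (δ ε : ℝ) (q : ℕ × ℝ) : ℝ := dn ε q ^ 4 * δ ^ 6 / 100

/-- number of frequencies and radius of the `k`-th Bohr set -/
noncomputable def par (δ ε : ℝ) : ℕ → ℕ × ℝ
  | 0 => (0, 1)
  | k + 1 => ((par δ ε k).1 + mm ε (par δ ε k) + ⌈1 / tt δ ε (par δ ε k) ^ 2⌉₊,
      min (par δ ε k).2 (min ε (tt δ ε (par δ ε k) / 2)))

/-- the frequencies of the `k`-th Bohr set -/
noncomputable def lam {N : ℕ} [NeZero N] (δ ε : ℝ) (g : ZMod N → ℝ) : ℕ → Finset (ZMod N)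
  | 0 => ∅
  | k + 1 => lam δ ε g k ∪ spec ε (bt (lam δ ε g k) (par δ ε k).2) ∪
      spec (tt δ ε (par δ ε k)) g

variable {δ ε : ℝ}

private theorem tt_pos' (hδ : 0 < δ) (q : ℕ × ℝ) : 0 < tt δ ε q := by
  have h : 0 < dn ε q := bl_pos _ _
  unfold tt
  positivity

theorem par_pos (hδ : 0 < δ) (hε : 0 < ε) (k : ℕ) : 0 < (par δ ε k).2 := by
  induction k with
  | zero => exact one_pos
  | succ k ih =>
    have h := tt_pos' (ε := ε) hδ (par δ ε k)
    exact lt_min ih (lt_min hε (by positivity))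

theorem dn_pos (q : ℕ × ℝ) : 0 < dn ε q := bl_pos _ _

theorem tt_pos (hδ : 0 < δ) (q : ℕ × ℝ) : 0 < tt δ ε q := tt_pos' hδ q

theorem par_le {k : ℕ} : (par δ ε (k + 1)).2 ≤ ε ∧
    (par δ ε (k + 1)).2 ≤ tt δ ε (par δ ε k) / 2 :=
  ⟨(min_le_right _ _).trans (min_le_left _ _), (min_le_right _ _).trans (min_le_right _ _)⟩

theorem par_anti {k m : ℕ} (h : k ≤ m) : (par δ ε m).2 ≤ (par δ ε k).2 := by
  induction m, h using Nat.le_induction with
  | base => exact le_rfl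
  | succ m _ ih => exact (min_le_left _ _).trans ih

variable {N : ℕ} [NeZero N] {g : ZMod N → ℝ}

theorem lam_mono {k m : ℕ} (h : k ≤ m) : lam δ ε g k ⊆ lam δ ε g m := by
  induction m, h using Nat.le_induction with
  | base => exact Subset.rfl
  | succ m _ ih =>
    exact ih.trans (subset_union_left.trans subset_union_left)

private theorem spec_bt_aux (hε : 0 < ε) {Λ : Finset (ZMod N)} {q : ℕ × ℝ} (hq : 0 < q.2)
    (hΛ : Λ.card ≤ q.1) : (spec ε (bt Λ q.2)).card ≤ mm ε q := by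
  have h1 := card_spec_sq (bt Λ q.2) hε
  have h2 : av (fun x => bt Λ q.2 x ^ 2) ≤ 1 / bl q.1 q.2 := by
    rw [← ft_parseval]
    have h3 : ∀ ξ, ‖ft (bt Λ q.2) ξ‖ ^ 2 = bs Λ q.2 ξ ^ 2 := fun ξ => by
      rw [ft_bt hq.le, Complex.norm_real, Real.norm_eq_abs, sq_abs]
    simp only [h3]
    refine (sum_bs Λ hq).trans ?_
    exact one_div_le_one_div_of_le (bl_pos _ _) (bl_anti hΛ q.2)
  have h3 : ((spec ε (bt Λ q.2)).card : ℝ) ≤ 1 / (bl q.1 q.2 * ε ^ 2) := by
    refine h1.trans ?_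
    rw [← div_div]
    exact div_le_div_of_nonneg_right h2 (by positivity)
  unfold mm
  exact_mod_cast h3.trans (Nat.le_ceil _)

theorem card_lam (hδ : 0 < δ) (hε : 0 < ε) (hg : ∀ x, 0 ≤ g x ∧ g x ≤ 1) (k : ℕ) :
    (lam δ ε g k).card ≤ (par δ ε k).1 := by
  induction k with
  | zero => exact le_of_eq card_empty
  | succ k ih =>
    have h1 := spec_bt_aux (N := N) hε (par_pos hδ hε k) ih
    have h2 : (spec (tt δ ε (par δ ε k)) g).card ≤ ⌈1 / tt δ ε (par δ ε k) ^ 2⌉₊ := by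
      have h3 := card_spec_sq g (tt_pos (ε := ε) hδ (par δ ε k))
      have h4 : av (fun x => g x ^ 2) ≤ 1 :=
        av_le_of_le fun x => pow_le_one₀ (hg x).1 (hg x).2
      have h5 : ((spec (tt δ ε (par δ ε k)) g).card : ℝ) ≤ 1 / tt δ ε (par δ ε k) ^ 2 :=
        h3.trans (div_le_div_of_nonneg_right h4 (by positivity))
      exact_mod_cast h5.trans (Nat.le_ceil _)
    calc (lam δ ε g (k + 1)).card ≤ (lam δ ε g k ∪ spec ε (bt (lam δ ε g k) (par δ ε k).2)).card +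
          (spec (tt δ ε (par δ ε k)) g).card := card_union_le _ _
      _ ≤ (lam δ ε g k).card + (spec ε (bt (lam δ ε g k) (par δ ε k).2)).card +
          (spec (tt δ ε (par δ ε k)) g).card := by
          have := card_union_le (lam δ ε g k) (spec ε (bt (lam δ ε g k) (par δ ε k).2))
          omega
      _ ≤ (par δ ε k).1 + mm ε (par δ ε k) + ⌈1 / tt δ ε (par δ ε k) ^ 2⌉₊ := by omega

theorem card_spec_bt (hδ : 0 < δ) (hε : 0 < ε) (hg : ∀ x, 0 ≤ g x ∧ g x ≤ 1) (k : ℕ) :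
    (spec ε (bt (lam δ ε g k) (par δ ε k).2)).card ≤ mm ε (par δ ε k) :=
  spec_bt_aux hε (par_pos hδ hε k) (card_lam hδ hε hg k)

end Pool.Agent.Work.MP_70e905_nt.PK
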