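import Pool.Agent.Work.MP_70e905_nt.PK.RPar
import Pool.Agent.Work.MP_70e905_nt.PK.Near
import Pool.Agent.Work.MP_70e905_nt.PK.CutF
import Pool.Agent.Work.MP_70e905_nt.PK.Base

/-!
# PK/RStep (size M-L): the lower bound at a good scale

PROOF. Notation `ρ = (par δ ε k).2`, `ρ' = (par δ ε (k+1)).2`, `Λ = lam δ ε g k`, `Λ' = lam δ ε g (k+1)`, `b = bs Λ ρ`, `b' = bs Λ' ρ'`, `g₀ = sm Λ ρ g`, `h = sm Λ' ρ' g`, `t = tt δ ε (par δ ε k)`, `c = dn ε (par δ ε k)`. All values of `g₀`, `h` are in `[0,1]`, `av g₀ = av g ≥ δ`.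
(1) `‖ft (g - h) ξ‖ ≤ t` for all `ξ`: it is `‖ft g ξ‖ * (1 - b' ξ ^ 2)` (`ft_sub`, `ft_sm`, `abs_bs`); for `ξ ∉ spec t g` it is `≤ t`; for `ξ ∈ spec t g ⊆ Λ'`: `1 - b'^2 ≤ 2 |1 - b'| ≤ 2 ρ' ≤ t` and `‖ft g ξ‖ ≤ 1`. So by `cut_of_ft` and `base` (weights `cay e g`, `cay e h`; `dv ≠ 0`) `|tK (cay e g) - tK (cay e h)| ≤ 6 t`.
(2) `av ((h - g₀)^2) = ∑ ‖ft g ξ‖² (b'² - b²)² ≤ (3 ε)^2` by `ft_parseval`, `ft_sub`, `ft_sm` and `hk`.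
(3) for `s : ZMod N` with `‖stdAddChar (s * ξ) - 1‖ ≤ ε` for all `ξ ∈ spec ε (bt Λ ρ)`: `av ((g₀ (· + s) - g₀)^2) = ∑ ‖ft g ξ‖² b⁴ ‖stdAddChar (s ξ) - 1‖² ≤ (2 ε)^2` (`ft_shift`): for `ξ ∈ spec` the factor is `≤ ε²`, for `ξ ∉ spec` it is `≤ ε⁴ * 4 ≤ 4 ε²`; `∑ ‖ft g ξ‖² = av (g²) ≤ 1`.
(4) `Y = bohr Ξ (ε / 2)` with `Ξ = ⋃ p ∈ P, (spec ε (bt Λ ρ)).image (fun ξ => dv N e p * ξ)` (`Finset.biUnion`), at most `6 * mm ε (par δ ε k)` elements (`card_spec_bt`), so `c ≤ Y.card / N` (`bohr_card`, `bl_anti`). For `y, y' ∈ Y` the element `s = (y' - y) * dv N e p` satisfies (3): `stdAddChar (s ξ) - 1` has norm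
`‖e (y' ξ') - e (y ξ')‖ ≤ ε / 2 + ε / 2` with `ξ' = dv N e p * ξ ∈ Ξ`. So `av |h (n + s) - g₀ n| ≤ av |h (n + s) - g₀ (n + s)| + av |g₀ (n + s) - g₀ n| ≤ 3 ε + 2 ε` (`av_sq_le`/`av_cs`, shift invariance of the mean).
(5) `near_diag` with `5 ε`: `tK (cay e h) ≥ c^4 * (δ^6 - 30 ε) ≥ c^4 δ^6 * 7/10` (`30 ε ≤ 3/10 δ^6`; the factor in brackets is positive, so `Y.card / N` may be replaced by `c`). `tK (cay e g) ≥ c^4 δ^6 (7/10 - 6/100) ≥ c^4 δ^6 / 2`.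
-/

set_option autoImplicit false

namespace Pool.Agent.Work.MP_70e905_nt.PK

open Finset

private theorem rs_sq {x : ℝ} (h : |x| ≤ 1) : x ^ 2 ≤ 1 := by
  rw [← sq_abs]
  exact pow_le_one₀ (abs_nonneg x) h

private theorem rs_l2 {N : ℕ} [NeZero N] (F : ZMod N → ℝ) {a : ℝ} (ha : 0 ≤ a)
    (h : av (fun x => F x ^ 2) ≤ a ^ 2) : av (fun x => |F x|) ≤ a := by
  have h1 := av_sq_le (fun x => |F x|)
  simp only [sq_abs] at h1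
  exact (le_abs_self _).trans (abs_le_of_sq_le_sq (h1.trans h) ha)

private theorem rs_norm {N : ℕ} [NeZero N] {g : ZMod N → ℝ} (hg : ∀ x, 0 ≤ g x ∧ g x ≤ 1)
    (ξ : ZMod N) : ‖ft g ξ‖ ≤ 1 :=
  (norm_ft_le g ξ).trans (av_le_of_le fun x => by rw [abs_of_nonneg (hg x).1]; exact (hg x).2)

private theorem rs_one {N : ℕ} [NeZero N] {g : ZMod N → ℝ} (hg : ∀ x, 0 ≤ g x ∧ g x ≤ 1) :
    ∑ ξ, ‖ft g ξ‖ ^ 2 ≤ 1 := by
  rw [ft_parseval]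
  exact av_le_of_le fun x => pow_le_one₀ (hg x).1 (hg x).2

/-- the Fourier precision -/
private theorem rs_ft {N : ℕ} [NeZero N] {g : ZMod N → ℝ} (hg : ∀ x, 0 ≤ g x ∧ g x ≤ 1)
    {Λ : Finset (ZMod N)} {ρ t : ℝ} (hρ : 0 ≤ ρ) (ht : 0 ≤ t) (hρt : ρ ≤ t / 2)
    (hΛ : spec t g ⊆ Λ) (ξ : ZMod N) : ‖ft (fun x => g x - sm Λ ρ g x) ξ‖ ≤ t := by
  rw [ft_sub, ft_sm hρ]
  have e1 : ft g ξ - ft g ξ * ((bs Λ ρ ξ ^ 2 : ℝ) : ℂ) =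
      ft g ξ * ((1 - bs Λ ρ ξ ^ 2 : ℝ) : ℂ) := by
    push_cast
    ring
  rw [e1, norm_mul, Complex.norm_real, Real.norm_eq_abs]
  have hb := abs_bs (Λ := Λ) hρ ξ
  have hb2 := rs_sq hb
  by_cases hξ : ξ ∈ spec t g
  · have h2 := bs_near hρ (hΛ hξ)
    have h3 : |1 - bs Λ ρ ξ ^ 2| ≤ t := by
      have e2 : 1 - bs Λ ρ ξ ^ 2 = -((bs Λ ρ ξ - 1) * (bs Λ ρ ξ + 1)) := by ring
      rw [e2, abs_neg, abs_mul]
      have h4 : |bs Λ ρ ξ + 1| ≤ 2 := (abs_add_le _ _).trans (by rw [abs_one]; linarith)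
      calc |bs Λ ρ ξ - 1| * |bs Λ ρ ξ + 1| ≤ ρ * 2 :=
            mul_le_mul h2 h4 (abs_nonneg _) hρ
        _ ≤ t := by linarith
    calc ‖ft g ξ‖ * |1 - bs Λ ρ ξ ^ 2| ≤ 1 * t :=
          mul_le_mul (rs_norm hg ξ) h3 (abs_nonneg _) zero_le_one
      _ = t := one_mul t
  · have h2 : ‖ft g ξ‖ ≤ t := by
      by_contra h3
      push Not at h3
      exact hξ (mem_filter.2 ⟨mem_univ _, h3.le⟩)
    have h3 : |1 - bs Λ ρ ξ ^ 2| ≤ 1 := by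
      rw [abs_of_nonneg (by linarith)]
      linarith [sq_nonneg (bs Λ ρ ξ)]
    calc ‖ft g ξ‖ * |1 - bs Λ ρ ξ ^ 2| ≤ t * 1 :=
          mul_le_mul h2 h3 (abs_nonneg _) ht
      _ = t := mul_one t

/-- small shifts -/
private theorem rs_shift {N : ℕ} [NeZero N] {g : ZMod N → ℝ} (hg : ∀ x, 0 ≤ g x ∧ g x ≤ 1)
    {Λ : Finset (ZMod N)} {ρ ε : ℝ} (hρ : 0 ≤ ρ) (hε : 0 < ε) (hε1 : ε ≤ 1) {s : ZMod N}
    (hs : ∀ ξ ∈ spec ε (bt Λ ρ), ‖(ZMod.stdAddChar (s * ξ) : ℂ) - 1‖ ≤ ε) :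
    av (fun x => (sm Λ ρ g (x + s) - sm Λ ρ g x) ^ 2) ≤ (2 * ε) ^ 2 := by
  rw [← ft_parseval (fun x => sm Λ ρ g (x + s) - sm Λ ρ g x)]
  have hterm : ∀ ξ, ‖ft (fun x => sm Λ ρ g (x + s) - sm Λ ρ g x) ξ‖ ^ 2 ≤
      ‖ft g ξ‖ ^ 2 * (2 * ε) ^ 2 := by
    intro ξ
    rw [ft_sub (fun x => sm Λ ρ g (x + s)) (sm Λ ρ g), ft_shift (sm Λ ρ g) s ξ, ft_sm hρ]
    have e1 : ft g ξ * ((bs Λ ρ ξ ^ 2 : ℝ) : ℂ) * ZMod.stdAddChar (s * ξ) -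
        ft g ξ * ((bs Λ ρ ξ ^ 2 : ℝ) : ℂ) =
        ft g ξ * (((bs Λ ρ ξ ^ 2 : ℝ) : ℂ) * (ZMod.stdAddChar (s * ξ) - 1)) := by ring
    rw [e1, norm_mul, norm_mul, Complex.norm_real, Real.norm_eq_abs, mul_pow]
    refine mul_le_mul_of_nonneg_left ?_ (sq_nonneg _)
    refine pow_le_pow_left₀ (by positivity) ?_ 2
    rw [abs_of_nonneg (sq_nonneg (bs Λ ρ ξ))]
    have hb := abs_bs (Λ := Λ) hρ ξ
    have hb2 := rs_sq hb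
    by_cases hξ : ξ ∈ spec ε (bt Λ ρ)
    · have h2 := hs ξ hξ
      calc bs Λ ρ ξ ^ 2 * ‖(ZMod.stdAddChar (s * ξ) : ℂ) - 1‖ ≤ 1 * ε :=
            mul_le_mul hb2 h2 (norm_nonneg _) zero_le_one
        _ ≤ 2 * ε := by linarith
    · have h2 : |bs Λ ρ ξ| ≤ ε := by
        by_contra h3
        push Not at h3
        refine hξ (mem_filter.2 ⟨mem_univ _, ?_⟩)
        rw [ft_bt hρ, Complex.norm_real, Real.norm_eq_abs]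
        exact h3.le
      have h3 : bs Λ ρ ξ ^ 2 ≤ ε := by
        rw [← sq_abs]
        calc |bs Λ ρ ξ| ^ 2 ≤ ε ^ 2 := pow_le_pow_left₀ (abs_nonneg _) h2 2
          _ ≤ ε := by nlinarith
      have h4 : ‖(ZMod.stdAddChar (s * ξ) : ℂ) - 1‖ ≤ 2 := by
        refine (norm_sub_le _ _).trans ?_
        rw [AddChar.norm_apply, norm_one]
        norm_num
      calc bs Λ ρ ξ ^ 2 * ‖(ZMod.stdAddChar (s * ξ) : ℂ) - 1‖ ≤ ε * 2 :=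
            mul_le_mul h3 h4 (norm_nonneg _) hε.le
        _ = 2 * ε := mul_comm _ _
  calc ∑ ξ, ‖ft (fun x => sm Λ ρ g (x + s) - sm Λ ρ g x) ξ‖ ^ 2
      ≤ ∑ ξ, ‖ft g ξ‖ ^ 2 * (2 * ε) ^ 2 := sum_le_sum fun ξ _ => hterm ξ
    _ = (∑ ξ, ‖ft g ξ‖ ^ 2) * (2 * ε) ^ 2 := by rw [sum_mul]
    _ ≤ 1 * (2 * ε) ^ 2 := mul_le_mul_of_nonneg_right (rs_one hg) (sq_nonneg _)
    _ = (2 * ε) ^ 2 := one_mul _

private theorem rs_char {N : ℕ} [NeZero N] (a b : ZMod N) :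
    ‖(ZMod.stdAddChar (a - b) : ℂ) - 1‖ ≤
      ‖(ZMod.stdAddChar a : ℂ) - 1‖ + ‖(ZMod.stdAddChar b : ℂ) - 1‖ := by
  have h1 : (ZMod.stdAddChar (a - b) : ℂ) * ZMod.stdAddChar b = ZMod.stdAddChar a := by
    rw [← AddChar.map_add_eq_mul, sub_add_cancel]
  have h2 : ‖(ZMod.stdAddChar (a - b) : ℂ) - 1‖ =
      ‖((ZMod.stdAddChar (a - b) : ℂ) - 1) * ZMod.stdAddChar b‖ := by
    rw [norm_mul, AddChar.norm_apply, mul_one]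
  rw [h2, sub_mul, h1, one_mul]
  have h3 : (ZMod.stdAddChar a : ℂ) - ZMod.stdAddChar b =
      (ZMod.stdAddChar a - 1) - (ZMod.stdAddChar b - 1) := by ring
  rw [h3]
  exact norm_sub_le _ _

theorem r_step {δ ε : ℝ} (hδ : 0 < δ) (hδ1 : δ ≤ 1) (hε : 0 < ε) (hε1 : ε ≤ δ ^ 6 / 100) {N : ℕ}
    [NeZero N] [Fact N.Prime] {e : Fin 4 → ℤ}
    (he : ∀ p ∈ P, ((e p.2 - e p.1 : ℤ) : ZMod N) ≠ 0) {g : ZMod N → ℝ}
    (hg : ∀ x, 0 ≤ g x ∧ g x ≤ 1) (hav : δ ≤ av g) (k : ℕ)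
    (hk : ∑ ξ, ‖ft g ξ‖ ^ 2 * (bs (lam δ ε g k) (par δ ε k).2 ξ ^ 2 -
      bs (lam δ ε g (k + 1)) (par δ ε (k + 1)).2 ξ ^ 2) ^ 2 ≤ (3 * ε) ^ 2) :
    dn ε (par δ ε k) ^ 4 * δ ^ 6 / 2 ≤ tK (cay e g) := by
  classical
  have hε1' : ε ≤ 1 := by
    have : δ ^ 6 ≤ 1 := pow_le_one₀ hδ.le hδ1
    linarith
  have hρ : 0 < (par δ ε k).2 := par_pos hδ hε k
  have hρ' : 0 < (par δ ε (k + 1)).2 := par_pos hδ hε (k + 1)
  have ht : 0 < tt δ ε (par δ ε k) := tt_pos hδ _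
  have hc : 0 < dn ε (par δ ε k) := dn_pos _
  set Λ := lam δ ε g k with hΛ
  set ρ := (par δ ε k).2 with hρd
  set Λ' := lam δ ε g (k + 1) with hΛ'
  set ρ' := (par δ ε (k + 1)).2 with hρd'
  have hg0 : ∀ x, 0 ≤ sm Λ ρ g x ∧ sm Λ ρ g x ≤ 1 := fun x =>
    ⟨sm_nonneg (fun x => (hg x).1) x, sm_le_one hρ.le (fun x => (hg x).2) x⟩
  have hh : ∀ x, 0 ≤ sm Λ' ρ' g x ∧ sm Λ' ρ' g x ≤ 1 := fun x =>
    ⟨sm_nonneg (fun x => (hg x).1) x, sm_le_one hρ'.le (fun x => (hg x).2) x⟩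
  -- (1)
  have h1 : |tK (cay e g) - tK (cay e (sm Λ' ρ' g))| ≤ 6 * tt δ ε (par δ ε k) := by
    refine base (cay e g) (cay e (sm Λ' ρ' g)) (fun p _ u v => hg _) (fun p _ u v => hh _) ?_
    intro p hp
    refine cut_of_ft (f := fun x => g x - sm Λ' ρ' g x) (d := dv N e p)
      (rs_ft hg hρ'.le ht.le par_le.2 ?_) (inv_ne_zero (he p hp))
    intro ξ hξ
    exact mem_union_right _ hξ
  -- (2)
  have h2 : av (fun x => (sm Λ' ρ' g x - sm Λ ρ g x) ^ 2) ≤ (3 * ε) ^ 2 := by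
    rw [← ft_parseval (fun x => sm Λ' ρ' g x - sm Λ ρ g x)]
    refine le_trans (le_of_eq (sum_congr rfl fun ξ _ => ?_)) hk
    rw [ft_sub, ft_sm hρ'.le, ft_sm hρ.le]
    have e1 : ft g ξ * ((bs Λ' ρ' ξ ^ 2 : ℝ) : ℂ) - ft g ξ * ((bs Λ ρ ξ ^ 2 : ℝ) : ℂ) =
        ft g ξ * ((bs Λ' ρ' ξ ^ 2 - bs Λ ρ ξ ^ 2 : ℝ) : ℂ) := by
      push_cast
      ring
    rw [e1, norm_mul, mul_pow, Complex.norm_real, Real.norm_eq_abs, sq_abs]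
    ring
  have h2' : av (fun x => |sm Λ' ρ' g x - sm Λ ρ g x|) ≤ 3 * ε :=
    rs_l2 _ (by linarith) h2
  -- (4)
  let Ξ : Finset (ZMod N) := P.biUnion fun p => (spec ε (bt Λ ρ)).image fun ξ => dv N e p * ξ
  have hΞ : Ξ.card ≤ 6 * mm ε (par δ ε k) := by
    refine (card_biUnion_le_card_mul P _ (mm ε (par δ ε k)) fun p _ => ?_).trans ?_
    · exact card_image_le.trans (card_spec_bt hδ hε hg k)
    · exact Nat.mul_le_mul_right _ (by decide)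
  have hYc : dn ε (par δ ε k) * N ≤ ((bohr Ξ (ε / 2)).card : ℝ) := by
    refine le_trans ?_ (bohr_card Ξ (half_pos hε))
    exact mul_le_mul_of_nonneg_right (bl_anti hΞ _) (Nat.cast_nonneg _)
  have hY : ∀ p ∈ P, ∀ y ∈ bohr Ξ (ε / 2), ∀ y' ∈ bohr Ξ (ε / 2),
      av (fun n => |sm Λ' ρ' g (n + (y' - y) * dv N e p) - sm Λ ρ g n|) ≤ 5 * ε := by
    intro p hp y hy y' hy'
    have hs : ∀ ξ ∈ spec ε (bt Λ ρ),
        ‖(ZMod.stdAddChar ((y' - y) * dv N e p * ξ) : ℂ) - 1‖ ≤ ε := by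
      intro ξ hξ
      have hξ' : dv N e p * ξ ∈ Ξ :=
        mem_biUnion.2 ⟨p, hp, mem_image.2 ⟨ξ, hξ, rfl⟩⟩
      have e1 : (y' - y) * dv N e p * ξ = y' * (dv N e p * ξ) - y * (dv N e p * ξ) := by ring
      rw [e1]
      refine (rs_char _ _).trans ?_
      have h3 := (mem_filter.1 hy).2 _ hξ'
      have h4 := (mem_filter.1 hy').2 _ hξ'
      linarith
    have h3 := rs_l2 _ (by linarith) (rs_shift hg hρ.le hε hε1' hs)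
    have h4 : av (fun n => |sm Λ' ρ' g (n + (y' - y) * dv N e p) -
        sm Λ ρ g (n + (y' - y) * dv N e p)|) ≤ 3 * ε := by
      rw [← av_comp (Equiv.addRight ((y' - y) * dv N e p))] at h2'
      exact h2'
    calc av (fun n => |sm Λ' ρ' g (n + (y' - y) * dv N e p) - sm Λ ρ g n|)
        ≤ av (fun n => |sm Λ' ρ' g (n + (y' - y) * dv N e p) -
            sm Λ ρ g (n + (y' - y) * dv N e p)| +
            |sm Λ ρ g (n + (y' - y) * dv N e p) - sm Λ ρ g n|) :=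
          av_mono fun n => abs_sub_le _ _ _
      _ = av (fun n => |sm Λ' ρ' g (n + (y' - y) * dv N e p) -
            sm Λ ρ g (n + (y' - y) * dv N e p)|) +
          av (fun n => |sm Λ ρ g (n + (y' - y) * dv N e p) - sm Λ ρ g n|) := av_add _ _
      _ ≤ 5 * ε := by linarith
  -- (5)
  have h5 := near_diag he hg0 hh (bohr Ξ (ε / 2)) hY
  rw [av_sm hρ.le] at h5
  have hN : (0 : ℝ) < N := by exact_mod_cast Nat.pos_of_ne_zero (NeZero.ne N)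
  have h6 : dn ε (par δ ε k) ≤ ((bohr Ξ (ε / 2)).card : ℝ) / N := by
    rw [le_div_iff₀ hN]
    exact hYc
  have h7 : δ ^ 6 ≤ av g ^ 6 := pow_le_pow_left₀ hδ.le hav 6
  have hδ6 : 0 < δ ^ 6 := by positivity
  have h8 : dn ε (par δ ε k) ^ 4 ≤ (((bohr Ξ (ε / 2)).card : ℝ) / N) ^ 4 :=
    pow_le_pow_left₀ hc.le h6 4
  have h9 : 7 / 10 * δ ^ 6 ≤ av g ^ 6 - 6 * (5 * ε) := by linarith
  have h10 : dn ε (par δ ε k) ^ 4 * (7 / 10 * δ ^ 6) ≤ tK (cay e (sm Λ' ρ' g)) :=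
    le_trans (mul_le_mul h8 h9 (by positivity) (by positivity)) h5
  have h11 := (abs_le.1 h1).1
  have h12 : tt δ ε (par δ ε k) = dn ε (par δ ε k) ^ 4 * δ ^ 6 / 100 := rfl
  have h13 : 0 ≤ dn ε (par δ ε k) ^ 4 * δ ^ 6 := by positivity
  rw [h12] at h11
  nlinarith

end Pool.Agent.Work.MP_70e905_nt.PK
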