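import Pool.Agent.Work.MP_70e905_nt.PK.Ft
import Pool.Agent.Work.MP_70e905_nt.PK.Bohr

/-!
# PK/Sm (size M): smoothing with Bohr sets

PROOF. `bt Λ ρ` is nonnegative, even (`neg_mem_bohr`), has mean 1 (`zero_mem_bohr`, so the Bohr set is not empty). `ft_bt_im`: even and real, so the imaginary part vanishes (pair `x` and `-x`). `bs ξ = (ft (bt Λ ρ) ξ).re`. `|bs ξ| ≤ 1`: `norm_ft_le`. `bs_near`: `ft (bt Λ ρ) ξ - 1` is the mean of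
`bt x * (stdAddChar (-(x ξ)) - 1)`, and for `x` in the Bohr set (so `-x` in it) the second factor has norm `≤ ρ`. `sum_bs`: `ft_parseval`, `av (bt²) = N / |B| ≤ 1 / bl`. `ft_sm`: `ft_cv` twice. `sm_mem`: `sm Λ ρ f x = av (fun y => f y * κ (x - y))` with `κ = cv bt bt ≥ 0`,
`av κ = 1` (`av_cv`). `sm_le` (majorant): `sm Λ ρ f ≤ sm Λ ρ ν` pointwise, and by `ft_inv` `sm Λ ρ ν x = ∑ ξ, ft ν ξ * bs ξ ^ 2 * stdAddChar (x ξ)`, `ft ν ξ = [ξ = 0] + ft (ν - 1) ξ` (`ft_sub`, `ft 1`: or write `sm ν = sm 1 + sm (ν - 1)`, `sm 1 = 1`), so it is `≤ 1 + η ∑ bs²`.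
-/

set_option autoImplicit false

namespace Pool.Agent.Work.MP_70e905_nt.PK

open Finset

variable {N : ℕ} [NeZero N]

private theorem bt_nonneg (Λ : Finset (ZMod N)) (ρ : ℝ) (x : ZMod N) : 0 ≤ bt Λ ρ x := by
  unfold bt
  split_ifs
  · positivity
  · exact le_rfl

private theorem bt_neg (Λ : Finset (ZMod N)) (ρ : ℝ) (x : ZMod N) :
    bt Λ ρ (-x) = bt Λ ρ x := by
  unfold bt
  by_cases h : x ∈ bohr Λ ρ
  · rw [if_pos h, if_pos (neg_mem_bohr h)]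
  · have h' : -x ∉ bohr Λ ρ := by
      intro h2
      have := neg_mem_bohr h2
      rw [neg_neg] at this
      exact h this
    rw [if_neg h, if_neg h']

private theorem N_pos : (0 : ℝ) < N := by exact_mod_cast Nat.pos_of_ne_zero (NeZero.ne N)

private theorem card_pos' (Λ : Finset (ZMod N)) {ρ : ℝ} (hρ : 0 ≤ ρ) :
    (0 : ℝ) < ((bohr Λ ρ).card : ℝ) := by
  exact_mod_cast card_pos.2 ⟨0, zero_mem_bohr Λ hρ⟩

private theorem av_bt (Λ : Finset (ZMod N)) {ρ : ℝ} (hρ : 0 ≤ ρ) : av (bt Λ ρ) = 1 := by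
  unfold av bt
  rw [← sum_filter, sum_const, nsmul_eq_mul, ZMod.card]
  have h1 : (univ.filter (fun x => x ∈ bohr Λ ρ)) = bohr Λ ρ := by
    ext x
    simp
  rw [h1]
  have h2 := (card_pos' Λ hρ).ne'
  have h3 : (N : ℝ) ≠ 0 := N_pos.ne'
  field_simp

private theorem av_bt_sq (Λ : Finset (ZMod N)) {ρ : ℝ} (hρ : 0 ≤ ρ) :
    av (fun x => bt Λ ρ x ^ 2) = (N : ℝ) / ((bohr Λ ρ).card : ℝ) := by
  have h2 := (card_pos' Λ hρ).ne'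
  have h3 : (N : ℝ) ≠ 0 := N_pos.ne'
  have h0 : ∀ x, bt Λ ρ x ^ 2 = (N : ℝ) / ((bohr Λ ρ).card : ℝ) * bt Λ ρ x := by
    intro x
    unfold bt
    split_ifs
    · ring
    · ring
  simp only [h0]
  rw [av_mul_left, av_bt Λ hρ, mul_one]

/-- the Fourier coefficient of `bt`, a real number -/
noncomputable def bs (Λ : Finset (ZMod N)) (ρ : ℝ) (ξ : ZMod N) : ℝ := (ft (bt Λ ρ) ξ).re

theorem ft_bt {Λ : Finset (ZMod N)} {ρ : ℝ} (hρ : 0 ≤ ρ) (ξ : ZMod N) :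
    ft (bt Λ ρ) ξ = ((bs Λ ρ ξ : ℝ) : ℂ) := by
  have h : (starRingEnd ℂ) (ft (bt Λ ρ) ξ) = ft (bt Λ ρ) ξ := by
    unfold ft
    rw [map_div₀, map_sum, Complex.conj_natCast]
    congr 1
    rw [← Equiv.sum_comp (Equiv.neg (ZMod N))]
    refine sum_congr rfl fun x _ => ?_
    rw [Equiv.neg_apply, bt_neg, map_mul, Complex.conj_ofReal, ← AddChar.map_neg_eq_conj]
    congr 2
    ring
  exact (Complex.conj_eq_iff_re.1 h).symm

theorem abs_bs {Λ : Finset (ZMod N)} {ρ : ℝ} (hρ : 0 ≤ ρ) (ξ : ZMod N) : |bs Λ ρ ξ| ≤ 1 := by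
  refine (Complex.abs_re_le_norm _).trans ((norm_ft_le _ ξ).trans ?_)
  have h : ∀ x, |bt Λ ρ x| = bt Λ ρ x := fun x => abs_of_nonneg (bt_nonneg Λ ρ x)
  simp only [h]
  exact (av_bt Λ hρ).le

theorem bs_near {Λ : Finset (ZMod N)} {ρ : ℝ} (hρ : 0 ≤ ρ) {ξ : ZMod N} (hξ : ξ ∈ Λ) :
    |bs Λ ρ ξ - 1| ≤ ρ := by
  have hN : (0 : ℝ) < N := N_pos
  have hN' : (N : ℂ) ≠ 0 := by exact_mod_cast hN.ne'
  have hsum : ∑ x, bt Λ ρ x = N := by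
    have h := av_bt Λ hρ
    unfold av at h
    rw [ZMod.card, div_eq_one_iff_eq hN.ne'] at h
    exact h
  have hsumC : (∑ x, ((bt Λ ρ x : ℝ) : ℂ)) = N := by
    rw [← Complex.ofReal_sum, hsum, Complex.ofReal_natCast]
  have h1 : ft (bt Λ ρ) ξ - 1 =
      (∑ x, ((bt Λ ρ x : ℝ) : ℂ) * ((ZMod.stdAddChar (-(x * ξ)) : ℂ) - 1)) / (N : ℂ) := by
    unfold ft
    rw [eq_div_iff hN', sub_mul, div_mul_cancel₀ _ hN', one_mul]
    simp only [mul_sub, mul_one]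
    rw [sum_sub_distrib, hsumC]
  have h2 : ‖ft (bt Λ ρ) ξ - 1‖ ≤ ρ := by
    rw [h1, norm_div, Complex.norm_natCast, div_le_iff₀ hN]
    refine (norm_sum_le _ _).trans ?_
    rw [← hsum, mul_sum]
    refine sum_le_sum fun x _ => ?_
    rw [norm_mul, Complex.norm_real, Real.norm_of_nonneg (bt_nonneg Λ ρ x), mul_comm]
    by_cases hx : x ∈ bohr Λ ρ
    · have h3 := neg_mem_bohr hx
      unfold bohr at h3
      have h4 := (mem_filter.1 h3).2 ξ hξ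
      rw [neg_mul] at h4
      exact mul_le_mul_of_nonneg_right h4 (bt_nonneg Λ ρ x)
    · have h5 : bt Λ ρ x = 0 := by
        unfold bt
        rw [if_neg hx]
      rw [h5, mul_zero, mul_zero]
  refine le_trans ?_ h2
  have h3 : bs Λ ρ ξ - 1 = (ft (bt Λ ρ) ξ - 1).re := by
    rw [Complex.sub_re, Complex.one_re]
    rfl
  rw [h3]
  exact Complex.abs_re_le_norm _

theorem sum_bs (Λ : Finset (ZMod N)) {ρ : ℝ} (hρ : 0 < ρ) :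
    ∑ ξ, bs Λ ρ ξ ^ 2 ≤ 1 / bl Λ.card ρ := by
  have h1 : ∑ ξ, bs Λ ρ ξ ^ 2 = ∑ ξ, ‖ft (bt Λ ρ) ξ‖ ^ 2 := by
    refine sum_congr rfl fun ξ _ => ?_
    rw [ft_bt hρ.le, Complex.norm_real, Real.norm_eq_abs, sq_abs]
  rw [h1, ft_parseval, av_bt_sq Λ hρ.le, div_le_div_iff₀ (card_pos' Λ hρ.le) (bl_pos _ _)]
  have := bohr_card Λ hρ
  linarith

theorem ft_sm {Λ : Finset (ZMod N)} {ρ : ℝ} (hρ : 0 ≤ ρ) (f : ZMod N → ℝ) (ξ : ZMod N) :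
    ft (sm Λ ρ f) ξ = ft f ξ * ((bs Λ ρ ξ ^ 2 : ℝ) : ℂ) := by
  unfold sm
  rw [ft_cv, ft_cv, ft_bt hρ]
  push_cast
  ring

theorem av_sm {Λ : Finset (ZMod N)} {ρ : ℝ} (hρ : 0 ≤ ρ) (f : ZMod N → ℝ) :
    av (sm Λ ρ f) = av f := by
  unfold sm
  rw [av_cv, av_cv, av_bt Λ hρ]
  ring

private theorem kap_nonneg (Λ : Finset (ZMod N)) (ρ : ℝ) (x : ZMod N) :
    0 ≤ cv (bt Λ ρ) (bt Λ ρ) x :=
  av_nonneg fun y => mul_nonneg (bt_nonneg Λ ρ y) (bt_nonneg Λ ρ (x - y))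

private theorem av_kap (Λ : Finset (ZMod N)) {ρ : ℝ} (hρ : 0 ≤ ρ) (x : ZMod N) :
    av (fun y => cv (bt Λ ρ) (bt Λ ρ) (x - y)) = 1 := by
  have h := av_comp (Equiv.subLeft x) (cv (bt Λ ρ) (bt Λ ρ))
  simp only [Equiv.subLeft_apply] at h
  rw [h, av_cv, av_bt Λ hρ, one_mul]

theorem sm_nonneg {Λ : Finset (ZMod N)} {ρ : ℝ} {f : ZMod N → ℝ} (hf : ∀ x, 0 ≤ f x)
    (x : ZMod N) : 0 ≤ sm Λ ρ f x :=
  av_nonneg fun y => mul_nonneg (hf y) (kap_nonneg Λ ρ (x - y))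

private theorem sm_mono {Λ : Finset (ZMod N)} {ρ : ℝ} {f g : ZMod N → ℝ} (h : ∀ x, f x ≤ g x)
    (x : ZMod N) : sm Λ ρ f x ≤ sm Λ ρ g x :=
  av_mono fun y => mul_le_mul_of_nonneg_right (h y) (kap_nonneg Λ ρ (x - y))

private theorem sm_one (Λ : Finset (ZMod N)) {ρ : ℝ} (hρ : 0 ≤ ρ) (x : ZMod N) :
    sm Λ ρ (fun _ => 1) x = 1 := by
  unfold sm
  rw [show cv (fun _ => (1 : ℝ)) (cv (bt Λ ρ) (bt Λ ρ)) x =
    av (fun y => 1 * cv (bt Λ ρ) (bt Λ ρ) (x - y)) from rfl]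
  simp only [one_mul]
  exact av_kap Λ hρ x

theorem sm_le_one {Λ : Finset (ZMod N)} {ρ : ℝ} (hρ : 0 ≤ ρ) {f : ZMod N → ℝ}
    (hf : ∀ x, f x ≤ 1) (x : ZMod N) : sm Λ ρ f x ≤ 1 :=
  (sm_mono (g := fun _ => 1) hf x).trans (sm_one Λ hρ x).le

theorem sm_le {Λ : Finset (ZMod N)} {ρ η : ℝ} (hρ : 0 < ρ) (hη : 0 ≤ η) {f ν : ZMod N → ℝ}
    (hf : ∀ x, f x ≤ ν x) (hν : ∀ ξ, ‖ft (fun x => ν x - 1) ξ‖ ≤ η) (x : ZMod N) :
    sm Λ ρ f x ≤ 1 + η / bl Λ.card ρ := by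
  refine (sm_mono hf x).trans ?_
  have h1 : sm Λ ρ ν x = sm Λ ρ (fun _ => 1) x + sm Λ ρ (fun y => ν y - 1) x := by
    unfold sm cv
    rw [← av_add]
    congr 1
    funext y
    ring
  rw [h1, sm_one Λ hρ.le]
  have h2 : ‖((sm Λ ρ (fun y => ν y - 1) x : ℝ) : ℂ)‖ ≤ η / bl Λ.card ρ := by
    rw [ft_inv (sm Λ ρ (fun y => ν y - 1)) x]
    refine (norm_sum_le _ _).trans ?_
    have h3 : ∀ ξ ∈ (univ : Finset (ZMod N)),
        ‖ft (sm Λ ρ (fun y => ν y - 1)) ξ * ZMod.stdAddChar (x * ξ)‖ ≤ η * bs Λ ρ ξ ^ 2 := by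
      intro ξ _
      rw [norm_mul, AddChar.norm_apply, mul_one, ft_sm hρ.le, norm_mul, Complex.norm_real,
        Real.norm_of_nonneg (sq_nonneg _)]
      exact mul_le_mul_of_nonneg_right (hν ξ) (sq_nonneg _)
    refine (sum_le_sum h3).trans ?_
    rw [← mul_sum, div_eq_mul_one_div]
    exact mul_le_mul_of_nonneg_left (sum_bs Λ hρ) hη
  rw [Complex.norm_real] at h2
  have h3 := (le_abs_self _).trans h2
  linarith

end Pool.Agent.Work.MP_70e905_nt.PK
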