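import Pool.Agent.Work.MP_70e905_nt.PK.Strong2
import Pool.Agent.Work.MP_70e905_nt.PK.CodLF
import Pool.Agent.Work.MP_70e905_nt.PK.CutL

/-!
# PK/Step (size M): one step of densification (Conlon, Fox, Zhao)

PROOF. Put `g' = cod e g`, `h' = cod e h`, `ν' = cod e ν`, `D = g' - h'`, `m z = min (g' z) 1`. Facts: `0 ≤ g' ≤ ν'`, `0 ≤ h' ≤ 1` (`av_mono`, `av_le_of_le`, `Finset.prod_le_prod`).
(1) `tK_eq`: `tK g - tK h = av (g e * D) + av ((g e - h e) * h')`, and the second mean is at most `η` by `cut_cod` (`hcut`, `hh`).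
(2) `av (g e * D)^2 ≤ av (g e) * av (g e * D^2) ≤ (1 + η) * av (ν e * D^2)` (`av_cs_w` with `W = g e`, `F = 1`, `H = D`; `av (ν e) ≤ 1 + η`: this is `LF` for the one element set `{(e, (false, false))}`, the mean over
`V → G` of a function of two coordinates is the mean over `G × G`: `cod_double` with `w₁ = w₂ = 1`, `A = ν e`).
(3) `av (ν e * D^2) = av ((ν e - 1) * D^2) + av (D^2)`, `D^2 = g' g' - 2 g' h' + h' h'`, each of the three means with `ν e - 1` is at most `a` in absolute value (`strong2` and `128 η ≤ a^4`), so `av ((ν e - 1) * D^2) ≤ 4 a`.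
(4) `av (D^2) = av ((g' - m) * D) + av (m * D) - av (h' * D)`. `|g' - m| ≤ |ν' - 1|`, `D^2 ≤ g'^2 + h'^2 ≤ ν'^2 + 1`, so by Cauchy-Schwarz (`av_cs` for `|ν' - 1|` and `|D|`) and `cod_lf` the first mean is at most
`sqrt (4 η) * sqrt (1 + η + 1) ≤ sqrt (12 η) ≤ a` (`12 η ≤ 128 η ≤ a^4 ≤ a^2`). `av (m * D) = tK (update g e m) - tK (update h e m)` (`tK_update`, with `m` as a function of two variables) is at most `ε₁` by `hind`, the same for `h'`.
So `av (D^2) ≤ a + 2 ε₁`. (5) Together `av (g e * D)^2 ≤ 2 * (5 a + 2 ε₁)`, `Real.le_sqrt`/`Real.abs_le_sqrt`.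
-/

set_option autoImplicit false

namespace Pool.Agent.Work.MP_70e905_nt.PK

open Finset

private theorem av_edge {G : Type} [Fintype G] [Nonempty G] {η : ℝ}
    {ν : Fin 4 × Fin 4 → G → G → ℝ} (hLF : LF η ν) {e : Fin 4 × Fin 4} (he : e ∈ P) :
    av (fun z : G × G => ν e z.1 z.2) ≤ 1 + η := by
  have h1 := cod_double (G := G) he (fun z => ν e z.1 z.2) (fun _ _ _ => 1) (fun _ _ _ => 1)
  have hc : ∀ z : G × G, cod e (fun _ _ _ => (1 : ℝ)) z = 1 := by
    intro z
    unfold cod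
    simp only [prod_const_one]
    exact av_const 1
  simp only [hc, prod_const_one, mul_one] at h1
  rw [h1]
  have hS : ({(e, (false, false))} : Finset DE) ⊆ PD := by
    intro s hs
    rw [mem_singleton] at hs
    rw [hs]
    unfold PD
    rw [mem_filter]
    exact ⟨mem_univ _, (mem_filter.1 he).2⟩
  have h2 := (abs_le.1 (hLF _ hS)).2
  simp only [prod_singleton] at h2
  have h3 : av (fun x : V → G => ν e (x (e.1, false)) (x (e.2, false))) - 1 ≤ η := h2
  linarith

private theorem pow4 {X a c : ℝ} (ha : 0 ≤ a) (h : X ^ 4 ≤ c) (hc : c ≤ a ^ 4) : |X| ≤ a := by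
  rw [← pow_le_pow_iff_left₀ (abs_nonneg X) ha (show (4 : ℕ) ≠ 0 by norm_num),
    (show Even 4 by decide).pow_abs]
  exact h.trans hc

theorem step {G : Type} [Fintype G] [Nonempty G] {η a ε₁ : ℝ} (hη0 : 0 ≤ η) (hη1 : η ≤ 1)
    (ha0 : 0 ≤ a) (ha1 : a ≤ 1) (hηa : 128 * η ≤ a ^ 4) (hε₁ : 0 ≤ ε₁)
    {ν g h : Fin 4 × Fin 4 → G → G → ℝ} (hν : ∀ p u v, 0 ≤ ν p u v)
    (hg : ∀ p ∈ P, ∀ u v, 0 ≤ g p u v ∧ g p u v ≤ ν p u v)
    (hh : ∀ p ∈ P, ∀ u v, 0 ≤ h p u v ∧ h p u v ≤ 1) (hLF : LF η ν)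
    {e : Fin 4 × Fin 4} (he : e ∈ P) (hcut : Cut η (fun u v => g e u v - h e u v))
    (hind : ∀ q : G → G → ℝ, (∀ u v, 0 ≤ q u v ∧ q u v ≤ 1) →
      |tK (Function.update g e q) - tK (Function.update h e q)| ≤ ε₁) :
    |tK g - tK h| ≤ η + Real.sqrt (2 * (5 * a + 2 * ε₁)) := by
  obtain ⟨g', hg'⟩ : ∃ g' : G × G → ℝ, g' = cod e g := ⟨_, rfl⟩
  obtain ⟨h', hh'⟩ : ∃ h' : G × G → ℝ, h' = cod e h := ⟨_, rfl⟩
  obtain ⟨n', hn'⟩ : ∃ n' : G × G → ℝ, n' = cod e ν := ⟨_, rfl⟩
  have g0 : ∀ z, 0 ≤ g' z := by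
    intro z
    rw [hg']
    exact av_nonneg fun x => prod_nonneg fun p hp => (hg p (mem_of_mem_erase hp) _ _).1
  have gn : ∀ z, g' z ≤ n' z := by
    intro z
    rw [hg', hn']
    exact av_mono fun x => prod_le_prod (fun p hp => (hg p (mem_of_mem_erase hp) _ _).1)
      fun p hp => (hg p (mem_of_mem_erase hp) _ _).2
  have h0 : ∀ z, 0 ≤ h' z := by
    intro z
    rw [hh']
    exact av_nonneg fun x => prod_nonneg fun p hp => (hh p (mem_of_mem_erase hp) _ _).1
  have h1 : ∀ z, h' z ≤ 1 := by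
    intro z
    rw [hh']
    exact av_le_of_le fun x => prod_le_one (fun p hp => (hh p (mem_of_mem_erase hp) _ _).1)
      fun p hp => (hh p (mem_of_mem_erase hp) _ _).2
  -- (1)
  have e1 : tK g - tK h = av (fun z : G × G => g e z.1 z.2 * (1 * (g' z - h' z))) +
      av (fun z : G × G => (g e z.1 z.2 - h e z.1 z.2) * h' z) := by
    rw [tK_eq he g, tK_eq he h, ← hg', ← hh', ← av_sub, ← av_add]
    refine congrArg av (funext fun z => ?_)
    ring
  have e2 : |av (fun z : G × G => (g e z.1 z.2 - h e z.1 z.2) * h' z)| ≤ η := by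
    rw [hh']
    exact cut_cod he hcut h hh
  -- strong2
  have hgν : ∀ p ∈ P, ∀ u v, |g p u v| ≤ ν p u v := fun p hp u v => by
    rw [abs_of_nonneg (hg p hp u v).1]; exact (hg p hp u v).2
  have hh1 : ∀ p ∈ P, ∀ u v, |h p u v| ≤ 1 := fun p hp u v => by
    rw [abs_of_nonneg (hh p hp u v).1]; exact (hh p hp u v).2
  have s1 : |av (fun z : G × G => (ν e z.1 z.2 - 1) * (g' z * g' z))| ≤ a := by
    rw [hg']
    exact pow4 ha0 (strong2 hη0 hη1 hν hLF he g g (Or.inl hgν) (Or.inl hgν)) hηa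
  have s2 : |av (fun z : G × G => (ν e z.1 z.2 - 1) * (g' z * h' z))| ≤ a := by
    rw [hg', hh']
    exact pow4 ha0 (strong2 hη0 hη1 hν hLF he g h (Or.inl hgν) (Or.inr hh1)) hηa
  have s3 : |av (fun z : G × G => (ν e z.1 z.2 - 1) * (h' z * h' z))| ≤ a := by
    rw [hh']
    exact pow4 ha0 (strong2 hη0 hη1 hν hLF he h h (Or.inr hh1) (Or.inr hh1)) hηa
  have e3 : av (fun z : G × G => ν e z.1 z.2 * (g' z - h' z) ^ 2) =
      av (fun z : G × G => (ν e z.1 z.2 - 1) * (g' z * g' z)) -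
        2 * av (fun z : G × G => (ν e z.1 z.2 - 1) * (g' z * h' z)) +
        av (fun z : G × G => (ν e z.1 z.2 - 1) * (h' z * h' z)) +
        av (fun z : G × G => (g' z - h' z) ^ 2) := by
    rw [← av_mul_left, ← av_sub, ← av_add, ← av_add]
    refine congrArg av (funext fun z => ?_)
    ring
  -- (4)
  have e4 : av (fun z : G × G => (g' z - h' z) ^ 2) =
      av (fun z : G × G => (g' z - min (g' z) 1) * (g' z - h' z)) +
        av (fun z : G × G => min (g' z) 1 * (g' z - h' z)) -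
        av (fun z : G × G => h' z * (g' z - h' z)) := by
    rw [← av_add, ← av_sub]
    refine congrArg av (funext fun z => ?_)
    ring
  obtain ⟨c1, c2⟩ := cod_lf (G := G) hη0 hLF he
  rw [← hn'] at c1 c2
  have t1 : |av (fun z : G × G => (g' z - min (g' z) 1) * (g' z - h' z))| ≤ a := by
    have b1 : av (fun z : G × G => (g' z - min (g' z) 1) ^ 2) ≤ 4 * η := by
      refine le_trans (av_mono fun z => ?_) c1
      have b2 := gn z
      rcases le_total (g' z) 1 with b3 | b3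
      · rw [min_eq_left b3, sub_self]
        nlinarith [sq_nonneg (n' z - 1)]
      · rw [min_eq_right b3]
        nlinarith
    have b4 : av (fun z : G × G => (g' z - h' z) ^ 2) ≤ 3 := by
      have b5 : av (fun z : G × G => (g' z - h' z) ^ 2) ≤ av (fun z : G × G => n' z ^ 2 + 1) := by
        refine av_mono fun z => ?_
        have b6 := gn z
        have b7 := g0 z
        have b8 := h0 z
        have b9 := h1 z
        nlinarith [mul_nonneg b7 b8]
      rw [av_add, av_const] at b5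
      linarith
    have b10 := av_cs (fun z : G × G => g' z - min (g' z) 1) (fun z : G × G => g' z - h' z)
    have b11 : av (fun z : G × G => (g' z - min (g' z) 1) ^ 2) *
        av (fun z : G × G => (g' z - h' z) ^ 2) ≤ 4 * η * 3 :=
      mul_le_mul b1 b4 (av_nonneg fun z => sq_nonneg _) (by linarith)
    have b12 : a ^ 4 ≤ a ^ 2 := pow_le_pow_of_le_one ha0 ha1 (by norm_num)
    refine abs_le_of_sq_le_sq ?_ ha0
    linarith
  have t2 : |av (fun z : G × G => min (g' z) 1 * (g' z - h' z))| ≤ ε₁ := by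
    have b1 := hind (fun u v => min (g' (u, v)) 1) fun u v =>
      ⟨le_min (g0 _) zero_le_one, min_le_right _ _⟩
    rw [tK_update he, tK_update he, ← hg', ← hh', ← av_sub] at b1
    refine le_trans (le_of_eq ?_) b1
    congr 1
    refine congrArg av (funext fun z => ?_)
    ring
  have t3 : |av (fun z : G × G => h' z * (g' z - h' z))| ≤ ε₁ := by
    have b1 := hind (fun u v => h' (u, v)) fun u v => ⟨h0 _, h1 _⟩
    rw [tK_update he, tK_update he, ← hg', ← hh', ← av_sub] at b1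
    refine le_trans (le_of_eq ?_) b1
    congr 1
    refine congrArg av (funext fun z => ?_)
    ring
  have u1 : av (fun z : G × G => ν e z.1 z.2 * (g' z - h' z) ^ 2) ≤ 5 * a + 2 * ε₁ := by
    rw [e3, e4]
    linarith [(abs_le.1 s1).2, (abs_le.1 s2).1, (abs_le.1 s3).2, (abs_le.1 t1).2,
      (abs_le.1 t2).2, (abs_le.1 t3).1]
  have u2 : av (fun z : G × G => g e z.1 z.2 * (g' z - h' z) ^ 2) ≤ 5 * a + 2 * ε₁ :=
    le_trans (av_mono fun z => mul_le_mul_of_nonneg_right (hg e he _ _).2 (sq_nonneg _)) u1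
  have u3 : av (fun z : G × G => g e z.1 z.2 * 1 ^ 2) ≤ 2 := by
    have b1 : av (fun z : G × G => g e z.1 z.2 * 1 ^ 2) ≤ av (fun z : G × G => ν e z.1 z.2) :=
      av_mono fun z => by
        have := (hg e he z.1 z.2).2
        linarith
    linarith [av_edge hLF he]
  have u4 := av_cs_w (W := fun z : G × G => g e z.1 z.2) (F := fun _ => (1 : ℝ))
    (H := fun z : G × G => g' z - h' z) (fun z => (hg e he _ _).1)
  have u5 : av (fun z : G × G => g e z.1 z.2 * 1 ^ 2) *
      av (fun z : G × G => g e z.1 z.2 * (g' z - h' z) ^ 2) ≤ 2 * (5 * a + 2 * ε₁) :=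
    mul_le_mul u3 u2 (av_nonneg fun z => mul_nonneg (hg e he _ _).1 (sq_nonneg _)) (by norm_num)
  have u6 : |av (fun z : G × G => g e z.1 z.2 * (1 * (g' z - h' z)))| ≤
      Real.sqrt (2 * (5 * a + 2 * ε₁)) := Real.abs_le_sqrt (u4.trans u5)
  rw [e1]
  refine (abs_add_le _ _).trans ?_
  linarith

end Pool.Agent.Work.MP_70e905_nt.PK
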