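import Pool.Agent.Work.MP_70e905_nt.PK.Cs1
import Pool.Agent.Work.MP_70e905_nt.PK.Box

/-!
# PK/Strong (size M-L): the strong linear forms condition

PROOF. Let `e = (i, j)`, `i < j`, `F x = ν e (x (i,false)) (x (j,false)) - 1`. Split `S = S₁ ∪ S₂ ∪ S₃`: `S₁` = the `s ∈ S` with an end `(i,false)`,
`S₂` = those with an end `(j,false)`, `S₃` the others (an element with both ends would have `s.1 = e`, because `i < j` and
`s.1.1 < s.1.2`). `U_a = U ∩ S_a`.
Step 1: `cs1` with `c = (i,false)`, `c' = (i,true)`, `K = F * ∏ s ∈ S₁, g s`, `H = ∏ s ∈ S₂ ∪ S₃, g s`, `Hb = ∏ s ∈ U₂ ∪ U₃, ν s.1`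
(`|H| ≤ Hb` by `hg`: the factor `1` for `s ∉ U`). `av Hb ≤ 1 + η ≤ 2` by `LF`. So `A^2 ≤ 2 * A₁` where `A` is the mean in the theorem and
`A₁ = av (Hb * (K * K(update)))`, `K (update x (i,false) (x (i,true))) = (ν e (x (i,true)) (x (j,false)) - 1) * ∏ s ∈ S₁, g s (x (src (φ s))) (x (tgt (φ s)))`,
where `φ s` replaces the end `(i,false)` of `s` by `(i,true)`.
Step 2: `cs1` with `c = (j,false)`, `c' = (j,true)`, `K' = (both factors ν e - 1) * ∏ s ∈ U₂, ν s.1`, `H' = ∏ s ∈ S₁, g s * ∏ s ∈ S₁, (g s at φ s) * ∏ s ∈ U₃, ν s.1`,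
`Hb' = ∏ s ∈ U₁, ν s.1 * ∏ s ∈ U₁, ν s.1 at φ s * ∏ s ∈ U₃, ν s.1 = ∏ over the set U₁ ∪ φ(U₁) ∪ U₃ ⊆ PD` (disjoint: the elements of `S` have no end `(i,true)`).
`av Hb' ≤ 1 + η ≤ 2`. So `A₁^2 ≤ 2 * A₂`, and `A₂ = av (Hb' * (K' * K'(update)))` is the mean of `box` with `T = U₁ ∪ φ(U₁) ∪ U₃ ∪ U₂ ∪ ψ(U₂)`
(`ψ` the same map for `j`; in `K'(update)` the factors `ν e - 1` are those with `(j,true)`), so `A₂ ≤ 16 η`.
Together `A^4 ≤ 4 A₁^2 ≤ 8 A₂ ≤ 128 η`.
-/

set_option autoImplicit false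

namespace Pool.Agent.Work.MP_70e905_nt.PK

open Finset

/-- replace the ends `(k, false)` by `(k, true)` -/
private def mv (k : Fin 4) (s : DE) : DE :=
  (s.1, (if s.1.1 = k then true else s.2.1, if s.1.2 = k then true else s.2.2))

private theorem src_mv_of_ne {k : Fin 4} {s : DE} (h : s.1.1 ≠ k) : src (mv k s) = src s := by
  unfold src mv
  simp only [if_neg h]

private theorem tgt_mv_of_ne {k : Fin 4} {s : DE} (h : s.1.2 ≠ k) : tgt (mv k s) = tgt s := by
  unfold tgt mv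
  simp only [if_neg h]

private theorem src_mv_of_eq {k : Fin 4} {s : DE} (h : s.1.1 = k) : src (mv k s) = (k, true) := by
  unfold src mv
  simp [h]

private theorem tgt_mv_of_eq {k : Fin 4} {s : DE} (h : s.1.2 = k) : tgt (mv k s) = (k, true) := by
  unfold tgt mv
  simp [h]

private theorem src_eq_false {k : Fin 4} {s : DE} (h : s.1.1 = k) (h1 : src s ≠ (k, true)) :
    src s = (k, false) := by
  unfold src at h1 ⊢
  cases hb : s.2.1 with
  | false => rw [h]
  | true => exact absurd (by rw [h, hb]) h1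

private theorem tgt_eq_false {k : Fin 4} {s : DE} (h : s.1.2 = k) (h1 : tgt s ≠ (k, true)) :
    tgt s = (k, false) := by
  unfold tgt at h1 ⊢
  cases hb : s.2.2 with
  | false => rw [h]
  | true => exact absurd (by rw [h, hb]) h1

private theorem src_fst (s : DE) : (src s).1 = s.1.1 := rfl

private theorem tgt_fst (s : DE) : (tgt s).1 = s.1.2 := rfl

private theorem upd_src {G : Type} {k : Fin 4} {s : DE} (h1 : src s ≠ (k, true)) (x : V → G) :
    Function.update x (k, false) (x (k, true)) (src s) = x (src (mv k s)) := by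
  by_cases h : s.1.1 = k
  · rw [src_eq_false h h1, Function.update_self, src_mv_of_eq h]
  · rw [src_mv_of_ne h, Function.update_of_ne]
    intro h2
    exact h (by rw [← src_fst, h2])

private theorem upd_tgt {G : Type} {k : Fin 4} {s : DE} (h1 : tgt s ≠ (k, true)) (x : V → G) :
    Function.update x (k, false) (x (k, true)) (tgt s) = x (tgt (mv k s)) := by
  by_cases h : s.1.2 = k
  · rw [tgt_eq_false h h1, Function.update_self, tgt_mv_of_eq h]
  · rw [tgt_mv_of_ne h, Function.update_of_ne]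
    intro h2
    exact h (by rw [← tgt_fst, h2])

private theorem prod_mv {G : Type} {k : Fin 4} (T : Finset DE) (f : DE → G → G → ℝ)
    (h : ∀ s ∈ T, src s ≠ (k, true) ∧ tgt s ≠ (k, true)) (x : V → G) :
    ∏ s ∈ T, f s (Function.update x (k, false) (x (k, true)) (src s))
      (Function.update x (k, false) (x (k, true)) (tgt s)) =
    ∏ s ∈ T, f s (x (src (mv k s))) (x (tgt (mv k s))) :=
  prod_congr rfl fun s hs => by rw [upd_src (h s hs).1, upd_tgt (h s hs).2]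

private theorem prod_inv {G : Type} {c : V} (T : Finset DE) (f : DE → G → G → ℝ)
    (h : ∀ s ∈ T, src s ≠ c ∧ tgt s ≠ c) (x : V → G) (u : G) :
    ∏ s ∈ T, f s (Function.update x c u (src s)) (Function.update x c u (tgt s)) =
    ∏ s ∈ T, f s (x (src s)) (x (tgt s)) :=
  prod_congr rfl fun s hs => by
    rw [Function.update_of_ne (h s hs).1, Function.update_of_ne (h s hs).2]

private theorem prod_inv_mv {G : Type} {c : V} {k : Fin 4} (T : Finset DE) (f : DE → G → G → ℝ)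
    (h : ∀ s ∈ T, src (mv k s) ≠ c ∧ tgt (mv k s) ≠ c) (x : V → G) (u : G) :
    ∏ s ∈ T, f s (Function.update x c u (src (mv k s))) (Function.update x c u (tgt (mv k s))) =
    ∏ s ∈ T, f s (x (src (mv k s))) (x (tgt (mv k s))) :=
  prod_congr rfl fun s hs => by
    rw [Function.update_of_ne (h s hs).1, Function.update_of_ne (h s hs).2]

private theorem mv_inj {k : Fin 4} {s s' : DE} (h1 : src s ≠ (k, true)) (h2 : tgt s ≠ (k, true))
    (h1' : src s' ≠ (k, true)) (h2' : tgt s' ≠ (k, true)) (h : mv k s = mv k s') : s = s' := by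
  have e0 : (mv k s).1 = (mv k s').1 := by rw [h]
  have e1 : s.1 = s'.1 := e0
  have e2 : (if s.1.1 = k then true else s.2.1) = (if s'.1.1 = k then true else s'.2.1) :=
    congrArg (fun t : DE => t.2.1) h
  have e3 : (if s.1.2 = k then true else s.2.2) = (if s'.1.2 = k then true else s'.2.2) :=
    congrArg (fun t : DE => t.2.2) h
  have e4 : s.2.1 = s'.2.1 := by
    by_cases hk : s.1.1 = k
    · have := congrArg Prod.snd (src_eq_false hk h1)
      have h3 := congrArg Prod.snd (src_eq_false (by rw [← e1]; exact hk) h1')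
      exact this.trans h3.symm
    · rw [if_neg hk, if_neg (by rw [← e1]; exact hk)] at e2
      exact e2
  have e5 : s.2.2 = s'.2.2 := by
    by_cases hk : s.1.2 = k
    · have := congrArg Prod.snd (tgt_eq_false hk h2)
      have h3 := congrArg Prod.snd (tgt_eq_false (by rw [← e1]; exact hk) h2')
      exact this.trans h3.symm
    · rw [if_neg hk, if_neg (by rw [← e1]; exact hk)] at e3
      exact e3
  exact Prod.ext e1 (Prod.ext e4 e5)

private theorem mem_PD {s : DE} : s ∈ PD ↔ s.1.1 < s.1.2 := by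
  unfold PD
  rw [mem_filter]
  exact ⟨fun h => h.2, fun h => ⟨mem_univ _, h⟩⟩

private theorem mv_mem_PD {k : Fin 4} {s : DE} (h : s ∈ PD) : mv k s ∈ PD := by
  rw [mem_PD] at h ⊢
  exact h

private theorem prod_image_mv {G : Type} {k : Fin 4} (T : Finset DE)
    (ν : Fin 4 × Fin 4 → G → G → ℝ)
    (h : ∀ s ∈ T, src s ≠ (k, true) ∧ tgt s ≠ (k, true)) (x : V → G) :
    ∏ s ∈ T.image (mv k), ν s.1 (x (src s)) (x (tgt s)) =
      ∏ s ∈ T, ν s.1 (x (src (mv k s))) (x (tgt (mv k s))) := by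
  rw [prod_image]
  · rfl
  · intro s hs s' hs' hss
    exact mv_inj (h s hs).1 (h s hs).2 (h s' hs').1 (h s' hs').2 hss

private theorem bd {G : Type} {ν : Fin 4 × Fin 4 → G → G → ℝ} {S U : Finset DE}
    {g : DE → G → G → ℝ} (hg : ∀ s ∈ S, ∀ u v, |g s u v| ≤ if s ∈ U then ν s.1 u v else 1)
    (T : Finset DE) (hT : T ⊆ S) (a b : DE → G) :
    |∏ s ∈ T, g s (a s) (b s)| ≤ ∏ s ∈ T.filter (· ∈ U), ν s.1 (a s) (b s) := by
  rw [abs_prod, prod_filter]
  exact prod_le_prod (fun s _ => abs_nonneg _) fun s hs => hg s (hT hs) _ _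

private theorem av_le_two {G : Type} [Fintype G] {η : ℝ} (hη1 : η ≤ 1)
    {ν : Fin 4 × Fin 4 → G → G → ℝ} (hLF : LF η ν) (T : Finset DE) (hT : T ⊆ PD) :
    av (fun x : V → G => ∏ s ∈ T, ν s.1 (x (src s)) (x (tgt s))) ≤ 2 := by
  have := (abs_le.1 (hLF T hT)).2
  linarith

theorem strong {G : Type} [Fintype G] [Nonempty G] {η : ℝ} (hη0 : 0 ≤ η) (hη1 : η ≤ 1)
    {ν : Fin 4 × Fin 4 → G → G → ℝ} (hν : ∀ p u v, 0 ≤ ν p u v) (hLF : LF η ν)
    {e : Fin 4 × Fin 4} (he : e ∈ P) (S U : Finset DE) (hS : S ⊆ PD) (hU : U ⊆ S)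
    (hSe : ∀ s ∈ S, s.1 ≠ e)
    (hc : ∀ s ∈ S, src s ≠ (e.1, true) ∧ src s ≠ (e.2, true) ∧ tgt s ≠ (e.1, true) ∧
      tgt s ≠ (e.2, true))
    (g : DE → G → G → ℝ) (hg : ∀ s ∈ S, ∀ u v, |g s u v| ≤ if s ∈ U then ν s.1 u v else 1) :
    av (fun x : V → G => (ν e (x (e.1, false)) (x (e.2, false)) - 1) *
      ∏ s ∈ S, g s (x (src s)) (x (tgt s))) ^ 4 ≤ 128 * η := by
  classical
  obtain ⟨i, j⟩ := e
  have hij : i < j := by
    rw [P, mem_filter] at he
    exact he.2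
  have hne : i ≠ j := hij.ne
  dsimp only at hc ⊢
  -- the pieces
  obtain ⟨S₁, hS₁⟩ : ∃ S₁ : Finset DE,
    S₁ = S.filter (fun s => src s = (i, false) ∨ tgt s = (i, false)) := ⟨_, rfl⟩
  obtain ⟨S₀, hS₀⟩ : ∃ S₀ : Finset DE,
    S₀ = S.filter (fun s => ¬ (src s = (i, false) ∨ tgt s = (i, false))) := ⟨_, rfl⟩
  obtain ⟨U₁, hU₁⟩ : ∃ U₁ : Finset DE, U₁ = S₁.filter (· ∈ U) := ⟨_, rfl⟩
  obtain ⟨U₀, hU₀⟩ : ∃ U₀ : Finset DE, U₀ = S₀.filter (· ∈ U) := ⟨_, rfl⟩
  obtain ⟨U₂, hU₂⟩ : ∃ U₂ : Finset DE,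
    U₂ = U₀.filter (fun s => src s = (j, false) ∨ tgt s = (j, false)) := ⟨_, rfl⟩
  obtain ⟨U₃, hU₃⟩ : ∃ U₃ : Finset DE,
    U₃ = U₀.filter (fun s => ¬ (src s = (j, false) ∨ tgt s = (j, false))) := ⟨_, rfl⟩
  have mS₁ : ∀ s, s ∈ S₁ ↔ s ∈ S ∧ (src s = (i, false) ∨ tgt s = (i, false)) := by
    intro s
    rw [hS₁, mem_filter]
  have mS₀ : ∀ s, s ∈ S₀ ↔ s ∈ S ∧ ¬ (src s = (i, false) ∨ tgt s = (i, false)) := by
    intro s
    rw [hS₀, mem_filter]
  have mU₁ : ∀ s, s ∈ U₁ ↔ s ∈ S₁ ∧ s ∈ U := by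
    intro s
    rw [hU₁, mem_filter]
  have mU₀ : ∀ s, s ∈ U₀ ↔ s ∈ S₀ ∧ s ∈ U := by
    intro s
    rw [hU₀, mem_filter]
  have mU₂ : ∀ s, s ∈ U₂ ↔ s ∈ U₀ ∧ (src s = (j, false) ∨ tgt s = (j, false)) := by
    intro s
    rw [hU₂, mem_filter]
  have mU₃ : ∀ s, s ∈ U₃ ↔ s ∈ U₀ ∧ ¬ (src s = (j, false) ∨ tgt s = (j, false)) := by
    intro s
    rw [hU₃, mem_filter]
  have sS₁ : ∀ s ∈ S₁, s ∈ S := fun s hs => ((mS₁ s).1 hs).1
  have sS₀ : ∀ s ∈ S₀, s ∈ S := fun s hs => ((mS₀ s).1 hs).1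
  have sU₁ : ∀ s ∈ U₁, s ∈ S := fun s hs => sS₁ s ((mU₁ s).1 hs).1
  have sU₀ : ∀ s ∈ U₀, s ∈ S := fun s hs => sS₀ s ((mU₀ s).1 hs).1
  have sU₂ : ∀ s ∈ U₂, s ∈ S := fun s hs => sU₀ s ((mU₂ s).1 hs).1
  have sU₃ : ∀ s ∈ U₃, s ∈ S := fun s hs => sU₀ s ((mU₃ s).1 hs).1
  -- no element has both an end `(i, false)` and an end `(j, false)`
  have hnb : ∀ s ∈ S₁, src s ≠ (j, false) ∧ tgt s ≠ (j, false) := by
    intro s hs
    obtain ⟨h1, h2⟩ := (mS₁ s).1 hs
    have h3 : s.1.1 < s.1.2 := mem_PD.1 (hS h1)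
    have h4 := hSe s h1
    constructor
    · intro h5
      have h6 : s.1.1 = j := by rw [← src_fst, h5]
      rcases h2 with h2 | h2
      · have h7 : s.1.1 = i := by rw [← src_fst, h2]
        exact hne (h7.symm.trans h6)
      · have h7 : s.1.2 = i := by rw [← tgt_fst, h2]
        rw [h6, h7] at h3
        exact absurd h3 (not_lt.2 hij.le)
    · intro h5
      have h6 : s.1.2 = j := by rw [← tgt_fst, h5]
      rcases h2 with h2 | h2
      · have h7 : s.1.1 = i := by rw [← src_fst, h2]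
        exact h4 (Prod.ext h7 h6)
      · have h7 : s.1.2 = i := by rw [← tgt_fst, h2]
        exact hne (h7.symm.trans h6)
  have hmvi : ∀ s ∈ S₁, ∀ b, src (mv i s) ≠ (j, b) ∧ tgt (mv i s) ≠ (j, b) := by
    intro s hs b
    obtain ⟨h1, h2⟩ := hnb s hs
    have h3 := hc s (sS₁ s hs)
    constructor
    · by_cases h : s.1.1 = i
      · rw [src_mv_of_eq h]
        intro h4
        exact hne (congrArg Prod.fst h4)
      · rw [src_mv_of_ne h]
        cases b
        · exact h1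
        · exact h3.2.1
    · by_cases h : s.1.2 = i
      · rw [tgt_mv_of_eq h]
        intro h4
        exact hne (congrArg Prod.fst h4)
      · rw [tgt_mv_of_ne h]
        cases b
        · exact h2
        · exact h3.2.2.2
  -- step 1
  obtain ⟨A, hA⟩ : ∃ A : ℝ, A = av (fun x : V → G => (ν (i, j) (x (i, false)) (x (j, false)) - 1) *
      ∏ s ∈ S, g s (x (src s)) (x (tgt s))) := ⟨_, rfl⟩
  obtain ⟨K, hK⟩ : ∃ K : (V → G) → ℝ, ∀ x, K x = (ν (i, j) (x (i, false)) (x (j, false)) - 1) *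
      ∏ s ∈ S₁, g s (x (src s)) (x (tgt s)) := ⟨_, fun _ => rfl⟩
  obtain ⟨H, hH⟩ : ∃ H : (V → G) → ℝ, ∀ x, H x = ∏ s ∈ S₀, g s (x (src s)) (x (tgt s)) :=
    ⟨_, fun _ => rfl⟩
  obtain ⟨Hb, hHb⟩ : ∃ Hb : (V → G) → ℝ, ∀ x, Hb x = ∏ s ∈ U₀, ν s.1 (x (src s)) (x (tgt s)) :=
    ⟨_, fun _ => rfl⟩
  have nif : ((i, false) : V) ≠ (i, true) := by
    intro h
    exact Bool.false_ne_true (congrArg Prod.snd h)
  have njf : ((j, false) : V) ≠ (j, true) := by
    intro h
    exact Bool.false_ne_true (congrArg Prod.snd h)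
  have nij : ∀ a b : Bool, ((i, a) : V) ≠ (j, b) := by
    intro a b h
    exact hne (congrArg Prod.fst h)
  have hAHK : A = av (fun x => H x * K x) := by
    rw [hA]
    congr 1
    funext x
    rw [hH, hK, hS₁, hS₀, ← prod_filter_mul_prod_filter_not S
      (fun s => src s = (i, false) ∨ tgt s = (i, false))]
    ring
  obtain ⟨A₁, hA₁⟩ : ∃ A₁ : ℝ, A₁ = av (fun x => Hb x * (K x * K (Function.update x (i, false)
    (x (i, true))))) := ⟨_, rfl⟩
  have hstep1 : A ^ 2 ≤ av Hb * A₁ := by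
    rw [hAHK, hA₁]
    refine cs1 (i, false) (i, true) nif H Hb K ?_ ?_ ?_ ?_ ?_
    · intro x
      rw [hH, hHb, hU₀]
      exact bd hg S₀ sS₀ _ _
    · intro x u
      rw [hH, hH]
      refine prod_inv S₀ g (fun s hs => ?_) x u
      have := ((mS₀ s).1 hs).2
      exact not_or.1 this
    · intro x u
      rw [hHb, hHb]
      refine prod_inv U₀ (fun s => ν s.1) (fun s hs => ?_) x u
      have := ((mS₀ s).1 ((mU₀ s).1 hs).1).2
      exact not_or.1 this
    · intro x u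
      rw [hHb, hHb]
      refine prod_inv U₀ (fun s => ν s.1) (fun s hs => ?_) x u
      have := hc s (sU₀ s hs)
      exact ⟨this.1, this.2.2.1⟩
    · intro x u
      rw [hK, hK, Function.update_of_ne nif, Function.update_of_ne (nij true false).symm]
      rw [prod_inv S₁ g (fun s hs => ?_) x u]
      have := hc s (sS₁ s hs)
      exact ⟨this.1, this.2.2.1⟩
  have hHb2 : av Hb ≤ 2 := by
    have h1 : Hb = fun x : V → G => ∏ s ∈ U₀, ν s.1 (x (src s)) (x (tgt s)) := funext hHb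
    rw [h1]
    exact av_le_two hη1 hLF U₀ fun s hs => hS (sU₀ s hs)
  have hHb0 : 0 ≤ av Hb := av_nonneg fun x => by
    rw [hHb]
    exact prod_nonneg fun s _ => hν _ _ _
  -- step 2
  obtain ⟨K', hK'⟩ : ∃ K' : (V → G) → ℝ, ∀ x, K' x =
      ((ν (i, j) (x (i, false)) (x (j, false)) - 1) * (ν (i, j) (x (i, true)) (x (j, false)) - 1)) *
        ∏ s ∈ U₂, ν s.1 (x (src s)) (x (tgt s)) := ⟨_, fun _ => rfl⟩
  obtain ⟨H', hH'⟩ : ∃ H' : (V → G) → ℝ, ∀ x, H' x =
      (∏ s ∈ S₁, g s (x (src s)) (x (tgt s))) *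
        (∏ s ∈ S₁, g s (x (src (mv i s))) (x (tgt (mv i s)))) *
        ∏ s ∈ U₃, ν s.1 (x (src s)) (x (tgt s)) := ⟨_, fun _ => rfl⟩
  obtain ⟨Hb', hHb'⟩ : ∃ Hb' : (V → G) → ℝ, ∀ x, Hb' x =
      (∏ s ∈ U₁, ν s.1 (x (src s)) (x (tgt s))) *
        (∏ s ∈ U₁, ν s.1 (x (src (mv i s))) (x (tgt (mv i s)))) *
        ∏ s ∈ U₃, ν s.1 (x (src s)) (x (tgt s)) := ⟨_, fun _ => rfl⟩
  have hA₁' : A₁ = av (fun x => H' x * K' x) := by
    rw [hA₁]
    congr 1
    funext x
    have h1 : K (Function.update x (i, false) (x (i, true))) =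
        (ν (i, j) (x (i, true)) (x (j, false)) - 1) *
          ∏ s ∈ S₁, g s (x (src (mv i s))) (x (tgt (mv i s))) := by
      rw [hK, Function.update_self, Function.update_of_ne (nij false false).symm]
      rw [prod_mv S₁ g (fun s hs => ?_) x]
      have := hc s (sS₁ s hs)
      exact ⟨this.1, this.2.2.1⟩
    rw [h1, hK, hHb, hH', hK', hU₂, hU₃, ← prod_filter_mul_prod_filter_not U₀
      (fun s => src s = (j, false) ∨ tgt s = (j, false))]
    ring
  obtain ⟨A₂, hA₂⟩ : ∃ A₂ : ℝ, A₂ = av (fun x => Hb' x * (K' x * K' (Function.update x (j, false)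
    (x (j, true))))) := ⟨_, rfl⟩
  have hU₁' : S₁.filter (· ∈ U) = U₁ := hU₁.symm
  have hstep2 : A₁ ^ 2 ≤ av Hb' * A₂ := by
    rw [hA₁', hA₂]
    refine cs1 (j, false) (j, true) njf H' Hb' K' ?_ ?_ ?_ ?_ ?_
    · intro x
      rw [hH', hHb', abs_mul, abs_mul]
      have h3 : 0 ≤ ∏ s ∈ U₃, ν s.1 (x (src s)) (x (tgt s)) := prod_nonneg fun s _ => hν _ _ _
      rw [abs_of_nonneg h3]
      refine mul_le_mul_of_nonneg_right ?_ h3
      have h4 := bd hg S₁ sS₁ (fun s => x (src s)) (fun s => x (tgt s))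
      have h5 := bd hg S₁ sS₁ (fun s => x (src (mv i s))) (fun s => x (tgt (mv i s)))
      rw [hU₁'] at h4 h5
      exact mul_le_mul h4 h5 (abs_nonneg _) (prod_nonneg fun s _ => hν _ _ _)
    · intro x u
      rw [hH', hH', prod_inv S₁ g hnb x u,
        prod_inv_mv S₁ g (fun s hs => hmvi s hs false) x u,
        prod_inv U₃ (fun s => ν s.1) (fun s hs => not_or.1 ((mU₃ s).1 hs).2) x u]
    · intro x u
      rw [hHb', hHb', prod_inv U₁ (fun s => ν s.1) (fun s hs => hnb s ((mU₁ s).1 hs).1) x u,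
        prod_inv_mv U₁ (fun s => ν s.1) (fun s hs => hmvi s ((mU₁ s).1 hs).1 false) x u,
        prod_inv U₃ (fun s => ν s.1) (fun s hs => not_or.1 ((mU₃ s).1 hs).2) x u]
    · intro x u
      rw [hHb', hHb', prod_inv U₁ (fun s => ν s.1)
          (fun s hs => ⟨(hc s (sU₁ s hs)).2.1, (hc s (sU₁ s hs)).2.2.2⟩) x u,
        prod_inv_mv U₁ (fun s => ν s.1) (fun s hs => hmvi s ((mU₁ s).1 hs).1 true) x u,
        prod_inv U₃ (fun s => ν s.1)
          (fun s hs => ⟨(hc s (sU₃ s hs)).2.1, (hc s (sU₃ s hs)).2.2.2⟩) x u]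
    · intro x u
      rw [hK', hK', Function.update_of_ne (nij false true), Function.update_of_ne njf,
        Function.update_of_ne (nij true true),
        prod_inv U₂ (fun s => ν s.1)
          (fun s hs => ⟨(hc s (sU₂ s hs)).2.1, (hc s (sU₂ s hs)).2.2.2⟩) x u]
  -- the sets
  have hci : ∀ s ∈ S, src s ≠ (i, true) ∧ tgt s ≠ (i, true) := fun s hs =>
    ⟨(hc s hs).1, (hc s hs).2.2.1⟩
  have hcj : ∀ s ∈ S, src s ≠ (j, true) ∧ tgt s ≠ (j, true) := fun s hs =>
    ⟨(hc s hs).2.1, (hc s hs).2.2.2⟩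
  have hend : ∀ s ∈ U₁, src (mv i s) = (i, true) ∨ tgt (mv i s) = (i, true) := by
    intro s hs
    rcases ((mS₁ s).1 ((mU₁ s).1 hs).1).2 with h | h
    · left
      exact src_mv_of_eq (by rw [← src_fst, h])
    · right
      exact tgt_mv_of_eq (by rw [← tgt_fst, h])
  have hendj : ∀ s ∈ U₂, src (mv j s) = (j, true) ∨ tgt (mv j s) = (j, true) := by
    intro s hs
    rcases ((mU₂ s).1 hs).2 with h | h
    · left
      exact src_mv_of_eq (by rw [← src_fst, h])
    · right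
      exact tgt_mv_of_eq (by rw [← tgt_fst, h])
  have hd1 : Disjoint U₁ (U₁.image (mv i)) := by
    rw [disjoint_left]
    intro s hs hs'
    obtain ⟨t, ht, rfl⟩ := mem_image.1 hs'
    have h1 := hci _ (sU₁ _ hs)
    rcases hend t ht with h | h
    · exact h1.1 h
    · exact h1.2 h
  have hd2 : Disjoint (U₁ ∪ U₁.image (mv i)) U₃ := by
    rw [disjoint_left]
    intro s hs hs'
    rcases mem_union.1 hs with h | h
    · exact ((mS₀ s).1 ((mU₀ s).1 ((mU₃ s).1 hs').1).1).2 ((mS₁ s).1 ((mU₁ s).1 h).1).2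
    · obtain ⟨t, ht, rfl⟩ := mem_image.1 h
      have h1 := hci _ (sU₃ _ hs')
      rcases hend t ht with h | h
      · exact h1.1 h
      · exact h1.2 h
  obtain ⟨T₁, hT₁⟩ : ∃ T₁ : Finset DE, T₁ = (U₁ ∪ U₁.image (mv i)) ∪ U₃ := ⟨_, rfl⟩
  have hT₁PD : T₁ ⊆ PD := by
    rw [hT₁]
    intro s hs
    rcases mem_union.1 hs with h | h
    · rcases mem_union.1 h with h | h
      · exact hS (sU₁ s h)
      · obtain ⟨t, ht, rfl⟩ := mem_image.1 h
        exact mv_mem_PD (hS (sU₁ t ht))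
    · exact hS (sU₃ s h)
  have hHbT : ∀ x : V → G, Hb' x = ∏ s ∈ T₁, ν s.1 (x (src s)) (x (tgt s)) := by
    intro x
    rw [hT₁, prod_union hd2, prod_union hd1, hHb',
      prod_image_mv U₁ ν (fun s hs => hci s (sU₁ s hs)) x]
  have hHb'2 : av Hb' ≤ 2 := by
    have h1 : Hb' = fun x : V → G => ∏ s ∈ T₁, ν s.1 (x (src s)) (x (tgt s)) := funext hHbT
    rw [h1]
    exact av_le_two hη1 hLF T₁ hT₁PD
  have hHb'0 : 0 ≤ av Hb' := av_nonneg fun x => by
    rw [hHbT]
    exact prod_nonneg fun s _ => hν _ _ _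
  have hd3 : Disjoint U₂ (U₂.image (mv j)) := by
    rw [disjoint_left]
    intro s hs hs'
    obtain ⟨t, ht, rfl⟩ := mem_image.1 hs'
    have h1 := hcj _ (sU₂ _ hs)
    rcases hendj t ht with h | h
    · exact h1.1 h
    · exact h1.2 h
  have hd4 : Disjoint T₁ (U₂ ∪ U₂.image (mv j)) := by
    rw [hT₁, disjoint_left]
    intro s hs hs'
    have hA1 : ∀ t ∈ U₁, mv i t ≠ s := by
      rintro t ht rfl
      rcases mem_union.1 hs' with h | h
      · have h1 := hci _ (sU₂ _ h)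
        rcases hend t ht with h2 | h2
        · exact h1.1 h2
        · exact h1.2 h2
      · obtain ⟨r, hr, hrt⟩ := mem_image.1 h
        have h1 := hmvi t ((mU₁ t).1 ht).1 true
        rcases hendj r hr with h2 | h2
        · rw [hrt] at h2
          exact h1.1 h2
        · rw [hrt] at h2
          exact h1.2 h2
    rcases mem_union.1 hs with h | h
    · rcases mem_union.1 h with h | h
      · rcases mem_union.1 hs' with h' | h'
        · exact ((mS₀ s).1 ((mU₀ s).1 ((mU₂ s).1 h').1).1).2 ((mS₁ s).1 ((mU₁ s).1 h).1).2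
        · obtain ⟨t, ht, rfl⟩ := mem_image.1 h'
          have h1 := hcj _ (sU₁ _ h)
          rcases hendj t ht with h2 | h2
          · exact h1.1 h2
          · exact h1.2 h2
      · obtain ⟨t, ht, hts⟩ := mem_image.1 h
        exact hA1 t ht hts
    · rcases mem_union.1 hs' with h' | h'
      · exact ((mU₃ s).1 h).2 ((mU₂ s).1 h').2
      · obtain ⟨t, ht, rfl⟩ := mem_image.1 h'
        have h1 := hcj _ (sU₃ _ h)
        rcases hendj t ht with h2 | h2
        · exact h1.1 h2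
        · exact h1.2 h2
  have hTPD : T₁ ∪ (U₂ ∪ U₂.image (mv j)) ⊆ PD := by
    intro s hs
    rcases mem_union.1 hs with h | h
    · exact hT₁PD h
    · rcases mem_union.1 h with h | h
      · exact hS (sU₂ s h)
      · obtain ⟨t, ht, rfl⟩ := mem_image.1 h
        exact mv_mem_PD (hS (sU₂ t ht))
  have hTe : ∀ s ∈ T₁ ∪ (U₂ ∪ U₂.image (mv j)), s.1 ≠ ((i, j) : Fin 4 × Fin 4) := by
    intro s hs
    rcases mem_union.1 hs with h | h
    · rw [hT₁] at h
      rcases mem_union.1 h with h | h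
      · rcases mem_union.1 h with h | h
        · exact hSe s (sU₁ s h)
        · obtain ⟨t, ht, rfl⟩ := mem_image.1 h
          exact hSe t (sU₁ t ht)
      · exact hSe s (sU₃ s h)
    · rcases mem_union.1 h with h | h
      · exact hSe s (sU₂ s h)
      · obtain ⟨t, ht, rfl⟩ := mem_image.1 h
        exact hSe t (sU₂ t ht)
  have hbox := box hLF he (T₁ ∪ (U₂ ∪ U₂.image (mv j))) hTPD hTe
  have hA₂' : A₂ = av (fun x : V → G =>
      (∏ c : Bool × Bool, (ν (i, j) (x (i, c.1)) (x (j, c.2)) - 1)) *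
        ∏ s ∈ T₁ ∪ (U₂ ∪ U₂.image (mv j)), ν s.1 (x (src s)) (x (tgt s))) := by
    rw [hA₂]
    congr 1
    funext x
    have h1 : K' (Function.update x (j, false) (x (j, true))) =
        ((ν (i, j) (x (i, false)) (x (j, true)) - 1) *
          (ν (i, j) (x (i, true)) (x (j, true)) - 1)) *
          ∏ s ∈ U₂, ν s.1 (x (src (mv j s))) (x (tgt (mv j s))) := by
      rw [hK', Function.update_self, Function.update_of_ne (nij false false),
        Function.update_of_ne (nij true false),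
        prod_mv U₂ (fun s => ν s.1) (fun s hs => hcj s (sU₂ s hs)) x]
    have h2 : ∏ c : Bool × Bool, (ν (i, j) (x (i, c.1)) (x (j, c.2)) - 1) =
        ((ν (i, j) (x (i, false)) (x (j, false)) - 1) *
          (ν (i, j) (x (i, true)) (x (j, false)) - 1)) *
        ((ν (i, j) (x (i, false)) (x (j, true)) - 1) *
          (ν (i, j) (x (i, true)) (x (j, true)) - 1)) := by
      rw [Fintype.prod_prod_type, Fintype.prod_bool, Fintype.prod_bool, Fintype.prod_bool]
      ring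
    rw [h1, h2, hK', hHbT, prod_union hd4, prod_union hd3,
      prod_image_mv U₂ ν (fun s hs => hcj s (sU₂ s hs)) x]
    ring
  have hA₂le : A₂ ≤ 16 * η := by
    rw [hA₂']
    exact (le_abs_self _).trans hbox
  -- conclusion
  have hA₂0 : A₁ ^ 2 ≤ 2 * |A₂| := by
    refine hstep2.trans ?_
    calc av Hb' * A₂ ≤ av Hb' * |A₂| := mul_le_mul_of_nonneg_left (le_abs_self _) hHb'0
      _ ≤ 2 * |A₂| := mul_le_mul_of_nonneg_right hHb'2 (abs_nonneg _)
  have hA₂abs : |A₂| ≤ 16 * η := by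
    rw [hA₂']
    exact hbox
  have hA1 : A ^ 2 ≤ 2 * |A₁| := by
    refine hstep1.trans ?_
    calc av Hb * A₁ ≤ av Hb * |A₁| := mul_le_mul_of_nonneg_left (le_abs_self _) hHb0
      _ ≤ 2 * |A₁| := mul_le_mul_of_nonneg_right hHb2 (abs_nonneg _)
  have hfin : A ^ 4 ≤ 128 * η := by
    calc A ^ 4 = (A ^ 2) ^ 2 := by ring
      _ ≤ (2 * |A₁|) ^ 2 := pow_le_pow_left₀ (sq_nonneg _) hA1 2
      _ = 4 * A₁ ^ 2 := by rw [mul_pow, sq_abs]; norm_num
      _ ≤ 128 * η := by linarith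
  rw [hA] at hfin
  exact hfin

end Pool.Agent.Work.MP_70e905_nt.PK
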