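import Pool.Agent.Work.MP_70e905_nt.PK.Strong
import Pool.Agent.Work.MP_70e905_nt.PK.CodD

/-!
# PK/Strong2 (size M): the strong linear forms condition for codegrees

PROOF. `cod_double` with `A z = ν e z.1 z.2 - 1` turns the mean into the mean of `strong` with `S = S₀ ∪ S₁`,
`S₀ = (P.erase e).image (fun p => (p, (false, false)))`, `S₁ = (P.erase e).image (fun p => (p, ((hiV e p.1).2, (hiV e p.2).2)))`; these sets are disjoint
(`p ∈ P.erase e` has an end that is not an end of `e`, because `p.1 < p.2`, `e.1 < e.2`, `p ≠ e`; at this end the second copy has `true`), both are contained in `PD`, no element has an end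
`(e.1, true)` or `(e.2, true)`. `g s = w₁ s.1` for `s ∈ S₀`, `g s = w₂ s.1` for `s ∈ S₁` (for example `g s = if s.2 = (false, false) then w₁ s.1 else w₂ s.1`).
`U` = the union of those of `S₀`, `S₁` for which the left alternative of `h1`, `h2` holds.
-/

set_option autoImplicit false

namespace Pool.Agent.Work.MP_70e905_nt.PK

open Finset

/-- the second copy of an edge -/
private def f1 (e p : Fin 4 × Fin 4) : DE := (p, ((hiV e p.1).2, (hiV e p.2).2))

private theorem fact : ∀ e ∈ P, ∀ p ∈ P.erase e, (f1 e p).2 ≠ (false, false) ∧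
    (src (p, (false, false)) ≠ (e.1, true) ∧ src (p, (false, false)) ≠ (e.2, true) ∧
      tgt (p, (false, false)) ≠ (e.1, true) ∧ tgt (p, (false, false)) ≠ (e.2, true)) ∧
    (src (f1 e p) ≠ (e.1, true) ∧ src (f1 e p) ≠ (e.2, true) ∧
      tgt (f1 e p) ≠ (e.1, true) ∧ tgt (f1 e p) ≠ (e.2, true)) := by
  decide

theorem strong2 {G : Type} [Fintype G] [Nonempty G] {η : ℝ} (hη0 : 0 ≤ η) (hη1 : η ≤ 1)
    {ν : Fin 4 × Fin 4 → G → G → ℝ} (hν : ∀ p u v, 0 ≤ ν p u v) (hLF : LF η ν)
    {e : Fin 4 × Fin 4} (he : e ∈ P) (w₁ w₂ : Fin 4 × Fin 4 → G → G → ℝ)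
    (h1 : (∀ p ∈ P, ∀ u v, |w₁ p u v| ≤ ν p u v) ∨ (∀ p ∈ P, ∀ u v, |w₁ p u v| ≤ 1))
    (h2 : (∀ p ∈ P, ∀ u v, |w₂ p u v| ≤ ν p u v) ∨ (∀ p ∈ P, ∀ u v, |w₂ p u v| ≤ 1)) :
    av (fun z : G × G => (ν e z.1 z.2 - 1) * (cod e w₁ z * cod e w₂ z)) ^ 4 ≤ 128 * η := by
  obtain ⟨b1, hb1⟩ : ∃ b : Bool, ∀ p ∈ P, ∀ u v, |w₁ p u v| ≤ if b = true then ν p u v else 1 := by
    rcases h1 with h | h
    · exact ⟨true, by simpa using h⟩
    · exact ⟨false, by simpa using h⟩
  obtain ⟨b2, hb2⟩ : ∃ b : Bool, ∀ p ∈ P, ∀ u v, |w₂ p u v| ≤ if b = true then ν p u v else 1 := by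
    rcases h2 with h | h
    · exact ⟨true, by simpa using h⟩
    · exact ⟨false, by simpa using h⟩
  have hinj0 : Function.Injective fun p : Fin 4 × Fin 4 => ((p, (false, false)) : DE) :=
    fun p q h => congrArg Prod.fst h
  have hinj1 : Function.Injective (f1 e) := fun p q h => congrArg Prod.fst h
  obtain ⟨S0, hS0⟩ : ∃ S, S = (P.erase e).image fun p => ((p, (false, false)) : DE) := ⟨_, rfl⟩
  obtain ⟨S1, hS1⟩ : ∃ S, S = (P.erase e).image (f1 e) := ⟨_, rfl⟩
  have m0 : ∀ s ∈ S0, s.1 ∈ P.erase e ∧ s.2 = (false, false) ∧ s = (s.1, (false, false)) := by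
    intro s hs
    rw [hS0, mem_image] at hs
    obtain ⟨p, hp, rfl⟩ := hs
    exact ⟨hp, rfl, rfl⟩
  have m1 : ∀ s ∈ S1, s.1 ∈ P.erase e ∧ s.2 ≠ (false, false) ∧ s = f1 e s.1 := by
    intro s hs
    rw [hS1, mem_image] at hs
    obtain ⟨p, hp, rfl⟩ := hs
    exact ⟨hp, (fact e he p hp).1, rfl⟩
  have hP : ∀ s ∈ S0 ∪ S1, s.1 ∈ P.erase e := by
    intro s hs
    rcases mem_union.1 hs with h | h
    · exact (m0 s h).1
    · exact (m1 s h).1
  have hdisj : Disjoint S0 S1 := by
    rw [disjoint_left]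
    intro s h h'
    exact (m1 s h').2.1 (m0 s h).2.1
  have h := strong hη0 hη1 hν hLF he (S0 ∪ S1)
    ((S0 ∪ S1).filter fun s => if s.2 = (false, false) then b1 = true else b2 = true) ?_
    (filter_subset _ _) ?_ ?_
    (fun s => if s.2 = (false, false) then w₁ s.1 else w₂ s.1) ?_
  · have e1 := cod_double he (fun z => ν e z.1 z.2 - 1) w₁ w₂
    rw [e1]
    refine le_trans (le_of_eq ?_) h
    congr 2
    funext x
    congr 1
    rw [prod_union hdisj]
    congr 1
    · rw [hS0, prod_image fun p _ q _ h => hinj0 h]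
      refine prod_congr rfl fun p _ => ?_
      rw [if_pos rfl]
      rfl
    · rw [hS1, prod_image fun p _ q _ h => hinj1 h]
      refine prod_congr rfl fun p hp => ?_
      rw [if_neg (fact e he p hp).1]
      rfl
  · intro s hs
    have := hP s hs
    unfold PD
    rw [mem_filter]
    refine ⟨mem_univ _, ?_⟩
    exact (mem_filter.1 (mem_of_mem_erase this)).2
  · intro s hs
    exact ne_of_mem_erase (hP s hs)
  · intro s hs
    rcases mem_union.1 hs with h | h
    · obtain ⟨h3, -, h4⟩ := m0 s h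
      rw [h4]
      exact (fact e he s.1 h3).2.1
    · obtain ⟨h3, -, h4⟩ := m1 s h
      rw [h4]
      exact (fact e he s.1 h3).2.2
  · intro s hs u v
    have hp := mem_of_mem_erase (hP s hs)
    show |(if s.2 = (false, false) then w₁ s.1 else w₂ s.1) u v| ≤ _
    by_cases h3 : s.2 = (false, false)
    · rw [if_pos h3]
      have h5 := hb1 s.1 hp u v
      by_cases h4 : b1 = true
      · rw [if_pos h4] at h5
        rw [if_pos (mem_filter.2 ⟨hs, by rw [if_pos h3]; exact h4⟩)]
        exact h5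
      · rw [if_neg h4] at h5
        rw [if_neg fun h6 => h4 (by
          have h7 := (mem_filter.1 h6).2
          rwa [if_pos h3] at h7)]
        exact h5
    · rw [if_neg h3]
      have h5 := hb2 s.1 hp u v
      by_cases h4 : b2 = true
      · rw [if_pos h4] at h5
        rw [if_pos (mem_filter.2 ⟨hs, by rw [if_neg h3]; exact h4⟩)]
        exact h5
      · rw [if_neg h4] at h5
        rw [if_neg fun h6 => h4 (by
          have h7 := (mem_filter.1 h6).2
          rwa [if_neg h3] at h7)]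
        exact h5

end Pool.Agent.Work.MP_70e905_nt.PK
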